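import Pool.Agent.TH756.PN.Cl

/-!
The Galois closure of a finite cover of a finite cover.
-/

set_option autoImplicit false
set_option linter.overlappingInstances false
set_option linter.unusedSectionVars false

open FF MvPolynomial IntermediateField Pool.Agent.TH122.AB Pool.Agent.TH756.PN

namespace Pool.Agent.Y169.CH

section

variable {k K : Type} [Field k] [CharZero k] [Field K] [Algebra k K]

theorem level {K' : Type} [Field K'] [Algebra k K'] [Algebra K K'] [IsScalarTower k K K'] {d : ℕ}
    {Z : Fin d → K} (hZ : IsTranscendenceBasis k Z) (E : IntermediateField k K)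
    (hE : E = IntermediateField.adjoin k (Set.range Z)) [FiniteDimensional E K'] [IsGalois E K'] :
    ∃ (G : Subgroup (K' ≃ₐ[k] K'))
      (_ : G = (E.map (IsScalarTower.toAlgHom k K K')).fixingSubgroup) (_ : Finite G)
      (_ : Algebra (fixedField G) K) (_ : IsScalarTower k (fixedField G) K)
      (_ : IsScalarTower (fixedField G) K K') (_ : FiniteDimensional (fixedField G) K)
      (X : Fin d → fixedField G), Gens (k := k) X ∧
        (∀ j, algebraMap (fixedField G) K (X j) = Z j) ∧
        IsTranscendenceBasis k fun j => (X j : K') := by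
  classical
  obtain ⟨f, hf⟩ : ∃ f : K →ₐ[k] K', f = IsScalarTower.toAlgHom k K K' := ⟨_, rfl⟩
  have hfa : ∀ z, f z = algebraMap K K' z := fun z => by
    rw [hf]
    rfl
  obtain ⟨E', hE'⟩ : ∃ E' : IntermediateField k K', E' = E.map f := ⟨_, rfl⟩
  let ε : E ≃ₐ[k] E' := (IntermediateField.equivMap E f).trans
    (IntermediateField.equivOfEq hE'.symm)
  have hε : ∀ z : E, ((ε z : E') : K') = algebraMap K K' z := by
    intro z
    rw [← hfa]
    rfl
  -- `K'` is Galois over `E'`
  let iEE' : Algebra E E' := ε.toRingEquiv.toRingHom.toAlgebra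
  have hTE : IsScalarTower E E' K' := IsScalarTower.of_algebraMap_eq fun z => by
    rw [IsScalarTower.algebraMap_apply E K K']
    exact (hε z).symm
  have hfin' : FiniteDimensional E' K' := Module.Finite.right E E' K'
  have hgal' : IsGalois E' K' := IsGalois.tower_top_of_isGalois E E' K'
  obtain ⟨hfinG, hfix⟩ := fixing_props E'
  obtain ⟨G, hG⟩ : ∃ G, G = E'.fixingSubgroup := ⟨_, rfl⟩
  rw [← hG] at hfinG hfix
  let φ : fixedField G →ₐ[k] K :=
    (E.val.comp ε.symm.toAlgHom).comp (IntermediateField.inclusion (le_of_eq hfix))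
  have hφ : ∀ z : fixedField G, algebraMap K K' (φ z) = z := by
    intro z
    have h1 := hε (ε.symm (IntermediateField.inclusion (le_of_eq hfix) z))
    rw [AlgEquiv.apply_symm_apply] at h1
    exact h1.symm
  let iG : Algebra (fixedField G) K := φ.toRingHom.toAlgebra
  have hTG1 : IsScalarTower k (fixedField G) K := IsScalarTower.of_algebraMap_eq fun c =>
    (φ.commutes c).symm
  have hTG2 : IsScalarTower (fixedField G) K K' := IsScalarTower.of_algebraMap_eq fun z =>
    (hφ z).symm
  have hfd2 : FiniteDimensional (fixedField G) K' := by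
    have hGal : IsGaloisGroup G (fixedField G) K' := Pool.Agent.W619.PQ.isGaloisGroup_fixed G
    exact IsGaloisGroup.finiteDimensional G _ K'
  have hfd3 : FiniteDimensional (fixedField G) K := FiniteDimensional.left (fixedField G) K K'
  have hZmem : ∀ j, algebraMap K K' (Z j) ∈ fixedField G := by
    intro j
    rw [hfix, hE', IntermediateField.mem_map]
    refine ⟨Z j, ?_, hfa _⟩
    rw [hE]
    exact IntermediateField.subset_adjoin k _ ⟨j, rfl⟩
  let X : Fin d → fixedField G := fun j => ⟨algebraMap K K' (Z j), hZmem j⟩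
  have hXZ : ∀ j, algebraMap (fixedField G) K (X j) = Z j := by
    intro j
    apply (algebraMap K K').injective
    exact hφ (X j)
  have hind : AlgebraicIndependent k fun j => algebraMap K K' (Z j) :=
    hZ.1.map' (f := IsScalarTower.toAlgHom k K K') (algebraMap K K').injective
  have hgens : Gens (k := k) X := by
    refine gens_of (Z := fun j => algebraMap K K' (Z j)) hind (E := fixedField G) ?_ fun j => rfl
    rw [hfix, hE', hE, IntermediateField.adjoin_map]
    congr 1
    ext z
    simp only [Set.mem_image, Set.mem_range]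
    constructor
    · rintro ⟨_, ⟨j, rfl⟩, rfl⟩
      exact ⟨j, (hfa _).symm⟩
    · rintro ⟨j, rfl⟩
      exact ⟨Z j, ⟨j, rfl⟩, hfa _⟩
  have hbas : IsTranscendenceBasis k fun j => (X j : K') := by
    have hft : Algebra.IsAlgebraic K K' := by
      have : Module.Finite K K' := Module.Finite.right (fixedField G) K K'
      exact Algebra.IsAlgebraic.of_finite K K'
    have h2 : Algebra.trdeg k K' = d := by
      rw [← trdeg_add_eq k K (A := K'), trdeg_eq_zero (R := K) (A := K'), add_zero,
        Pool.Agent.W602.GT.trdeg_of_basis hZ]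
    exact hind.isTranscendenceBasis_of_trdeg_le_of_finite (by rw [h2]; simp)
  exact ⟨G, by rw [hG, hE', hf], hfinG, iG, hTG1, hTG2, hfd3, X, hgens, hXZ, hbas⟩

/-- **The Galois closure.** -/
theorem exists_closure2 {d : ℕ} {Z Y : Fin d → K} (hZ : IsTranscendenceBasis k Z)
    (hY : IsTranscendenceBasis k Y)
    (hYZ : IntermediateField.adjoin k (Set.range Y) ≤ IntermediateField.adjoin k (Set.range Z))
    (hfd : FiniteDimensional (IntermediateField.adjoin k (Set.range Y)) K) :
    ∃ (K' : Type) (_ : Field K') (_ : Algebra k K') (_ : Algebra K K')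
      (_ : IsScalarTower k K K') (G0 G : Subgroup (K' ≃ₐ[k] K')) (_ : Finite G0) (_ : Finite G)
      (_ : G ≤ G0)
      (_ : Algebra (fixedField G0) K) (_ : IsScalarTower k (fixedField G0) K)
      (_ : IsScalarTower (fixedField G0) K K') (_ : FiniteDimensional (fixedField G0) K)
      (_ : Algebra (fixedField G) K) (_ : IsScalarTower k (fixedField G) K)
      (_ : IsScalarTower (fixedField G) K K') (_ : FiniteDimensional (fixedField G) K)
      (Y' : Fin d → fixedField G0) (X' : Fin d → fixedField G),
        Gens (k := k) Y' ∧ Gens (k := k) X' ∧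
        (∀ j, algebraMap (fixedField G0) K (Y' j) = Y j) ∧
        (∀ j, algebraMap (fixedField G) K (X' j) = Z j) ∧
        IsTranscendenceBasis k fun j => (X' j : K') := by
  classical
  obtain ⟨E, hE⟩ : ∃ E, E = IntermediateField.adjoin k (Set.range Y) := ⟨_, rfl⟩
  obtain ⟨E1, hE1⟩ : ∃ E1, E1 = IntermediateField.adjoin k (Set.range Z) := ⟨_, rfl⟩
  rw [← hE] at hfd hYZ
  rw [← hE1] at hYZ
  have hcE : CharZero E := charZero_of_injective_algebraMap (algebraMap k E).injective
  obtain ⟨K', iF, iK, key⟩ := exists_normal' E K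
  obtain ⟨hfin, hgal⟩ := key inferInstance fun r => rfl
  let iA : Algebra k K' := ((algebraMap K K').comp (algebraMap k K)).toAlgebra
  have hT1 : IsScalarTower k K K' := IsScalarTower.of_algebraMap_eq fun _ => rfl
  let iE1 : Algebra E E1 := (IntermediateField.inclusion hYZ).toRingHom.toAlgebra
  have hTE1 : IsScalarTower E E1 K' := IsScalarTower.of_algebraMap_eq fun z => rfl
  have hfin1 : FiniteDimensional E1 K' := Module.Finite.right E E1 K'
  have hgal1 : IsGalois E1 K' := IsGalois.tower_top_of_isGalois E E1 K'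
  obtain ⟨G0, hG0, a1, a2, a3, a4, a5, Y', hY1, hY2, hY3⟩ := level (K' := K') hY E hE
  obtain ⟨G, hG, b1, b2, b3, b4, b5, X', hX1, hX2, hX3⟩ := level (K' := K') hZ E1 hE1
  have hGG : G ≤ G0 := by
    rw [hG, hG0]
    apply IntermediateField.fixingSubgroup_le
    exact IntermediateField.map_mono _ hYZ
  exact ⟨K', iF, iA, iK, hT1, G0, G, a1, b1, hGG, a2, a3, a4, a5, b2, b3, b4, b5, Y', X', hY1, hX1,
    hY2, hX2, hX3⟩

end

end Pool.Agent.Y169.CH
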