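import Pool.Agent.Y169.CH.Mono

/-!
The monomial places are divisorial.
-/

set_option autoImplicit false
set_option linter.overlappingInstances false
set_option linter.unusedSectionVars false

open FF MvPolynomial Pool.Agent.W603.LV Pool.Agent.W619.PQ Pool.Agent.TH122.AB

namespace Pool.Agent.Y169.CH

section

variable {k : Type} [Field k] {K0 K : Type} [Field K0] [Field K] [Algebra k K0]
  [Algebra k K] [Algebra K0 K] [IsScalarTower k K0 K] {n : ℕ}

/-- the new exponents -/
noncomputable def nx (lam : Fin (n + 1) → ℕ) (b : Fin (n + 1)) (N : ℕ) (m : Fin n →₀ ℕ) :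
    Fin (n + 1) →₀ ℕ :=
  Finsupp.equivFunOnFinite.symm
    (b.insertNth (α := fun _ => ℕ) (N - ∑ j, lam (b.succAbove j) * m j) fun j => lam b * m j)

theorem nx_self (lam : Fin (n + 1) → ℕ) (b : Fin (n + 1)) (N : ℕ) (m : Fin n →₀ ℕ) :
    nx lam b N m b = N - ∑ j, lam (b.succAbove j) * m j := by
  unfold nx
  rw [Finsupp.coe_equivFunOnFinite_symm, Fin.insertNth_apply_same]

theorem nx_succ (lam : Fin (n + 1) → ℕ) (b : Fin (n + 1)) (N : ℕ) (m : Fin n →₀ ℕ) (j : Fin n) :
    nx lam b N m (b.succAbove j) = lam b * m j := by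
  unfold nx
  rw [Finsupp.coe_equivFunOnFinite_symm, Fin.insertNth_apply_succAbove]

theorem wt_nx (lam : Fin (n + 1) → ℕ) (b : Fin (n + 1)) {N : ℕ} {m : Fin n →₀ ℕ}
    (h : ∑ j, lam (b.succAbove j) * m j ≤ N) : wt lam (nx lam b N m) = lam b * N := by
  unfold wt
  rw [Fin.sum_univ_succAbove _ b, nx_self]
  simp only [nx_succ]
  have h1 : ∑ j, lam (b.succAbove j) * (lam b * m j) = lam b * ∑ j, lam (b.succAbove j) * m j := by
    rw [Finset.mul_sum]
    exact Finset.sum_congr rfl fun j _ => by ring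
  rw [h1, ← mul_add, Nat.sub_add_cancel h]

theorem div_mono {X : Fin (n + 1) → K0} (hX : Gens (k := k) X) (lam : Fin (n + 1) → ℕ)
    {b : Fin (n + 1)} (hb : lam b ≠ 0) {v : Place k K0}
    (hv : ∀ P : MvPolynomial (Fin (n + 1)) k, P ≠ 0 → v.ord (aeval X P) = mord lam P)
    {w : Place k K} {e : ℕ} (h : Over w v e) : IsDivisorial w (n + 1) := by
  classical
  have hX0 : X b ≠ 0 := by
    have := hX.ne (X_ne_zero (R := k) b)
    rwa [aeval_X] at this
  obtain ⟨y, hy⟩ : ∃ y : Fin n → K0,
    y = fun j => X (b.succAbove j) ^ lam b / X b ^ lam (b.succAbove j) := ⟨_, rfl⟩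
  refine ⟨fun j : Fin n => algebraMap K0 K (y j), fun R hR => ?_⟩
  change MvPolynomial (Fin n) k at R
  change aeval (fun j : Fin n => algebraMap K0 K (y j)) R ≠ 0 ∧
    w.ord (aeval (fun j : Fin n => algebraMap K0 K (y j)) R) = 0
  have h0 : aeval (fun j : Fin n => algebraMap K0 K (y j)) R = algebraMap K0 K (aeval y R) :=
    MvPolynomial.aeval_algebraMap_apply K y R
  rw [h0, Ne, map_eq_zero, h.2]
  obtain ⟨N, hN⟩ : ∃ N : ℕ, N = R.support.sup fun m => ∑ j, lam (b.succAbove j) * m j := ⟨_, rfl⟩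
  have hle : ∀ m ∈ R.support, ∑ j, lam (b.succAbove j) * m j ≤ N := by
    intro m hm
    rw [hN]
    exact Finset.le_sup (f := fun m : Fin n →₀ ℕ => ∑ j, lam (b.succAbove j) * m j) hm
  obtain ⟨P, hP⟩ : ∃ P : MvPolynomial (Fin (n + 1)) k,
    P = ∑ m ∈ R.support, monomial (nx lam b N m) (coeff m R) := ⟨_, rfl⟩
  have hinj : ∀ m m' : Fin n →₀ ℕ, nx lam b N m = nx lam b N m' → m = m' := by
    intro m m' hm
    ext j
    have h1 := congrArg (fun f => f (b.succAbove j)) hm
    simp only [nx_succ] at h1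
    exact Nat.eq_of_mul_eq_mul_left (Nat.pos_of_ne_zero hb) h1
  have hcoeff : ∀ m ∈ R.support, coeff (nx lam b N m) P = coeff m R := by
    intro m hm
    rw [hP, coeff_sum, Finset.sum_eq_single m]
    · rw [coeff_monomial, if_pos rfl]
    · intro m' _ hne
      rw [coeff_monomial, if_neg]
      intro h
      exact hne (hinj _ _ h)
    · intro h
      exact absurd hm h
  have hP0 : P ≠ 0 := by
    obtain ⟨m, hm⟩ := support_nonempty.2 hR
    intro h0
    have h1 := hcoeff m hm
    rw [h0, coeff_zero] at h1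
    exact (mem_support_iff.1 hm) h1.symm
  have hmord : mord lam P = lam b * N := by
    obtain ⟨a, ha, h1⟩ := exists_mord lam hP0
    rw [h1]
    rw [hP] at ha
    have h2 := support_sum ha
    rw [Finset.mem_biUnion] at h2
    obtain ⟨m, hm, ham⟩ := h2
    have h3 : a = nx lam b N m := by
      have := support_monomial_subset ham
      rwa [Finset.mem_singleton] at this
    rw [h3]
    exact wt_nx lam b (hle m hm)
  have hPX : aeval X P = aeval y R * X b ^ N := by
    rw [hP, map_sum, aeval_def, eval₂_eq', Finset.sum_mul]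
    refine Finset.sum_congr rfl fun m hm => ?_
    rw [aeval_monomial, mul_assoc]
    congr 1
    rw [Finsupp.prod_fintype _ _ fun i => pow_zero _, Fin.prod_univ_succAbove _ b, nx_self]
    simp only [nx_succ, hy]
    have h1 : ∀ j, (X (b.succAbove j) ^ lam b / X b ^ lam (b.succAbove j)) ^ m j =
        X (b.succAbove j) ^ (lam b * m j) * (X b ^ (lam (b.succAbove j) * m j))⁻¹ := by
      intro j
      rw [div_pow, ← pow_mul, ← pow_mul, div_eq_mul_inv]
    rw [Finset.prod_congr rfl fun j _ => h1 j, Finset.prod_mul_distrib, Finset.prod_inv_distrib,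
      Finset.prod_pow_eq_pow_sum]
    have h2 : X b ^ N = X b ^ (N - ∑ j, lam (b.succAbove j) * m j) *
        X b ^ (∑ j, lam (b.succAbove j) * m j) := by
      rw [← pow_add, Nat.sub_add_cancel (hle m hm)]
    rw [h2]
    have h3 : X b ^ (∑ j, lam (b.succAbove j) * m j) ≠ 0 := pow_ne_zero _ hX0
    field_simp
  have hne : aeval y R ≠ 0 := by
    intro h1
    rw [h1, zero_mul] at hPX
    exact hX.ne hP0 hPX
  refine ⟨hne, ?_⟩
  have h1 := hv P hP0
  rw [hPX, v.ord_mul hne (pow_ne_zero _ hX0), v.ord_pow, hmord] at h1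
  have h2 : v.ord (X b) = lam b := by
    have h3 := hv (MvPolynomial.X b) (X_ne_zero _)
    rw [aeval_X] at h3
    rw [h3]
    have h4 := mord_monomial (k := k) lam (Finsupp.single b 1)
    change (mord lam (MvPolynomial.X b : MvPolynomial (Fin (n + 1)) k) : ℤ) = _
    have h5 : (MvPolynomial.X b : MvPolynomial (Fin (n + 1)) k) =
      monomial (Finsupp.single b 1) 1 := rfl
    rw [h5, h4]
    unfold wt
    rw [Finset.sum_eq_single b]
    · simp
    · intro c _ hc
      rw [Finsupp.single_apply, if_neg (Ne.symm hc), mul_zero]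
    · intro h
      exact absurd (Finset.mem_univ _) h
  rw [h2] at h1
  push_cast at h1
  have h3 : v.ord (aeval y R) = 0 := by linarith
  rw [h3, mul_zero]

end

end Pool.Agent.Y169.CH
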