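import Pool.Agent.TH756.PN.JacP
import Pool.Agent.TH122.AB.Jac

/-!
The order of the sections of `m K + A` on logarithmic vector fields.
-/

set_option autoImplicit false
set_option linter.overlappingInstances false
set_option linter.unusedSectionVars false

open FF Pool.Agent.W603.LV Pool.Agent.W619.PQ Pool.Agent.W619.TW
open Pool.Agent.W619.Y Pool.Agent.TH122.AB Pool.Agent.TH756.PN

namespace Pool.Agent.Y169.CH

/-- `ω` is a section of `m K + A`, where the divisor `A` is generated by `S`. -/
def Sec {k K : Type} [Field k] [Field K] [Algebra k K] (n : ℕ) (S : Finset K) (m : ℕ)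
    (ω : (Fin n → Derivation k K K) → K) : Prop := SecP n Set.univ (fun _ => 0) S m ω

section

variable {k : Type} [Field k] [CharZero k] {K : Type} [Field K] [Algebra k K] {n : ℕ}

/-- The order on logarithmic vector fields is at least `m`. -/
theorem jacL (htr : Algebra.trdeg k K = n)
    (hfd : ∀ y : Fin n → K, IsTranscendenceBasis k y →
      FiniteDimensional (IntermediateField.adjoin k (Set.range y)) K)
    {w : Place k K} (hw : IsDivisorial w n) (dd : Fin n → Derivation k K K)
    (hlog : ∀ b, ∀ z : K, w.Reg (dd b z / z)) (S : Finset K) (m : ℕ)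
    (ω : (Fin n → Derivation k K K) → K) (hω : Sec n S m ω) :
    ω dd = 0 ∨ ∃ s ∈ S, s ≠ 0 ∧ w.ord s + m ≤ w.ord (ω dd) := by
  classical
  obtain ⟨y, E', i0, hy, hE'y, hi0, hyreg, hEpres⟩ := pFRAME k K n htr hfd w hw
  let M : Matrix (Fin n) (Fin n) K := Matrix.of fun b c => dd b (y c)
  have hddE : dd = fun b => ∑ c, M b c • E' c := by
    funext b
    apply der_ext' hy
    intro j
    rw [sum_der, Finset.sum_eq_single j]
    · rw [hE'y, if_pos rfl, mul_one]
      rfl
    · intro c _ hc
      rw [hE'y, if_neg hc, mul_zero]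
    · intro hj
      exact absurd (Finset.mem_univ _) hj
  have hy0 : ∀ c, y c ≠ 0 := by
    intro c h0
    have h1 := hE'y c c
    rw [h0, map_zero, if_pos rfl] at h1
    exact zero_ne_one h1
  have hge : Ge w 1 M.det := by
    have h1 : M.det = (∏ c, y c) * (Matrix.of fun b c => dd b (y c) / y c).det := by
      rw [← Matrix.det_mul_row]
      congr 1
      ext b c
      simp only [M, Matrix.of_apply]
      rw [mul_div_cancel₀ _ (hy0 c)]
    rw [h1]
    have h2 : Ge w 0 (Matrix.of fun b c => dd b (y c) / y c).det :=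
      Pool.Agent.W619.PQ.ge_det w _ fun b c => hlog b (y c)
    have h3 : Ge w 1 (∏ c, y c) := by
      rw [← Finset.mul_prod_erase Finset.univ y (Finset.mem_univ i0)]
      have h4 : Ge w 0 (∏ c ∈ Finset.univ.erase i0, y c) := by
        refine Finset.prod_induction _ (fun z => Ge w 0 z) (fun a b ha hb => ?_) Ge.one
          fun c _ => hyreg c
        simpa using ha.mul hb
      have h5 : Ge w 1 (y i0) := Or.inr hi0.ge
      simpa using h5.mul h4
    simpa using h3.mul h2
  have hpl := hω.1 M E'
  rw [← hddE] at hpl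
  have hsec := hω.2 w (Set.mem_univ _) hw E' hEpres
  by_cases h0 : ω dd = 0
  · exact Or.inl h0
  right
  rw [hpl] at h0
  have hM0 : M.det ^ m ≠ 0 := left_ne_zero_of_mul h0
  have h1 : ω E' ≠ 0 := right_ne_zero_of_mul h0
  obtain ⟨s, hs, hs0, hle⟩ := hsec.resolve_left h1
  refine ⟨s, hs, hs0, ?_⟩
  rw [hpl, w.ord_mul hM0 h1, w.ord_pow]
  have h2 : w.ord s ≤ w.ord (ω E') := by
    have h3 : (w.ord s : ℝ) ≤ w.ord (ω E') := by
      have := hle
      simp only [mul_zero, sub_zero] at this
      exact this
    exact_mod_cast h3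
  by_cases hm : m = 0
  · subst hm
    simpa using h2
  have h3 : 1 ≤ w.ord M.det := hge.resolve_left fun h => hM0 (by rw [h, zero_pow hm])
  have h4 : (m : ℤ) * 1 ≤ m * w.ord M.det := mul_le_mul_of_nonneg_left h3 (by positivity)
  linarith

end

end Pool.Agent.Y169.CH
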