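import Pool.Agent.TH756.PN.Cl
import Pool.Agent.TH122.AB.Mon

/-!
Ramification indices of an intermediate field of a Galois extension.
-/

set_option autoImplicit false
set_option linter.overlappingInstances false
set_option linter.unusedSectionVars false

open FF IntermediateField Pool.Agent.W603.LV Pool.Agent.W619.PQ Pool.Agent.TH122.AB

namespace Pool.Agent.Y169.CH

section

variable {K K' : Type} [Field K] [Field K'] [Algebra ℂ K] [Algebra ℂ K'] [Algebra K K']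
  [IsScalarTower ℂ K K']

/-- conjugation of the generator of the inertia group -/
theorem exists_rot_conj {G : Subgroup (K' ≃ₐ[ℂ] K')} [Finite G] {w : Place ℂ K'} {I : Subgroup G}
    (hI : ∀ g ∈ I, Inert w (g : K' ≃ₐ[ℂ] K')) {g : K' ≃ₐ[ℂ] K'} (hg : g ∈ G) :
    ∃ σ ∈ G, Inert (w.comp g) σ ∧ ∃ ζ : ℂ, IsPrimitiveRoot ζ (Nat.card I) ∧ ∀ z : K', z ≠ 0 →
      Ge (w.comp g) ((w.comp g).ord z + 1)
        (σ z - algebraMap ℂ K' (ζ ^ (w.comp g).ord z) * z) := by
  obtain ⟨σ0, hσI, -, ζ, hζ, hrot⟩ := Pool.Agent.W619.TW.exists_rot_generator w I hI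
  have hge : ∀ (a : ℤ) (z : K'), Ge (w.comp g) a z ↔ Ge w a (g z) := by
    intro a z
    unfold Ge
    rw [Place.comp_ord]
    simp
  refine ⟨g⁻¹ * σ0 * g, G.mul_mem (G.mul_mem (G.inv_mem hg) σ0.2) hg, fun z hz => ?_, ζ, hζ,
    fun z hz => ?_⟩
  · rw [hge] at hz ⊢
    have h1 := hI σ0 hσI (g z) hz
    have h2 : g ((g⁻¹ * (σ0 : K' ≃ₐ[ℂ] K') * g) z - z) = (σ0 : K' ≃ₐ[ℂ] K') (g z) - g z := by
      rw [map_sub]
      congr 1
      change (g * (g⁻¹ * (σ0 : K' ≃ₐ[ℂ] K') * g)) z = _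
      rw [← mul_assoc, ← mul_assoc, mul_inv_cancel, one_mul]
      rfl
    rw [h2]
    exact h1
  · rw [hge, Place.comp_ord]
    have h1 := hrot (g z) (by simpa using hz)
    have h2 : g ((g⁻¹ * (σ0 : K' ≃ₐ[ℂ] K') * g) z - algebraMap ℂ K' (ζ ^ w.ord (g z)) * z) =
        (σ0 : K' ≃ₐ[ℂ] K') (g z) - algebraMap ℂ K' (ζ ^ w.ord (g z)) * g z := by
      rw [map_sub, map_mul, AlgEquiv.commutes]
      congr 1
      change (g * (g⁻¹ * (σ0 : K' ≃ₐ[ℂ] K') * g)) z = _
      rw [← mul_assoc, ← mul_assoc, mul_inv_cancel, one_mul]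
      rfl
    rw [h2]
    exact h1

/-- powers of rotations -/
theorem rot_pow {w : Place ℂ K'} {σ : K' ≃ₐ[ℂ] K'} {ζ : ℂ} {z : K'}
    (hσ : Inert w σ)
    (h : Ge w (w.ord z + 1) (σ z - algebraMap ℂ K' (ζ ^ w.ord z) * z)) (N : ℕ) :
    Ge w (w.ord z + 1) ((σ ^ N) z - algebraMap ℂ K' ((ζ ^ w.ord z) ^ N) * z) := by
  induction N with
  | zero =>
    left
    simp
  | succ N ih =>
    have h1 : (σ ^ (N + 1)) z - algebraMap ℂ K' ((ζ ^ w.ord z) ^ (N + 1)) * z =
        σ ((σ ^ N) z - algebraMap ℂ K' ((ζ ^ w.ord z) ^ N) * z) +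
        algebraMap ℂ K' ((ζ ^ w.ord z) ^ N) * (σ z - algebraMap ℂ K' (ζ ^ w.ord z) * z) := by
      rw [pow_succ', AlgEquiv.mul_apply, map_sub σ, map_mul σ, AlgEquiv.commutes,
        pow_succ (ζ ^ w.ord z), map_mul (algebraMap ℂ K')]
      ring
    rw [h1]
    refine (hσ.ge ih).add ?_
    have h2 := (Ge.const (P := w) ((ζ ^ w.ord z) ^ N)).mul h
    simpa using h2

theorem pow_fix {σ : K' ≃ₐ[ℂ] K'} {a : K'} (h : σ a = a) (N : ℕ) : (σ ^ N) a = a := by
  induction N with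
  | zero => simp
  | succ N ih => rw [pow_succ', AlgEquiv.mul_apply, ih, h]

/-- **The ramification index of an intermediate field.** -/
theorem ram_dvd {G : Subgroup (K' ≃ₐ[ℂ] K')} [Finite G] {v : Place ℂ (fixedField G)}
    {w : Place ℂ K'} {e : ℕ} (hwv : Over w v e) {I : Subgroup G}
    (hI : ∀ g ∈ I, Inert w (g : K' ≃ₐ[ℂ] K')) (hcard : Nat.card I = e) {g : K' ≃ₐ[ℂ] K'}
    (hg : g ∈ G) {P : Place ℂ K} {e1 e2 : ℕ} (h1 : Over (w.comp g) P e1) (he : e = e1 * e2)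
    {ι : Type} (z : ι → K) (M : ι → ℕ) (hM : ∀ j, 0 < M j) (hz : ∀ j, z j ≠ 0)
    (b : ι → fixedField G) (hzb : ∀ j, algebraMap K K' (z j ^ M j) = b j) {S : Set K}
    (hgen : IntermediateField.adjoin ℂ (S ∪ Set.range z) = ⊤)
    (hS : ∀ σ ∈ G, Inert (w.comp g) σ → ∀ s ∈ S, σ (algebraMap K K' s) = algebraMap K K' s)
    {N : ℕ} (hN : ∀ j, (M j : ℤ) ∣ N * v.ord (b j)) : e2 ∣ N := by
  obtain ⟨σ, hσG, hσI, ζ, hζ, hrot⟩ := exists_rot_conj hI hg
  rw [hcard] at hζ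
  have hover := over_comp hwv hg
  have hzK : ∀ j, algebraMap K K' (z j) ≠ 0 := fun j => by simpa using hz j
  -- the roots
  have hfixz : ∀ j, (σ ^ N) (algebraMap K K' (z j)) = algebraMap K K' (z j) := by
    intro j
    refine rot_fix (w.comp g) σ hζ (hzK j) (hrot _ (hzK j)) (hM j) ?_ ?_
    · rw [← map_pow, hzb]
      exact (b j).2 ⟨σ, hσG⟩
    · obtain ⟨c, hc⟩ := hN j
      refine ⟨c, ?_⟩
      have h2 : (w.comp g).ord (algebraMap K K' (z j ^ M j)) = e * v.ord (b j) := by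
        rw [hzb]
        exact hover.2 (b j)
      rw [map_pow, (w.comp g).ord_pow] at h2
      have hM0 : (M j : ℤ) ≠ 0 := by
        have := hM j
        omega
      apply mul_left_cancel₀ hM0
      calc (M j : ℤ) * (N * (w.comp g).ord (algebraMap K K' (z j)))
          = N * (M j * (w.comp g).ord (algebraMap K K' (z j))) := by ring
        _ = e * (N * v.ord (b j)) := by rw [h2]; ring
        _ = M j * (e * c) := by rw [hc]; ring
  have hfixS : ∀ s ∈ S, (σ ^ N) (algebraMap K K' s) = algebraMap K K' s := by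
    intro s hs
    exact pow_fix (hS σ hσG hσI s hs) N
  have hfix : ∀ x : K, (σ ^ N) (algebraMap K K' x) = algebraMap K K' x := by
    intro x
    have hx : x ∈ IntermediateField.adjoin ℂ (S ∪ Set.range z) := by
      rw [hgen]
      trivial
    induction hx using IntermediateField.adjoin_induction with
    | mem x hx =>
      rcases hx with hx | ⟨j, rfl⟩
      · exact hfixS x hx
      · exact hfixz j
    | algebraMap c =>
      rw [← IsScalarTower.algebraMap_apply ℂ K K', AlgEquiv.commutes]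
    | add x y _ _ hx hy => rw [map_add, map_add, hx, hy]
    | inv x _ hx => rw [map_inv₀, map_inv₀, hx]
    | mul x y _ _ hx hy => rw [map_mul, map_mul, hx, hy]
  obtain ⟨π, hπ0, hπ⟩ := P.surj
  have hπK : algebraMap K K' π ≠ 0 := by simpa using hπ0
  have hord : (w.comp g).ord (algebraMap K K' π) = e1 := by rw [h1.2, hπ, mul_one]
  have h3 := rot_pow hσI (hrot _ hπK) N
  rw [hfix, hord, ← one_sub_mul, zpow_natCast, ← map_one (algebraMap ℂ K'), ← map_sub] at h3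
  have h4 : (ζ ^ e1) ^ N = 1 := by
    by_contra hne
    have hc : 1 - (ζ ^ e1) ^ N ≠ 0 := sub_ne_zero.2 (Ne.symm hne)
    have hcK : algebraMap ℂ K' (1 - (ζ ^ e1) ^ N) ≠ 0 := by
      rw [Ne, map_eq_zero]
      exact hc
    rcases h3 with h3 | h3
    · exact mul_ne_zero hcK hπK h3
    · rw [(w.comp g).ord_mul hcK hπK, (w.comp g).ord_const hc, hord] at h3
      omega
  rw [← pow_mul] at h4
  have h5 : e ∣ e1 * N := hζ.dvd_of_pow_eq_one _ h4
  rw [he] at h5
  exact Nat.dvd_of_mul_dvd_mul_left h1.1 h5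

end

end Pool.Agent.Y169.CH
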