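import Pool.Agent.Y169.CH.Tst
import Pool.Agent.Y169.CH.Ram
import Pool.Agent.Y169.CH.Clo
import Pool.Agent.Y169.CH.Div
import Pool.Agent.Y169.CH.LJac
import Pool.Agent.Y169.CH.TwoB

/-!
Fields generated by roots of products of polynomials in disjoint sets of variables.
-/

set_option autoImplicit false
set_option linter.overlappingInstances false
set_option linter.unusedSectionVars false

open FF MvPolynomial IntermediateField Pool.Agent.W603.LV Pool.Agent.W619.PQ
open Pool.Agent.TH122.AB Pool.Agent.TH756.PN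

namespace Pool.Agent.Y169.CH

/-- the field `K` is generated by the algebraically independent `Z b` and by roots of products of the
polynomials `F t` -/
structure Cvr {d r : ℕ} (Φ : Blk ℂ (d + 1) r) (K : Type) [Field K] [Algebra ℂ K] (R : ℕ) where
  /-- the coordinates -/
  Z : Fin (d + 1) → K
  hZ : IsTranscendenceBasis ℂ Z
  /-- the roots -/
  z : Fin R → K
  /-- their exponents -/
  M : Fin R → ℕ
  hM : ∀ j, 0 < M j
  /-- the exponents of the polynomials -/
  a : Fin R → Fin r → ℕ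
  hz : ∀ j, z j ^ M j = ∏ t, aeval Z (Φ.F t) ^ a j t
  hdiv : ∀ j t, M j ∣ a j t * Φ.D t
  hgen : IntermediateField.adjoin ℂ (Set.range Z ∪ Set.range z) = ⊤

theorem Blk.F_ne {k : Type} [Field k] {d r : ℕ} (Φ : Blk k d r) (t : Fin r) : Φ.F t ≠ 0 := by
  intro h
  have h1 := Φ.hF3 t
  rw [h, coeff_zero] at h1
  exact zero_ne_one h1

theorem Blk.yp_ne0 {k : Type} [Field k] {d r : ℕ} (Φ : Blk k d r) (b : Fin d) : Φ.yp b ≠ 0 := by
  unfold Blk.yp
  split_ifs
  · exact Φ.F_ne _
  · exact X_ne_zero _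

namespace Cvr

variable {d r : ℕ} {Φ : Blk ℂ (d + 1) r} {K : Type} [Field K] [Algebra ℂ K] {R : ℕ}
  (C : Cvr Φ K R)

theorem ae_ne {P : MvPolynomial (Fin (d + 1)) ℂ} (hP : P ≠ 0) : aeval C.Z P ≠ 0 := by
  intro h
  exact hP ((injective_iff_map_eq_zero _).1 C.hZ.1 P h)

theorem F_ne (t : Fin r) : aeval C.Z (Φ.F t) ≠ 0 := C.ae_ne (Φ.F_ne t)

theorem z_ne (j : Fin R) : C.z j ≠ 0 := by
  intro h
  have h1 := C.hz j
  rw [h, zero_pow (C.hM j).ne'] at h1
  exact (Finset.prod_ne_zero_iff.2 fun t _ => pow_ne_zero _ (C.F_ne t)) h1.symm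

/-- the new coordinates -/
noncomputable def Y (b : Fin (d + 1)) : K := aeval C.Z (Φ.yp b)

/-- the pivot variables are integral over the new coordinates -/
theorem int_Z (b : Fin (d + 1)) : IsIntegral (Algebra.adjoin ℂ (Set.range C.Y)) (C.Z b) := by
  classical
  obtain ⟨A, hA⟩ : ∃ A, A = Algebra.adjoin ℂ (Set.range C.Y) := ⟨_, rfl⟩
  rw [← hA]
  have hYA : ∀ b, C.Y b ∈ A := fun b => by
    rw [hA]
    exact Algebra.subset_adjoin ⟨b, rfl⟩
  have hnp : ∀ b, b ≠ Φ.c (Φ.τ b) → C.Z b ∈ A := by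
    intro b hb
    have h1 := hYA b
    unfold Y at h1
    rwa [Φ.yp_ne hb, aeval_X] at h1
  by_cases hb : b = Φ.c (Φ.τ b)
  · obtain ⟨t, ht⟩ : ∃ t, t = Φ.τ b := ⟨_, rfl⟩
    rw [← ht] at hb
    rw [hb]
    -- the coefficients
    let pr : (Fin (d + 1) →₀ ℕ) → K := fun m =>
      algebraMap ℂ K (coeff m (Φ.F t)) * ∏ b, if b = Φ.c t then 1 else C.Z b ^ m b
    have hpr : ∀ m ∈ (Φ.F t).support, pr m ∈ A := by
      intro m hm
      refine A.mul_mem (A.algebraMap_mem _) (A.prod_mem fun b _ => ?_)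
      split_ifs with h
      · exact A.one_mem
      · by_cases hbt : Φ.τ b = t
        · exact A.pow_mem (hnp b (by rw [hbt]; exact h)) _
        · rw [Φ.hF1 t m hm b hbt, pow_zero]
          exact A.one_mem
    let s := (Φ.F t).support.erase (Finsupp.single (Φ.c t) (Φ.D t))
    have hs : ∀ m ∈ s, m ∈ (Φ.F t).support := fun m hm => Finset.mem_of_mem_erase hm
    have hlt : ∀ m ∈ s, m (Φ.c t) < Φ.D t := by
      intro m hm
      have hm1 := Finset.mem_of_mem_erase hm
      have hm2 := Finset.ne_of_mem_erase hm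
      have hle := Φ.hF2 t m hm1
      by_contra hcon
      apply hm2
      ext b
      rw [Finsupp.single_apply]
      by_cases hb : Φ.c t = b
      · rw [if_pos hb, ← hb]
        have h3 : m (Φ.c t) ≤ ∑ b, (if Φ.τ b = t then m b else 0) := by
          have h4 := Finset.single_le_sum (f := fun b => if Φ.τ b = t then m b else 0)
            (fun _ _ => Nat.zero_le _) (Finset.mem_univ (Φ.c t))
          simpa only [Φ.hc t, if_true] using h4
        omega
      · rw [if_neg hb]
        by_cases hbt : Φ.τ b = t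
        · have h3 : m (Φ.c t) + m b ≤ ∑ b, (if Φ.τ b = t then m b else 0) := by
            have h4 := Finset.sum_le_sum_of_subset (f := fun b => if Φ.τ b = t then m b else 0)
              (Finset.subset_univ {Φ.c t, b})
            rw [Finset.sum_pair hb, if_pos (Φ.hc t), if_pos hbt] at h4
            exact h4
          omega
        · exact Φ.hF1 t m hm1 b hbt
    let q : Polynomial A := (∑ m : s, Polynomial.C ⟨pr m.1, hpr _ (hs _ m.2)⟩ *
      Polynomial.X ^ (m.1 (Φ.c t))) - Polynomial.C ⟨C.Y (Φ.c t), hYA _⟩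
    have hq : q.degree < (Φ.D t : ℕ) := by
      have hD := Φ.hD t
      refine lt_of_le_of_lt (Polynomial.degree_sub_le _ _) (max_lt ?_ ?_)
      · refine lt_of_le_of_lt (Polynomial.degree_sum_le _ _) ?_
        rw [Finset.sup_lt_iff (by exact WithBot.bot_lt_coe _)]
        intro m _
        refine lt_of_le_of_lt (Polynomial.degree_C_mul_X_pow_le _ _) ?_
        exact_mod_cast hlt m.1 m.2
      · refine lt_of_le_of_lt Polynomial.degree_C_le ?_
        exact_mod_cast hD
    refine ⟨Polynomial.X ^ Φ.D t + q, Polynomial.monic_X_pow_add hq, ?_⟩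
    rw [Polynomial.eval₂_add, Polynomial.eval₂_pow, Polynomial.eval₂_X, Polynomial.eval₂_sub,
      Polynomial.eval₂_finset_sum, Polynomial.eval₂_C]
    simp only [Polynomial.eval₂_mul, Polynomial.eval₂_C, Polynomial.eval₂_pow, Polynomial.eval₂_X]
    have h1 : ∀ m : s, algebraMap A K ⟨pr m.1, hpr _ (hs _ m.2)⟩ * C.Z (Φ.c t) ^ (m.1 (Φ.c t)) =
        aeval C.Z (monomial m.1 (coeff m.1 (Φ.F t))) := by
      intro m
      rw [aeval_monomial, Finsupp.prod_fintype _ _ fun i => pow_zero _]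
      change algebraMap ℂ K (coeff m.1 (Φ.F t)) * (∏ b, if b = Φ.c t then 1 else C.Z b ^ m.1 b) *
        C.Z (Φ.c t) ^ (m.1 (Φ.c t)) = _
      rw [mul_assoc]
      congr 1
      rw [← Finset.prod_erase_mul Finset.univ (fun b => C.Z b ^ m.1 b) (Finset.mem_univ (Φ.c t)),
        ← Finset.prod_erase_mul Finset.univ _ (Finset.mem_univ (Φ.c t)), if_pos rfl, mul_one]
      congr 1
      refine Finset.prod_congr rfl fun b hb => ?_
      rw [if_neg (Finset.ne_of_mem_erase hb)]
    have h2 : (Finsupp.single (Φ.c t) (Φ.D t)) ∈ (Φ.F t).support := by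
      rw [mem_support_iff, Φ.hF3]
      exact one_ne_zero
    have h3 : aeval C.Z (Φ.F t) = C.Z (Φ.c t) ^ Φ.D t +
        ∑ m : s, aeval C.Z (monomial m.1 (coeff m.1 (Φ.F t))) := by
      conv_lhs => rw [(Φ.F t).as_sum, map_sum, ← Finset.add_sum_erase _ _ h2, Φ.hF3]
      rw [aeval_monomial, map_one, one_mul, Finsupp.prod_single_index (by exact pow_zero _)]
      congr 1
      exact (Finset.sum_coe_sort s fun m => aeval C.Z (monomial m (coeff m (Φ.F t)))).symm
    rw [Finset.sum_congr rfl fun m _ => h1 m, add_sub_assoc', ← h3]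
    change _ - C.Y (Φ.c t) = 0
    unfold Y
    rw [Φ.yp_c, sub_self]
  · exact isIntegral_algebraMap (R := A) (x := ⟨C.Z b, hnp b hb⟩)

end Cvr

end Pool.Agent.Y169.CH
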