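import Pool.Agent.Y169.CH.Cv

/-!
The new coordinates, and the ramification indices.
-/

set_option autoImplicit false
set_option linter.overlappingInstances false
set_option linter.unusedSectionVars false

open FF MvPolynomial IntermediateField Pool.Agent.W603.LV Pool.Agent.W619.PQ
open Pool.Agent.TH122.AB Pool.Agent.TH756.PN

namespace Pool.Agent.Y169.CH

namespace Cvr

variable {d r : ℕ} {Φ : Blk ℂ (d + 1) r} {K : Type} [Field K] [Algebra ℂ K] {R : ℕ}
  (C : Cvr Φ K R)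

theorem Y_c (t : Fin r) : C.Y (Φ.c t) = aeval C.Z (Φ.F t) := by
  unfold Y
  rw [Φ.yp_c]

theorem Y_n {b : Fin (d + 1)} (hb : b ≠ Φ.c (Φ.τ b)) : C.Y b = C.Z b := by
  unfold Y
  rw [Φ.yp_ne hb, aeval_X]

theorem fin_Y : FiniteDimensional (IntermediateField.adjoin ℂ (Set.range C.Y)) K := by
  classical
  obtain ⟨E, hE⟩ : ∃ E, E = IntermediateField.adjoin ℂ (Set.range C.Y) := ⟨_, rfl⟩
  rw [← hE]
  have hYE : ∀ b, C.Y b ∈ E := fun b => by
    rw [hE]
    exact IntermediateField.subset_adjoin ℂ _ ⟨b, rfl⟩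
  have hAE : Algebra.adjoin ℂ (Set.range C.Y) ≤ E.toSubalgebra := by
    rw [hE]
    exact IntermediateField.algebra_adjoin_le_adjoin ℂ _
  refine (fin_of_gen E (S := Set.range C.Z ∪ Set.range C.z)
    ((Set.finite_range _).union (Set.finite_range _)) (fun L _ hSL => ?_) (fun x hx => ?_)).1
  · rw [eq_top_iff, ← C.hgen, IntermediateField.adjoin_le_iff]
    exact hSL
  · rcases hx with ⟨b, rfl⟩ | ⟨j, rfl⟩
    · obtain ⟨p, hp, hp0⟩ := C.int_Z b
      refine ⟨p.map (Subalgebra.inclusion hAE).toRingHom, hp.map _, ?_⟩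
      rw [Polynomial.eval₂_map]
      exact hp0
    · refine IsIntegral.of_pow (C.hM j) ?_
      rw [C.hz]
      refine isIntegral_algebraMap (R := E) (x := ⟨∏ t, aeval C.Z (Φ.F t) ^ C.a j t, ?_⟩)
      refine E.prod_mem fun t _ => ?_
      have h3 : aeval C.Z (Φ.F t) ∈ E := by
        rw [← C.Y_c]
        exact hYE _
      exact pow_mem h3 _

theorem bas_Y : IsTranscendenceBasis ℂ C.Y := by
  classical
  have hfd := C.fin_Y
  have h1 : Algebra.IsAlgebraic (IntermediateField.adjoin ℂ (Set.range C.Y)) K :=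
    Algebra.IsAlgebraic.of_finite _ _
  have h2 : Algebra.IsAlgebraic (Algebra.adjoin ℂ (Set.range C.Y)) K := by
    open scoped IntermediateField.algebraAdjoinAdjoin in
    exact IsFractionRing.comap_isAlgebraic_iff.2 h1
  have htr := Pool.Agent.W602.GT.trdeg_of_basis C.hZ
  exact Algebra.IsAlgebraic.isTranscendenceBasis_of_le_trdeg_of_finite ℂ C.Y (by rw [htr]; simp)

theorem adj_le : IntermediateField.adjoin ℂ (Set.range C.Y) ≤
    IntermediateField.adjoin ℂ (Set.range C.Z) := by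
  rw [IntermediateField.adjoin_le_iff]
  rintro _ ⟨b, rfl⟩
  have h1 : C.Y b ∈ Algebra.adjoin ℂ (Set.range C.Z) := by
    rw [Algebra.adjoin_range_eq_range_aeval]
    exact ⟨_, rfl⟩
  exact IntermediateField.algebra_adjoin_le_adjoin ℂ _ h1

include C in
theorem fin_all' (y : Fin (d + 1) → K) (hy : IsTranscendenceBasis ℂ y) :
    FiniteDimensional (IntermediateField.adjoin ℂ (Set.range y)) K :=
  fin_all C.fin_Y hy

/-- the polynomials under the roots -/
noncomputable def pb (j : Fin R) : MvPolynomial (Fin (d + 1)) ℂ := ∏ t, Φ.F t ^ C.a j t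

theorem pb_ne (j : Fin R) : C.pb j ≠ 0 :=
  Finset.prod_ne_zero_iff.2 fun t _ => pow_ne_zero _ (Φ.F_ne t)

theorem ae_pb (j : Fin R) : aeval C.Z (C.pb j) = C.z j ^ C.M j := by
  rw [C.hz, pb, map_prod]
  exact Finset.prod_congr rfl fun t _ => by rw [map_pow]

section

variable {K' : Type} [Field K'] [Algebra ℂ K'] [Algebra K K'] [IsScalarTower ℂ K K']

/-- **No ramification.** -/
theorem ramG {G : Subgroup (K' ≃ₐ[ℂ] K')} [Finite G] [Algebra (fixedField G) K]
    [IsScalarTower ℂ (fixedField G) K] [IsScalarTower (fixedField G) K K']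
    {X : Fin (d + 1) → fixedField G} (hXZ : ∀ j, algebraMap (fixedField G) K (X j) = C.Z j)
    {v : Place ℂ (fixedField G)} {w : Place ℂ K'} {e : ℕ} (hwv : Over w v e) {I : Subgroup G}
    (hI : ∀ g ∈ I, Inert w (g : K' ≃ₐ[ℂ] K')) (hcard : Nat.card I = e) {g : K' ≃ₐ[ℂ] K'}
    (hg : g ∈ G) {P : Place ℂ K} {e1 e2 : ℕ} (h1 : Over (w.comp g) P e1) (he : e = e1 * e2)
    (hd : ∀ j, (C.M j : ℤ) ∣ v.ord (aeval X (C.pb j))) : e2 = 1 := by
  have hXK : ∀ j, algebraMap K K' (C.Z j) = (X j : K') := by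
    intro j
    rw [← hXZ, ← IsScalarTower.algebraMap_apply (fixedField G) K K']
    rfl
  refine Nat.dvd_one.1 (ram_dvd hwv hI hcard hg h1 he C.z C.M C.hM C.z_ne
    (fun j => aeval X (C.pb j)) (fun j => ?_) (S := Set.range C.Z) C.hgen ?_ (N := 1) fun j => ?_)
  · rw [← C.ae_pb, ← aeval_fix]
    have h2 : (fun j => (X j : K')) = fun j => algebraMap K K' (C.Z j) := by
      funext j
      rw [hXK]
    rw [h2]
    exact (MvPolynomial.aeval_algebraMap_apply K' C.Z (C.pb j)).symm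
  · rintro σ hσ - _ ⟨b, rfl⟩
    rw [hXK]
    exact (X b).2 ⟨σ, hσ⟩
  · simpa using hd j

/-- **The ramification at the monomial places.** -/
theorem ramT (hΦ : Smo Φ) {G : Subgroup (K' ≃ₐ[ℂ] K')} [Finite G] [Algebra (fixedField G) K]
    [IsScalarTower ℂ (fixedField G) K] [IsScalarTower (fixedField G) K K']
    [FiniteDimensional (fixedField G) K]
    {Y : Fin (d + 1) → fixedField G} (hY : Gens (k := ℂ) Y)
    (hYK : ∀ j, algebraMap (fixedField G) K (Y j) = C.Y j) {D : Fin (d + 1) → Derivation ℂ K K}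
    (hD : ∀ i j, D i (C.Y j) = if i = j then 1 else 0) (lam : Fin r → ℕ)
    {v : Place ℂ (fixedField G)}
    (hv : ∀ P : MvPolynomial (Fin (d + 1)) ℂ, P ≠ 0 → v.ord (aeval Y P) =
      mord (fun b => if b = Φ.c (Φ.τ b) then lam (Φ.τ b) else 0) P)
    {w : Place ℂ K'} {e : ℕ} (hwv : Over w v e) {I : Subgroup G}
    (hI : ∀ g ∈ I, Inert w (g : K' ≃ₐ[ℂ] K')) (hcard : Nat.card I = e) {g : K' ≃ₐ[ℂ] K'}
    (hg : g ∈ G) {P : Place ℂ K} {e1 e2 : ℕ} (h1 : Over (w.comp g) P e1) (h2 : Over P v e2)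
    (he : e = e1 * e2) {N : ℕ} (hN : ∀ j, C.M j ∣ ∑ t, C.a j t * (N * lam t)) :
    e2 ∣ N ∧ ∀ b, P.Reg (C.Z b) := by
  classical
  obtain ⟨l, hl⟩ : ∃ l : Fin (d + 1) → ℕ, l = fun b => if b = Φ.c (Φ.τ b) then lam (Φ.τ b) else 0 :=
    ⟨_, rfl⟩
  rw [← hl] at hv
  have hlc : ∀ t, l (Φ.c t) = lam t := by
    intro t
    rw [hl]
    dsimp only
    rw [Φ.hc, if_pos rfl]
  have hln : ∀ b, b ≠ Φ.c (Φ.τ b) → l b = 0 := by
    intro b hb
    rw [hl]
    exact if_neg hb
  have hXK : ∀ j, algebraMap K K' (C.Y j) = (Y j : K') := by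
    intro j
    rw [← hYK, ← IsScalarTower.algebraMap_apply (fixedField G) K K']
    rfl
  have hYae : ∀ Q : MvPolynomial (Fin (d + 1)) ℂ,
      aeval C.Y Q = algebraMap (fixedField G) K (aeval Y Q) := by
    intro Q
    have h3 : C.Y = fun j => algebraMap (fixedField G) K (Y j) := funext fun j => (hYK j).symm
    rw [h3]
    exact MvPolynomial.aeval_algebraMap_apply K Y Q
  have hregZ : ∀ b, P.Reg (C.Z b) := by
    intro b
    refine reg_of_int (Z := C.Y) (fun Q => ?_) (C.int_Z b)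
    rw [hYae]
    refine h2.reg.2 ?_
    by_cases hQ : Q = 0
    · rw [hQ, map_zero]
      exact v.reg_zero
    · right
      rw [hv Q hQ]
      positivity
  refine ⟨?_, hregZ⟩
  have hunit : ∀ t, aeval C.Z (pderiv (Φ.c t) (Φ.F t)) ≠ 0 ∧
      P.ord (aeval C.Z (pderiv (Φ.c t) (Φ.F t))) = 0 := fun t =>
    unit_pivot Φ hΦ hY (Z := C.Z) (fun b => by rw [hYK]; rfl) l hln hv h2
      (D := D) (fun i j => by rw [hYK]; exact hD i j) hregZ t
  have hordY : ∀ t, v.ord (Y (Φ.c t)) = lam t := by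
    intro t
    have h3 := hv (MvPolynomial.X (Φ.c t)) (X_ne_zero _)
    rw [aeval_X] at h3
    have h5 : (MvPolynomial.X (Φ.c t) : MvPolynomial (Fin (d + 1)) ℂ) =
      monomial (Finsupp.single (Φ.c t) 1) 1 := rfl
    rw [h3, h5, mord_monomial]
    have h6 : wt l (Finsupp.single (Φ.c t) 1) = l (Φ.c t) := by
      unfold wt
      rw [Finset.sum_eq_single (Φ.c t)]
      · simp
      · intro c _ hc
        rw [Finsupp.single_apply, if_neg (Ne.symm hc), mul_zero]
      · intro h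
        exact absurd (Finset.mem_univ _) h
    rw [h6, hlc]
  have hYne : ∀ t, Y (Φ.c t) ≠ 0 := by
    intro t h0
    have h3 := hY.ne (X_ne_zero (R := ℂ) (Φ.c t))
    rw [aeval_X] at h3
    exact h3 h0
  refine ram_dvd hwv hI hcard hg h1 he C.z C.M C.hM C.z_ne
    (fun j => ∏ t, Y (Φ.c t) ^ C.a j t) (fun j => ?_) (S := Set.range C.Z) C.hgen ?_ (N := N)
    fun j => ?_
  · rw [C.hz, map_prod, IntermediateField.coe_prod]
    refine Finset.prod_congr rfl fun t _ => ?_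
    rw [map_pow, ← C.Y_c, hXK]
    rfl
  · rintro σ hσG hσ _ ⟨b, rfl⟩
    have hnp : ∀ b, b ≠ Φ.c (Φ.τ b) → σ (algebraMap K K' (C.Z b)) = algebraMap K K' (C.Z b) := by
      intro b hb
      rw [← C.Y_n hb, hXK]
      exact (Y b).2 ⟨σ, hσG⟩
    by_cases hb : b = Φ.c (Φ.τ b)
    · obtain ⟨t, ht⟩ : ∃ t, t = Φ.τ b := ⟨_, rfl⟩
      rw [← ht] at hb
      rw [hb]
      have hae : ∀ Q : MvPolynomial (Fin (d + 1)) ℂ,
          aeval (fun b => algebraMap K K' (C.Z b)) Q = algebraMap K K' (aeval C.Z Q) := fun Q =>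
        MvPolynomial.aeval_algebraMap_apply K' C.Z Q
      refine root_fix Φ (w := w.comp g) (Z := fun b => algebraMap K K' (C.Z b))
        (fun b => h1.reg.2 (hregZ b)) (t := t) ?_ ?_ hσ hnp ?_
      · rw [hae, Ne, map_eq_zero]
        exact (hunit t).1
      · rw [hae, h1.2, (hunit t).2, mul_zero]
      · rw [hae, ← C.Y_c, hXK]
        exact (Y (Φ.c t)).2 ⟨σ, hσG⟩
    · exact hnp b hb
  · rw [Pool.Agent.W602.GT.ord_prod' v Finset.univ _ fun t _ => pow_ne_zero _ (hYne t)]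
    have h3 : (N : ℤ) * ∑ t, v.ord (Y (Φ.c t) ^ C.a j t) =
        ((∑ t, C.a j t * (N * lam t) : ℕ) : ℤ) := by
      push_cast
      rw [Finset.mul_sum]
      refine Finset.sum_congr rfl fun t _ => ?_
      rw [v.ord_pow, hordY]
      ring
    rw [h3]
    exact_mod_cast hN j

end

end Cvr

end Pool.Agent.Y169.CH
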