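import Mathlib

/-!
Expansions of polynomials in several variables with respect to monic polynomials in the blocks.
-/

set_option autoImplicit false

open MvPolynomial

namespace Pool.Agent.Y169.CH

/-- the variables in blocks, a pivot variable in each block, and a polynomial in the variables of
each block, monic in the pivot variable -/
structure Blk (k : Type) [Field k] (d r : ℕ) where
  /-- the block of a variable -/
  τ : Fin d → Fin r
  /-- the pivot variables -/
  c : Fin r → Fin d
  hc : ∀ t, τ (c t) = t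
  /-- the degrees -/
  D : Fin r → ℕ
  hD : ∀ t, 1 ≤ D t
  /-- the polynomials -/
  F : Fin r → MvPolynomial (Fin d) k
  hF1 : ∀ t, ∀ m ∈ (F t).support, ∀ b, τ b ≠ t → m b = 0
  hF2 : ∀ t, ∀ m ∈ (F t).support, ∑ b, (if τ b = t then m b else 0) ≤ D t
  hF3 : ∀ t, coeff (Finsupp.single (c t) (D t)) (F t) = 1

namespace Blk

variable {k : Type} [Field k] {d r : ℕ} (Φ : Blk k d r)

/-- the degree in a block -/
noncomputable def bd (m : Fin d →₀ ℕ) (t : Fin r) : ℕ := ∑ b, if Φ.τ b = t then m b else 0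

/-- the weights of the new variables -/
noncomputable def wg (b : Fin d) : ℕ := if b = Φ.c (Φ.τ b) then Φ.D (Φ.τ b) else 1

/-- the weighted degree in a block -/
noncomputable def wbd (m : Fin d →₀ ℕ) (t : Fin r) : ℕ := ∑ b, if Φ.τ b = t then Φ.wg b * m b else 0

/-- the new variables -/
noncomputable def yp (b : Fin d) : MvPolynomial (Fin d) k :=
  if b = Φ.c (Φ.τ b) then Φ.F (Φ.τ b) else X b

theorem bd_add (m m' : Fin d →₀ ℕ) : Φ.bd (m + m') = Φ.bd m + Φ.bd m' := by
  classical
  funext t
  unfold bd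
  rw [Pi.add_apply, ← Finset.sum_add_distrib]
  refine Finset.sum_congr rfl fun b _ => ?_
  rw [Finsupp.add_apply]
  split_ifs <;> rfl

theorem wbd_add (m m' : Fin d →₀ ℕ) : Φ.wbd (m + m') = Φ.wbd m + Φ.wbd m' := by
  classical
  funext t
  unfold wbd
  rw [Pi.add_apply, ← Finset.sum_add_distrib]
  refine Finset.sum_congr rfl fun b _ => ?_
  rw [Finsupp.add_apply, mul_add]
  split_ifs <;> rfl

theorem bd_single (b : Fin d) (s : ℕ) (t : Fin r) :
    Φ.bd (Finsupp.single b s) t = if Φ.τ b = t then s else 0 := by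
  classical
  unfold bd
  rw [Finset.sum_eq_single b]
  · simp
  · intro b' _ hb
    rw [Finsupp.single_apply, if_neg (Ne.symm hb)]
    simp
  · intro h
    exact absurd (Finset.mem_univ _) h

theorem wbd_single (b : Fin d) (s : ℕ) (t : Fin r) :
    Φ.wbd (Finsupp.single b s) t = if Φ.τ b = t then Φ.wg b * s else 0 := by
  classical
  unfold wbd
  rw [Finset.sum_eq_single b]
  · simp
  · intro b' _ hb
    rw [Finsupp.single_apply, if_neg (Ne.symm hb)]
    simp
  · intro h
    exact absurd (Finset.mem_univ _) h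

theorem c_inj : Function.Injective Φ.c := by
  intro t t' h
  rw [← Φ.hc t, ← Φ.hc t', h]

/-- the exponents of the pivot variables -/
noncomputable def pv (β : ∀ t, Fin (Φ.D t)) : Fin d →₀ ℕ :=
  ∑ t, Finsupp.single (Φ.c t) (β t : ℕ)

theorem pv_c (β : ∀ t, Fin (Φ.D t)) (t : Fin r) : Φ.pv β (Φ.c t) = β t := by
  classical
  unfold pv
  rw [Finsupp.finset_sum_apply, Finset.sum_eq_single t]
  · simp
  · intro t' _ h
    rw [Finsupp.single_apply, if_neg fun h' => h (Φ.c_inj h')]
  · intro h
    exact absurd (Finset.mem_univ _) h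

theorem pv_ne (β : ∀ t, Fin (Φ.D t)) {b : Fin d} (hb : b ≠ Φ.c (Φ.τ b)) : Φ.pv β b = 0 := by
  classical
  unfold pv
  rw [Finsupp.finset_sum_apply]
  refine Finset.sum_eq_zero fun t _ => ?_
  rw [Finsupp.single_apply, if_neg]
  rintro rfl
  apply hb
  rw [Φ.hc]

/-- the polynomials with an expansion of bounded weighted degree -/
noncomputable def W (δ : Fin r → ℕ) : Submodule k (MvPolynomial (Fin d) k) :=
  Submodule.span k {P | ∃ (m : Fin d →₀ ℕ) (β : ∀ t, Fin (Φ.D t)), Φ.wbd m ≤ δ ∧
    P = aeval Φ.yp (monomial m (1 : k)) * monomial (Φ.pv β) 1}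

theorem W_mono {δ δ' : Fin r → ℕ} (h : δ ≤ δ') : Φ.W δ ≤ Φ.W δ' := by
  apply Submodule.span_mono
  rintro _ ⟨m, β, hm, rfl⟩
  exact ⟨m, β, hm.trans h, rfl⟩

theorem W_mul {δ : Fin r → ℕ} {P : MvPolynomial (Fin d) k} (hP : P ∈ Φ.W δ) (a : Fin d →₀ ℕ) :
    aeval Φ.yp (monomial a (1 : k)) * P ∈ Φ.W (δ + Φ.wbd a) := by
  unfold W at hP
  induction hP using Submodule.span_induction with
  | mem x hx =>
    obtain ⟨m, β, hm, rfl⟩ := hx
    refine Submodule.subset_span ⟨a + m, β, ?_, ?_⟩
    · rw [wbd_add, add_comm]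
      exact add_le_add_left hm _
    · rw [← mul_assoc, ← map_mul, monomial_mul, one_mul]
  | zero => rw [mul_zero]; exact Submodule.zero_mem _
  | add x y _ _ hx hy => rw [mul_add]; exact Submodule.add_mem _ hx hy
  | smul c x _ hx => rw [mul_smul_comm]; exact Submodule.smul_mem _ _ hx

theorem yp_c (t : Fin r) : Φ.yp (Φ.c t) = Φ.F t := by
  unfold yp
  rw [Φ.hc, if_pos rfl]

theorem yp_ne {b : Fin d} (hb : b ≠ Φ.c (Φ.τ b)) : Φ.yp b = X b := by
  unfold yp
  rw [if_neg hb]

theorem wg_c (t : Fin r) : Φ.wg (Φ.c t) = Φ.D t := by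
  unfold wg
  rw [Φ.hc, if_pos rfl]

theorem wg_ne {b : Fin d} (hb : b ≠ Φ.c (Φ.τ b)) : Φ.wg b = 1 := by
  unfold wg
  rw [if_neg hb]

theorem mem_W_small {a : Fin d →₀ ℕ} (ha : ∀ t, a (Φ.c t) < Φ.D t) :
    monomial a (1 : k) ∈ Φ.W (Φ.bd a) := by
  classical
  let β : ∀ t, Fin (Φ.D t) := fun t => ⟨a (Φ.c t), ha t⟩
  let a' : Fin d →₀ ℕ := Finsupp.equivFunOnFinite.symm
    fun b => if b = Φ.c (Φ.τ b) then 0 else a b
  have ha' : ∀ b, a' b = if b = Φ.c (Φ.τ b) then 0 else a b := fun b => rfl
  refine Submodule.subset_span ⟨a', β, ?_, ?_⟩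
  · intro t
    unfold wbd bd
    refine Finset.sum_le_sum fun b _ => ?_
    split_ifs with h
    · rw [ha']
      by_cases hb : b = Φ.c (Φ.τ b)
      · rw [if_pos hb, mul_zero]
        exact Nat.zero_le _
      · rw [if_neg hb, Φ.wg_ne hb, one_mul]
    · exact le_rfl
  · have h1 : aeval Φ.yp (monomial a' (1 : k)) = monomial a' (1 : k) := by
      rw [aeval_monomial, map_one, one_mul, monomial_eq, C_1, one_mul,
        Finsupp.prod_fintype _ _ fun i => pow_zero _, Finsupp.prod_fintype _ _ fun i => pow_zero _]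
      refine Finset.prod_congr rfl fun b _ => ?_
      by_cases hb : b = Φ.c (Φ.τ b)
      · rw [ha', if_pos hb, pow_zero, pow_zero]
      · rw [Φ.yp_ne hb]
    rw [h1, monomial_mul, one_mul]
    have h2 : a = a' + Φ.pv β := by
      ext b
      rw [Finsupp.add_apply, ha']
      by_cases hb : b = Φ.c (Φ.τ b)
      · rw [if_pos hb, zero_add]
        conv_rhs => rw [hb, Φ.pv_c]
        change _ = a (Φ.c (Φ.τ b))
        rw [← hb]
      · rw [if_neg hb, Φ.pv_ne β hb, add_zero]
    rw [← h2]

theorem mem_W_mono (N : ℕ) : ∀ a : Fin d →₀ ℕ, ∑ t, a (Φ.c t) < N →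
    monomial a (1 : k) ∈ Φ.W (Φ.bd a) := by
  classical
  induction N with
  | zero => intro a ha; omega
  | succ N ih =>
    intro a ha
    by_cases hsm : ∀ t, a (Φ.c t) < Φ.D t
    · exact Φ.mem_W_small hsm
    push Not at hsm
    obtain ⟨t, ht⟩ := hsm
    obtain ⟨a0, ha0⟩ : ∃ a0, a = a0 + Finsupp.single (Φ.c t) (Φ.D t) := by
      refine ⟨a - Finsupp.single (Φ.c t) (Φ.D t), ?_⟩
      ext b
      rw [Finsupp.add_apply, Finsupp.tsub_apply, Finsupp.single_apply]
      split_ifs with hb
      · subst hb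
        omega
      · omega
    have hD := Φ.hD t
    have hsum : ∑ s, a (Φ.c s) = ∑ s, a0 (Φ.c s) + Φ.D t := by
      rw [ha0]
      have h1 : ∀ s, (a0 + Finsupp.single (Φ.c t) (Φ.D t)) (Φ.c s) =
          a0 (Φ.c s) + if s = t then Φ.D t else 0 := by
        intro s
        rw [Finsupp.add_apply, Finsupp.single_apply]
        congr 1
        by_cases hs : s = t
        · subst hs
          simp
        · rw [if_neg hs, if_neg fun h => hs (Φ.c_inj h).symm]
      rw [Finset.sum_congr rfl fun s _ => h1 s, Finset.sum_add_distrib,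
        Finset.sum_ite_eq' Finset.univ t, if_pos (Finset.mem_univ _)]
    have hbd : Φ.bd a = Φ.bd a0 + Φ.bd (Finsupp.single (Φ.c t) (Φ.D t)) := by
      rw [ha0, bd_add]
    have hbdt : ∀ s, Φ.bd (Finsupp.single (Φ.c t) (Φ.D t)) s = if t = s then Φ.D t else 0 := by
      intro s
      rw [Φ.bd_single, Φ.hc]
    -- the equation
    have hdec : Φ.F t = monomial (Finsupp.single (Φ.c t) (Φ.D t)) (1 : k) +
        ∑ m ∈ (Φ.F t).support.erase (Finsupp.single (Φ.c t) (Φ.D t)),
          monomial m (coeff m (Φ.F t)) := by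
      have hmem : Finsupp.single (Φ.c t) (Φ.D t) ∈ (Φ.F t).support := by
        rw [mem_support_iff, Φ.hF3]
        exact one_ne_zero
      conv_lhs => rw [(Φ.F t).as_sum, ← Finset.add_sum_erase _ _ hmem, Φ.hF3]
    have heq : monomial a (1 : k) = aeval Φ.yp (monomial (Finsupp.single (Φ.c t) 1) (1 : k)) *
        monomial a0 1 - ∑ m ∈ (Φ.F t).support.erase (Finsupp.single (Φ.c t) (Φ.D t)),
          coeff m (Φ.F t) • monomial (a0 + m) (1 : k) := by
      have h1 : aeval Φ.yp (monomial (Finsupp.single (Φ.c t) 1) (1 : k)) = Φ.F t := by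
        rw [aeval_monomial, map_one, one_mul, Finsupp.prod_single_index, pow_one, Φ.yp_c]
        exact pow_zero _
      rw [h1]
      conv_rhs => rw [hdec]
      rw [add_mul, monomial_mul, one_mul, Finset.sum_mul, add_comm _ a0, ← ha0]
      have h2 : ∀ m, monomial m (coeff m (Φ.F t)) * monomial a0 (1 : k) =
          coeff m (Φ.F t) • monomial (a0 + m) (1 : k) := by
        intro m
        rw [monomial_mul, mul_one, smul_monomial, smul_eq_mul, mul_one, add_comm]
      rw [Finset.sum_congr rfl fun m _ => h2 m, ← hdec, add_sub_cancel_right]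
    rw [heq]
    refine Submodule.sub_mem _ ?_ (Submodule.sum_mem _ fun m hm => Submodule.smul_mem _ _ ?_)
    · have h1 := Φ.W_mul (ih a0 (by omega)) (Finsupp.single (Φ.c t) 1)
      refine Φ.W_mono (fun s => ?_) h1
      rw [Pi.add_apply, hbd, Pi.add_apply, hbdt, Φ.wbd_single, Φ.hc, Φ.wg_c, mul_one]
    · have hm1 := Finset.mem_of_mem_erase hm
      have hm2 := Finset.ne_of_mem_erase hm
      have hle := Φ.hF2 t m hm1
      have h0 := Φ.hF1 t m hm1
      have hlt : m (Φ.c t) < Φ.D t := by
        by_contra hcon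
        apply hm2
        ext b
        rw [Finsupp.single_apply]
        by_cases hb : Φ.c t = b
        · rw [if_pos hb, ← hb]
          have h3 : m (Φ.c t) ≤ ∑ b, (if Φ.τ b = t then m b else 0) := by
            have h4 := Finset.single_le_sum (f := fun b => if Φ.τ b = t then m b else 0)
              (fun _ _ => Nat.zero_le _) (Finset.mem_univ (Φ.c t))
            simpa only [Φ.hc t, if_true] using h4
          omega
        · rw [if_neg hb]
          by_cases hbt : Φ.τ b = t
          · have h3 : m (Φ.c t) + m b ≤ ∑ b, (if Φ.τ b = t then m b else 0) := by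
              have h4 := Finset.sum_le_sum_of_subset (f := fun b => if Φ.τ b = t then m b else 0)
                (Finset.subset_univ {Φ.c t, b})
              rw [Finset.sum_pair hb, if_pos (Φ.hc t), if_pos hbt] at h4
              exact h4
            omega
          · exact h0 b hbt
      have hsm : ∑ s, (a0 + m) (Φ.c s) = ∑ s, a0 (Φ.c s) + m (Φ.c t) := by
        have h1 : ∀ s, (a0 + m) (Φ.c s) = a0 (Φ.c s) + if s = t then m (Φ.c t) else 0 := by
          intro s
          rw [Finsupp.add_apply]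
          congr 1
          by_cases hs : s = t
          · subst hs
            simp
          · rw [if_neg hs]
            exact h0 _ (by rw [Φ.hc]; exact hs)
        rw [Finset.sum_congr rfl fun s _ => h1 s, Finset.sum_add_distrib,
          Finset.sum_ite_eq' Finset.univ t, if_pos (Finset.mem_univ _)]
      refine Φ.W_mono (fun s => ?_) (ih (a0 + m) (by omega))
      rw [Φ.bd_add, hbd, Pi.add_apply, Pi.add_apply, hbdt]
      refine Nat.add_le_add_left ?_ _
      by_cases hs : t = s
      · rw [if_pos hs]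
        subst hs
        exact hle
      · rw [if_neg hs]
        refine le_of_eq (Finset.sum_eq_zero fun b _ => ?_)
        split_ifs with h'
        · exact h0 b (by rw [h']; exact Ne.symm hs)
        · rfl

/-- **The expansion.** -/
theorem mem_W {P : MvPolynomial (Fin d) k} {δ : Fin r → ℕ} (h : ∀ m ∈ P.support, Φ.bd m ≤ δ) :
    P ∈ Φ.W δ := by
  rw [P.as_sum]
  refine Submodule.sum_mem _ fun m hm => ?_
  have h1 : monomial m (coeff m P) = coeff m P • monomial m (1 : k) := by
    rw [smul_monomial, smul_eq_mul, mul_one]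
  rw [h1]
  exact Submodule.smul_mem _ _ (Φ.W_mono (h m hm) (Φ.mem_W_mono _ m (Nat.lt_succ_self _)))

end Blk

end Pool.Agent.Y169.CH
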