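import Pool.Agent.Y169.CH.Low
import Pool.Agent.Y169.CH.Cnt
import Pool.Agent.TH756.PN.FinW

/-!
Dehomogenisation.
-/

set_option autoImplicit false
set_option linter.overlappingInstances false
set_option linter.unusedSectionVars false

open FF MvPolynomial Pool.Agent.W603.LV Pool.Agent.W602.GT Pool.Agent.W602.Cov
open Pool.Agent.TH756.PR Pool.Agent.TH122.AB Pool.Agent.TH756.PN

namespace Pool.Agent.Y169.CH

variable {r N : ℕ} {n : Fin r → ℕ} (e : ((i : Fin r) × Fin (n i)) ≃ Fin N)

/-- the dehomogenised coordinates -/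
noncomputable def dg (t : Fin r) : Fin (n t + 1) → MvPolynomial (Fin N) ℂ :=
  Fin.cases 1 fun l => X (e ⟨t, l⟩)

/-- the dehomogenisation -/
noncomputable def dh (t : Fin r) : MvPolynomial (Fin (n t + 1)) ℂ →ₐ[ℂ] MvPolynomial (Fin N) ℂ :=
  aeval (dg e t)

theorem dg_zero (t : Fin r) : dg e t 0 = 1 := rfl

theorem dg_succ (t : Fin r) (l : Fin (n t)) : dg e t l.succ = X (e ⟨t, l⟩) := rfl

theorem dh_X_zero (t : Fin r) : dh e t (X 0) = 1 := by
  unfold dh
  rw [aeval_X, dg_zero]

theorem dh_X_succ (t : Fin r) (l : Fin (n t)) : dh e t (X l.succ) = X (e ⟨t, l⟩) := by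
  unfold dh
  rw [aeval_X, dg_succ]

theorem aeval_dh {K : Type} [Field K] [Algebra ℂ K] {x : ∀ i, Fin (n i + 1) → K}
    (hx0 : ∀ i, x i 0 ≠ 0) {t : Fin r} {F : MvPolynomial (Fin (n t + 1)) ℂ} {dF : ℕ}
    (hh : F.IsHomogeneous dF) :
    aeval (uu e x) (dh e t F) = aeval (x t) F / x t 0 ^ dF := by
  classical
  have h1 : aeval (uu e x) (dh e t F) = aeval (fun j => x t j / x t 0) F := by
    unfold dh
    have h2 := MvPolynomial.comp_aeval_apply (dg e t) (aeval (R := ℂ) (uu e x)) F
    rw [h2]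
    congr 2
    funext j
    refine Fin.cases ?_ (fun l => ?_) j
    · rw [dg_zero, map_one, div_self (hx0 t)]
    · rw [dg_succ, aeval_X]
      change aff x (e.symm (e ⟨t, l⟩)) = _
      rw [e.symm_apply_apply]
      rfl
  rw [h1, eq_div_iff (pow_ne_zero _ (hx0 t)), mul_comm, ← aeval_smul_form hh]
  congr 2
  funext l
  rw [mul_div_cancel₀ _ (hx0 t)]

/-- the exponents -/
noncomputable def ex (t : Fin r) (a : Fin (n t + 1) →₀ ℕ) : Fin N →₀ ℕ :=
  ∑ l : Fin (n t), Finsupp.single (e ⟨t, l⟩) (a l.succ)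

theorem dh_monomial (t : Fin r) (a : Fin (n t + 1) →₀ ℕ) (c : ℂ) :
    dh e t (monomial a c) = monomial (ex e t a) c := by
  classical
  unfold dh ex
  rw [aeval_monomial, Finsupp.prod_fintype _ _ fun _ => pow_zero _, Fin.prod_univ_succ, dg_zero,
    one_pow, one_mul]
  simp only [dg_succ]
  rw [show (monomial (∑ l : Fin (n t), Finsupp.single (e ⟨t, l⟩) (a l.succ)) c :
    MvPolynomial (Fin N) ℂ) = C c * monomial (∑ l : Fin (n t), Finsupp.single (e ⟨t, l⟩) (a l.succ)) 1
    by rw [C_mul_monomial, mul_one], monomial_sum_one]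
  congr 1
  exact Finset.prod_congr rfl fun l _ => X_pow_eq_monomial

theorem dh_eq (t : Fin r) (F : MvPolynomial (Fin (n t + 1)) ℂ) :
    dh e t F = ∑ a ∈ F.support, monomial (ex e t a) (coeff a F) := by
  classical
  conv_lhs => rw [F.as_sum]
  rw [map_sum]
  exact Finset.sum_congr rfl fun a _ => dh_monomial e t a _

theorem coeff_dh (t : Fin r) (F : MvPolynomial (Fin (n t + 1)) ℂ) (m : Fin N →₀ ℕ) :
    coeff m (dh e t F) = ∑ a ∈ F.support, if ex e t a = m then coeff a F else 0 := by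
  classical
  rw [dh_eq, coeff_sum]
  exact Finset.sum_congr rfl fun a _ => by rw [coeff_monomial]

theorem mem_supp_dh {t : Fin r} {F : MvPolynomial (Fin (n t + 1)) ℂ} {m : Fin N →₀ ℕ}
    (hm : m ∈ (dh e t F).support) : ∃ a ∈ F.support, ex e t a = m := by
  classical
  rw [mem_support_iff, coeff_dh] at hm
  obtain ⟨a, ha, h1⟩ := Finset.exists_ne_zero_of_sum_ne_zero hm
  refine ⟨a, ha, ?_⟩
  by_contra h
  rw [if_neg h] at h1
  exact h1 rfl

theorem ex_ne {t : Fin r} (a : Fin (n t + 1) →₀ ℕ) {b : Fin N} (hb : (e.symm b).1 ≠ t) :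
    ex e t a b = 0 := by
  classical
  unfold ex
  rw [Finsupp.finset_sum_apply]
  refine Finset.sum_eq_zero fun l _ => ?_
  rw [Finsupp.single_apply, if_neg]
  rintro rfl
  apply hb
  rw [e.symm_apply_apply]

theorem ex_at {t : Fin r} (a : Fin (n t + 1) →₀ ℕ) (l : Fin (n t)) :
    ex e t a (e ⟨t, l⟩) = a l.succ := by
  classical
  unfold ex
  rw [Finsupp.finset_sum_apply, Finset.sum_eq_single l]
  · rw [Finsupp.single_eq_same]
  · intro l' _ hl
    rw [Finsupp.single_apply, if_neg]
    intro h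
    apply hl
    simpa using e.injective h
  · intro h
    exact absurd (Finset.mem_univ _) h

theorem sum_blk (t : Fin r) (g : Fin N → ℕ) :
    ∑ b, (if (e.symm b).1 = t then g b else 0) = ∑ l : Fin (n t), g (e ⟨t, l⟩) := by
  classical
  rw [← Equiv.sum_comp e, Fintype.sum_sigma]
  rw [Finset.sum_eq_single t]
  · exact Finset.sum_congr rfl fun l _ => by rw [e.symm_apply_apply, if_pos rfl]
  · intro s _ hs
    exact Finset.sum_eq_zero fun l _ => by rw [e.symm_apply_apply, if_neg hs]
  · intro h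
    exact absurd (Finset.mem_univ _) h

theorem sum_hom {m dF : ℕ} {F : MvPolynomial (Fin m) ℂ} (hh : F.IsHomogeneous dF)
    {a : Fin m →₀ ℕ} (ha : a ∈ F.support) : ∑ i, a i = dF := by
  have h2 := hh (mem_support_iff.1 ha)
  rw [← h2, Finsupp.weight_apply, Finsupp.sum_fintype _ _ fun i => by simp]
  simp

theorem pderiv_dg (t : Fin r) (l : Fin (n t)) (j : Fin (n t + 1)) :
    pderiv (e ⟨t, l⟩) (dg e t j) = if j = l.succ then 1 else 0 := by
  classical
  refine Fin.cases ?_ (fun l' => ?_) j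
  · rw [dg_zero, if_neg (Fin.succ_ne_zero _).symm, ← C_1, pderiv_C]
  · rw [dg_succ, pderiv_X]
    by_cases h : l' = l
    · subst h
      rw [if_pos rfl, Pi.single_eq_same]
    · rw [if_neg fun h' => h (Fin.succ_injective _ h'), Pi.single_eq_of_ne]
      intro h'
      apply h
      simpa using e.injective h'

theorem pderiv_dh (t : Fin r) (l : Fin (n t)) (F : MvPolynomial (Fin (n t + 1)) ℂ) :
    pderiv (e ⟨t, l⟩) (dh e t F) = dh e t (pderiv l.succ F) := by
  classical
  induction F using MvPolynomial.induction_on with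
  | C c =>
    rw [pderiv_C, map_zero]
    unfold dh
    rw [aeval_C]
    exact pderiv_C
  | add p q hp hq => rw [map_add, map_add, hp, hq, map_add, map_add]
  | mul_X p j hp =>
    rw [map_mul, pderiv_mul, pderiv_mul, hp, map_add, map_mul, map_mul, pderiv_X]
    congr 2
    unfold dh
    rw [aeval_X, pderiv_dg]
    by_cases h : j = l.succ
    · subst h
      rw [if_pos rfl, Pi.single_eq_same, map_one]
    · rw [if_neg h, Pi.single_eq_of_ne h, map_zero]

section blk

variable {N' : ℕ} (e' : ((i : Fin r) × Fin (n i)) ≃ Fin (N' + 1))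

/-- the dehomogenised forms -/
noncomputable def hblk (hn : ∀ i, 1 ≤ n i) {F : ∀ i, MvPolynomial (Fin (n i + 1)) ℂ}
    {dF : Fin r → ℕ} (hdF : ∀ i, 1 ≤ dF i) (hh : ∀ i, (F i).IsHomogeneous (dF i))
    (hF3 : ∀ i, coeff (Finsupp.single (Fin.last (n i)) (dF i)) (F i) = 1) :
    Blk ℂ (N' + 1) r where
  τ b := (e'.symm b).1
  c t := e' ⟨t, ⟨n t - 1, by have := hn t; omega⟩⟩
  hc t := by rw [e'.symm_apply_apply]
  D := dF
  hD := hdF
  F t := dh e' t (F t)
  hF1 t m hm b hb := by
    obtain ⟨a, -, rfl⟩ := mem_supp_dh e' hm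
    exact ex_ne e' a hb
  hF2 t m hm := by
    obtain ⟨a, ha, rfl⟩ := mem_supp_dh e' hm
    rw [sum_blk e' t fun b => ex e' t a b, ← sum_hom (hh t) ha, Fin.sum_univ_succ]
    refine le_trans (le_of_eq ?_) (Nat.le_add_left _ _)
    exact Finset.sum_congr rfl fun l _ => ex_at e' a l
  hF3 t := by
    classical
    have hl : (⟨n t - 1, by have := hn t; omega⟩ : Fin (n t)).succ = Fin.last (n t) := by
      apply Fin.ext
      have := hn t
      simp only [Fin.val_succ, Fin.val_last]
      omega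
    obtain ⟨l, hl'⟩ : ∃ l : Fin (n t), l = ⟨n t - 1, by have := hn t; omega⟩ := ⟨_, rfl⟩
    rw [← hl'] at hl ⊢
    have h3 := hF3 t
    rw [← hl] at h3
    rw [coeff_dh, Finset.sum_eq_single (Finsupp.single l.succ (dF t))]
    · rw [if_pos, h3]
      unfold ex
      rw [Finset.sum_eq_single l]
      · rw [Finsupp.single_eq_same]
      · intro l' _ hne
        rw [Finsupp.single_apply, if_neg fun h => hne (Fin.succ_injective _ h).symm,
          Finsupp.single_zero]
      · intro h
        exact absurd (Finset.mem_univ _) h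
    · intro a ha hne
      rw [if_neg]
      intro hex
      apply hne
      have h4 : ∀ l', a l'.succ = if l' = l then dF t else 0 := by
        intro l'
        rw [← ex_at e' a l', hex, Finsupp.single_apply]
        by_cases h : l' = l
        · subst h
          rw [if_pos rfl, if_pos rfl]
        · rw [if_neg h, if_neg]
          intro h'
          apply h
          simpa using (e'.injective h').symm
      have h5 : a 0 = 0 := by
        have h6 := sum_hom (hh t) ha
        rw [Fin.sum_univ_succ, Finset.sum_congr rfl fun l' _ => h4 l',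
          Finset.sum_ite_eq' Finset.univ l, if_pos (Finset.mem_univ _)] at h6
        omega
      ext j
      refine Fin.cases ?_ (fun l' => ?_) j
      · rw [h5, Finsupp.single_apply, if_neg (Fin.succ_ne_zero _)]
      · rw [h4, Finsupp.single_apply]
        by_cases h : l' = l
        · subst h
          rw [if_pos rfl, if_pos rfl]
        · rw [if_neg h, if_neg fun h' => h (Fin.succ_injective _ h').symm]
    · intro h
      rw [notMem_support_iff] at h
      rw [h]
      exact ite_self _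

variable (hn : ∀ i, 1 ≤ n i) {F : ∀ i, MvPolynomial (Fin (n i + 1)) ℂ}
    {dF : Fin r → ℕ} (hdF : ∀ i, 1 ≤ dF i) (hh : ∀ i, (F i).IsHomogeneous (dF i))
    (hF3 : ∀ i, coeff (Finsupp.single (Fin.last (n i)) (dF i)) (F i) = 1)

theorem hblk_n (t : Fin r) : (hblk e' hn hdF hh hF3).n t = n t := card_bk e' t

theorem hblk_D (t : Fin r) : (hblk e' hn hdF hh hF3).D t = dF t := rfl

theorem hblk_smo (hs : ∀ i, SmF (F i)) : Smo (hblk e' hn hdF hh hF3) := by
  classical
  intro t
  change ∃ (A : MvPolynomial (Fin (N' + 1)) ℂ) (A' : Fin (N' + 1) → MvPolynomial (Fin (N' + 1)) ℂ),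
    A * dh e' t (F t) + ∑ b, A' b * pderiv b (dh e' t (F t)) = 1
  obtain ⟨M, A, hA⟩ := null_cert (hs t) 0
  have h1 := congrArg (dh e' t) hA
  rw [map_pow, dh_X_zero, one_pow, map_sum, Fin.sum_univ_succ] at h1
  have h2 := congrArg (dh e' t) (hh t).sum_X_mul_pderiv
  rw [map_sum, Fin.sum_univ_succ, map_mul, dh_X_zero, one_mul, map_nsmul, nsmul_eq_mul] at h2
  refine ⟨dh e' t (A 0) * dF t, fun b => ∑ l : Fin (n t), if e' ⟨t, l⟩ = b then
    (dh e' t (A l.succ) - dh e' t (A 0) * X (e' ⟨t, l⟩)) else 0, ?_⟩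
  have h3 : ∑ b, (∑ l : Fin (n t), if e' ⟨t, l⟩ = b then
      (dh e' t (A l.succ) - dh e' t (A 0) * X (e' ⟨t, l⟩)) else 0) * pderiv b (dh e' t (F t)) =
      ∑ l : Fin (n t), (dh e' t (A l.succ) - dh e' t (A 0) * X (e' ⟨t, l⟩)) *
        dh e' t (pderiv l.succ (F t)) := by
    simp only [Finset.sum_mul]
    rw [Finset.sum_comm]
    refine Finset.sum_congr rfl fun l _ => ?_
    rw [Finset.sum_eq_single (e' ⟨t, l⟩)]
    · rw [if_pos rfl, pderiv_dh]
    · intro b _ hb
      rw [if_neg hb.symm, zero_mul]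
    · intro h
      exact absurd (Finset.mem_univ _) h
  rw [h3]
  simp only [sub_mul, Finset.sum_sub_distrib]
  have h4 : ∑ l : Fin (n t), dh e' t (A 0) * X (e' ⟨t, l⟩) * dh e' t (pderiv l.succ (F t)) =
      dh e' t (A 0) * ∑ l : Fin (n t), dh e' t (X l.succ * pderiv l.succ (F t)) := by
    rw [Finset.mul_sum]
    refine Finset.sum_congr rfl fun l _ => ?_
    rw [map_mul, dh_X_succ, mul_assoc]
  rw [h4, h1, map_mul]
  have h5 : dh e' t (pderiv 0 (F t)) = dF t * dh e' t (F t) -
      ∑ l : Fin (n t), dh e' t (X l.succ * pderiv l.succ (F t)) := by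
    rw [← h2]
    ring
  rw [h5]
  simp only [map_mul]
  ring

end blk

end Pool.Agent.Y169.CH
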