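import Pool.Agent.Y169.CH.Low2
import Pool.Agent.TH756.PN.Kod

/-!
The lower bound for the Kodaira dimension.
-/

set_option autoImplicit false
set_option linter.overlappingInstances false
set_option linter.unusedSectionVars false

open FF MvPolynomial Pool.Agent.W603.LV Pool.Agent.W602.GT Pool.Agent.W602.Cov
open Pool.Agent.TH756.PR Pool.Agent.TH122.AB Pool.Agent.TH756.PN

namespace Pool.Agent.Y169.CH

section arith

variable {r R : ℕ}

/-- the weights which satisfy the divisibility conditions -/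
def Adm (M : Fin R → ℕ) (a : Fin R → Fin r → ℕ) (v : Fin r → ℕ) : Prop :=
  v ≠ 0 ∧ ∀ j, M j ∣ ∑ i, a j i * v i

theorem adm_single {M : Fin R → ℕ} (hM : ∀ j, 0 < M j) (a : Fin R → Fin r → ℕ) (i : Fin r) :
    Adm M a (Pi.single i (∏ j, M j)) := by
  classical
  constructor
  · intro h
    have h1 := congrFun h i
    rw [Pi.single_eq_same, Pi.zero_apply] at h1
    exact (Finset.prod_pos fun j _ => hM j).ne' h1
  · intro j
    rw [Finset.sum_eq_single i]
    · rw [Pi.single_eq_same]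
      exact Dvd.dvd.mul_left (Finset.dvd_prod_of_mem M (Finset.mem_univ j)) _
    · intro s _ hs
      rw [Pi.single_eq_of_ne hs, mul_zero]
    · intro h
      exact absurd (Finset.mem_univ _) h

/-- the numerical estimate -/
theorem arith_key {M : Fin R → ℕ} (hM : ∀ j, 0 < M j) (a : Fin R → Fin r → ℕ) (n dF : Fin r → ℕ)
    (hd : ∀ i, 1 ≤ dF i)
    (hpos : ∀ v, Adm M a v → 1 ≤ ∑ i, (((dF i : ℚ) - n i - 1) / dF i) * v i)
    (I : Finset (Fin r)) (hI : ∀ i ∈ I, ∀ v, Adm M a v →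
      ∑ s, (((dF s : ℚ) - n s - 1) / dF s) * v s = 1 → v i = 0) :
    ∃ (T : ℕ) (E : Fin r → ℕ), 0 < T ∧ (∀ i, E i * dF i = T * (n i + 1)) ∧
      ∀ v, Adm M a v → (T : ℤ) + ∑ i ∈ I, (v i : ℤ) ≤ ∑ i, ((T : ℤ) - E i) * v i := by
  classical
  obtain ⟨Q, hQ⟩ : ∃ Q, Q = ∏ i, dF i := ⟨_, rfl⟩
  have hQ0 : 0 < Q := by
    rw [hQ]
    exact Finset.prod_pos fun i _ => hd i
  have hdvd : ∀ i, dF i ∣ Q := fun i => by
    rw [hQ]
    exact Finset.dvd_prod_of_mem dF (Finset.mem_univ i)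
  choose q hq using hdvd
  have hdq : ∀ i, (0 : ℚ) < dF i := fun i => by exact_mod_cast hd i
  have hQq : (0 : ℚ) < Q := by exact_mod_cast hQ0
  -- the numbers `Q α`
  obtain ⟨β, hβ⟩ : ∃ β : Fin r → ℤ, β = fun i => (q i : ℤ) * ((dF i : ℤ) - n i - 1) := ⟨_, rfl⟩
  have hαβ : ∀ i, ((dF i : ℚ) - n i - 1) / dF i = (β i : ℚ) / Q := by
    intro i
    rw [hβ, div_eq_div_iff (hdq i).ne' hQq.ne']
    have h1 : (Q : ℚ) = dF i * q i := by exact_mod_cast hq i
    rw [h1]
    push_cast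
    ring
  have hsum : ∀ v : Fin r → ℕ, ∑ i, (((dF i : ℚ) - n i - 1) / dF i) * v i =
      ((∑ i, β i * v i : ℤ) : ℚ) / Q := by
    intro v
    push_cast
    rw [Finset.sum_div]
    refine Finset.sum_congr rfl fun i _ => ?_
    rw [hαβ]
    ring
  have hβ1 : ∀ i, 1 ≤ β i := by
    intro i
    have h1 := hpos _ (adm_single hM a i)
    rw [hsum, Finset.sum_eq_single i, Pi.single_eq_same, le_div_iff₀ hQq] at h1
    · by_contra hcon
      have h2 : β i ≤ 0 := by omega
      have h3 : β i * ((∏ j, M j : ℕ) : ℤ) ≤ 0 := mul_nonpos_of_nonpos_of_nonneg h2 (by positivity)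
      have h4 : ((β i * ((∏ j, M j : ℕ) : ℤ) : ℤ) : ℚ) ≤ 0 := by exact_mod_cast h3
      have h5 : (Q : ℚ) ≤ 0 := by
        calc (Q : ℚ) = 1 * Q := (one_mul _).symm
          _ ≤ _ := h1
          _ ≤ 0 := h4
      linarith
    · intro s _ hs
      rw [Pi.single_eq_of_ne hs]
      simp
    · intro h
      exact absurd (Finset.mem_univ _) h
  refine ⟨2 * Q * Q, fun i => 2 * Q * q i * (n i + 1), by positivity, fun i => ?_, fun v hv => ?_⟩
  · have h1 := hq i
    calc 2 * Q * q i * (n i + 1) * dF i = 2 * Q * (dF i * q i) * (n i + 1) := by ring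
      _ = 2 * Q * Q * (n i + 1) := by rw [← h1]
  · have hTE : ∀ i, ((2 * Q * Q : ℕ) : ℤ) - ((2 * Q * q i * (n i + 1) : ℕ) : ℤ) = 2 * Q * β i := by
      intro i
      rw [hβ]
      have h1 : (Q : ℤ) = dF i * q i := by exact_mod_cast hq i
      push_cast
      calc (2 : ℤ) * Q * Q - 2 * Q * q i * (n i + 1) = 2 * Q * (Q - q i * (n i + 1)) := by ring
        _ = 2 * Q * (dF i * q i - q i * (n i + 1)) := by
            congr 2
        _ = _ := by ring
    obtain ⟨B, hB⟩ : ∃ B : ℤ, B = ∑ i, β i * v i := ⟨_, rfl⟩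
    have hB2 : ∑ i, 2 * (Q : ℤ) * β i * v i = 2 * Q * B := by
      rw [hB, Finset.mul_sum]
      exact Finset.sum_congr rfl fun i _ => by ring
    have hsumE : ∑ i, (((2 * Q * Q : ℕ) : ℤ) - ((2 * Q * q i * (n i + 1) : ℕ) : ℤ)) * v i =
        2 * Q * B := by
      rw [← hB2]
      exact Finset.sum_congr rfl fun i _ => by rw [hTE i]
    change _ ≤ ∑ i, (((2 * Q * Q : ℕ) : ℤ) - ((2 * Q * q i * (n i + 1) : ℕ) : ℤ)) * v i
    rw [hsumE]
    have hBQ : (Q : ℤ) ≤ B := by
      have h1 := hpos v hv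
      rw [hsum, ← hB, le_div_iff₀ hQq, one_mul] at h1
      exact_mod_cast h1
    have hvB : ∑ i, (v i : ℤ) ≤ B := by
      rw [hB]
      refine Finset.sum_le_sum fun i _ => ?_
      have h1 := hβ1 i
      nlinarith [Int.natCast_nonneg (v i)]
    have hIB : ∑ i ∈ I, (v i : ℤ) ≤ ∑ i, (v i : ℤ) :=
      Finset.sum_le_univ_sum_of_nonneg fun i => by positivity
    have hQ1 : (1 : ℤ) ≤ Q := by exact_mod_cast hQ0
    by_cases hex : ∃ i ∈ I, v i ≠ 0
    · obtain ⟨i, hi, hvi⟩ := hex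
      have hB1 : (Q : ℤ) + 1 ≤ B := by
        have h1 : B ≠ Q := by
          intro h
          apply hvi
          refine hI i hi v hv ?_
          rw [hsum, ← hB, h]
          exact div_self (by exact_mod_cast hQ0.ne')
        omega
      push_cast
      by_cases h2 : 2 * (Q : ℤ) ≤ B
      · nlinarith
      · nlinarith
    · push Not at hex
      rw [Finset.sum_eq_zero fun i hi => by rw [hex i hi]; rfl]
      push_cast
      nlinarith

end arith

variable {K : Type} [Field K] [Algebra ℂ K] {r N R : ℕ} {n : Fin r → ℕ}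
  (e : ((i : Fin r) × Fin (n i)) ≃ Fin N)

/-- **The Kodaira dimension.** -/
theorem kod_ge (hn : ∀ i, 1 ≤ n i) {x : ∀ i, Fin (n i + 1) → K} (hx : ∀ i j, x i j ≠ 0)
    (hbas : IsTranscendenceBasis ℂ (uu e x)) {F : ∀ i, MvPolynomial (Fin (n i + 1)) ℂ}
    {dF : Fin r → ℕ} (hdF : ∀ i, 1 ≤ dF i) (hs : ∀ i, SmF (F i))
    (hh : ∀ i, (F i).IsHomogeneous (dF i)) (hFx : ∀ i, aeval (x i) (F i) ≠ 0) {z : Fin R → K}
    {M : Fin R → ℕ} (hM : ∀ j, 0 < M j) {a : Fin R → Fin r → ℕ} (hz0 : ∀ j, z j ≠ 0)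
    (hz : ∀ j, z j ^ M j = ∏ i, (aeval (x i) (F i) / x i 0 ^ dF i) ^ a j i)
    (hdiv : ∀ j i, M j ∣ a j i * dF i)
    (hpos : ∀ v, Adm M a v → 1 ≤ ∑ i, (((dF i : ℚ) - n i - 1) / dF i) * v i)
    (I : Finset (Fin r)) (hI : ∀ i ∈ I, ∀ v, Adm M a v →
      ∑ s, (((dF s : ℚ) - n s - 1) / dF s) * v s = 1 → v i = 0)
    (h : ℕ) (f : Fin h → Fin N) (hf : Function.Injective f) (hfI : ∀ b, (e.symm (f b)).1 ∈ I) :
    ∃ T : ℕ, 0 < T ∧ ∃ ω : Fin (h + 1) → (Fin N → Derivation ℂ K K) → K,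
      (∀ b, IsPluri T (ω b) ∧ ∀ P : Place ℂ K, ∀ D : Fin N → Derivation ℂ K K,
        (∀ c, DerReg P (D c)) → P.Reg (ω b D)) ∧
      ∃ D, ω 0 D ≠ 0 ∧ AlgebraicIndependent ℂ (fun b : Fin h => ω b.succ D / ω 0 D) := by
  classical
  obtain ⟨T, E, hT, hE, hkey⟩ := arith_key hM a n dF hdF hpos I hI
  obtain ⟨D0, hD0⟩ := exists_om_ne e (fun i => hx i 0) hbas
  obtain ⟨L, hL⟩ : ∃ L : Fin r → K, L = fun i => aeval (x i) (F i) / x i 0 ^ (dF i - 1) := ⟨_, rfl⟩
  have hLne : ∀ i, L i ≠ 0 := fun i => by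
    rw [hL]
    exact div_ne_zero (hFx i) (pow_ne_zero _ (hx i 0))
  let den : K := ∏ i, aeval (x i) (F i) ^ E i
  have hden : den ≠ 0 := Finset.prod_ne_zero_iff.2 fun i _ => pow_ne_zero _ (hFx i)
  let Fb : Fin (h + 1) → Fin (N + 1) := Fin.cases 0 fun b => (f b).succ
  refine ⟨T, hT, fun b D => om e D x ^ T / den * ∏ i ∈ I, x i (pick e (Fb b) i) / L i,
    fun b => ⟨?_, fun P D hD => ?_⟩, D0, ?_, ?_⟩
  · intro A D
    dsimp only
    rw [om_lin, mul_pow]
    ring
  · -- the multiplicities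
    have hmin : ∀ i, ∃ j : Fin (n i + 1), ∀ l, P.ord (x i j) ≤ P.ord (x i l) := by
      intro i
      obtain ⟨j, -, hj⟩ := Finset.exists_min_image Finset.univ (fun l => P.ord (x i l))
        ⟨(0 : Fin (n i + 1)), Finset.mem_univ _⟩
      exact ⟨j, fun l => hj l (Finset.mem_univ l)⟩
    choose j hj using hmin
    obtain ⟨α, hα⟩ : ∃ α : Fin r → ℤ, α = fun i => P.ord (x i (j i)) := ⟨_, rfl⟩
    have hα1 : ∀ i l, α i ≤ P.ord (x i l) := fun i l => by
      rw [hα]
      exact hj i l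
    have hv : ∀ i, ∃ v : ℕ, P.ord (aeval (x i) (F i)) = dF i * α i + v := by
      intro i
      have h1 : aeval (x i) (F i) = x i (j i) ^ dF i *
          aeval (fun l => x i l / x i (j i)) (F i) := by
        rw [← aeval_smul_form (hh i)]
        congr 2
        funext l
        rw [mul_div_cancel₀ _ (hx i _)]
      have h2 : aeval (fun l => x i l / x i (j i)) (F i) ≠ 0 := by
        intro h0
        rw [h0, mul_zero] at h1
        exact hFx i h1
      have h3 : P.Reg (aeval (fun l => x i l / x i (j i)) (F i)) := by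
        refine reg_aeval (fun l => Or.inr ?_) _
        rw [P.ord_div (hx i l) (hx i _)]
        linarith [hj i l]
      have h4 := h3.resolve_left h2
      refine ⟨(P.ord (aeval (fun l => x i l / x i (j i)) (F i))).toNat, ?_⟩
      rw [Int.toNat_of_nonneg h4, h1, P.ord_mul (pow_ne_zero _ (hx i _)) h2, P.ord_pow, hα]
    choose v hv using hv
    have hom := om_ord e hn P D hD hx hbas hs hh hFx α hα1 j (fun i => by rw [hα]) v hv
    -- the divisibility
    have hT' : ∀ j, M j ∣ ∑ i, a j i * v i := by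
      intro c
      have h1 := congrArg P.ord (hz c)
      rw [P.ord_pow, ord_prod' P Finset.univ _ fun i _ => pow_ne_zero _
        (div_ne_zero (hFx i) (pow_ne_zero _ (hx i 0)))] at h1
      have h2 : ∀ i, P.ord ((aeval (x i) (F i) / x i 0 ^ dF i) ^ a c i) =
          (a c i * dF i : ℕ) * (α i - P.ord (x i 0)) + ((a c i * v i : ℕ) : ℤ) := by
        intro i
        rw [P.ord_pow, P.ord_div (hFx i) (pow_ne_zero _ (hx i 0)), P.ord_pow, hv]
        push_cast
        ring
      rw [Finset.sum_congr rfl fun i _ => h2 i, Finset.sum_add_distrib] at h1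
      have h3 : (M c : ℤ) ∣ ∑ i, ((a c i * dF i : ℕ) : ℤ) * (α i - P.ord (x i 0)) :=
        Finset.dvd_sum fun i _ => Dvd.dvd.mul_right (by exact_mod_cast hdiv c i) _
      have h4 : (M c : ℤ) ∣ ∑ i, ((a c i * v i : ℕ) : ℤ) := by
        have h5 : ∑ i, ((a c i * v i : ℕ) : ℤ) = M c * P.ord (z c) -
            ∑ i, ((a c i * dF i : ℕ) : ℤ) * (α i - P.ord (x i 0)) := by
          rw [h1]
          ring
        rw [h5]
        exact dvd_sub (dvd_mul_right _ _) h3
      exact_mod_cast h4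
    -- the order
    have hge1 : Ge P (T * (∑ i, ((n i : ℤ) + 1) * α i + ∑ i, (v i : ℤ) -
        (if v = 0 then 0 else 1)) - ∑ i, (E i : ℤ) * (dF i * α i + v i)) (om e D x ^ T / den) := by
      have h1 := ge_div hden (hom.pow T)
      refine h1.mono (le_of_eq ?_)
      simp only [den]
      rw [ord_prod' P Finset.univ _ fun i _ => pow_ne_zero _ (hFx i)]
      congr 1
      exact Finset.sum_congr rfl fun i _ => by rw [P.ord_pow, hv]
    have hge2 : Ge P (-(∑ i ∈ I, (v i : ℤ))) (∏ i ∈ I, x i (pick e (Fb b) i) / L i) := by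
      rw [← Finset.sum_neg_distrib]
      refine Ge.prod I _ _ fun i _ => ?_
      right
      rw [P.ord_div (hx i _) (hLne i), hL]
      dsimp only
      rw [P.ord_div (hFx i) (pow_ne_zero _ (hx i 0)), P.ord_pow, hv]
      have h1 := hα1 i (pick e (Fb b) i)
      have h2 := hα1 i 0
      have h3 : ((dF i - 1 : ℕ) : ℤ) = dF i - 1 := by
        have := hdF i
        omega
      rw [h3]
      have h4 : (0 : ℤ) ≤ (dF i : ℤ) - 1 := by
        have := hdF i
        omega
      nlinarith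
    have h1 : T * (∑ i, ((n i : ℤ) + 1) * α i) = ∑ i, (E i : ℤ) * (dF i * α i) := by
      rw [Finset.mul_sum]
      refine Finset.sum_congr rfl fun i _ => ?_
      have h2 : (E i : ℤ) * dF i = T * (n i + 1) := by exact_mod_cast hE i
      calc (T : ℤ) * (((n i : ℤ) + 1) * α i) = (T * (n i + 1)) * α i := by ring
        _ = (E i * dF i) * α i := by rw [h2]
        _ = _ := by ring
    have h2 : ∑ i, (E i : ℤ) * (dF i * α i + v i) =
        ∑ i, (E i : ℤ) * (dF i * α i) + ∑ i, (E i : ℤ) * v i := by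
      rw [← Finset.sum_add_distrib]
      exact Finset.sum_congr rfl fun i _ => by ring
    have h3 : ∑ i, ((T : ℤ) - E i) * v i = T * ∑ i, (v i : ℤ) - ∑ i, (E i : ℤ) * v i := by
      rw [Finset.mul_sum, ← Finset.sum_sub_distrib]
      exact Finset.sum_congr rfl fun i _ => by ring
    refine (hge1.mul hge2).mono ?_
    rw [h2]
    by_cases hv0 : v = 0
    · rw [if_pos hv0, hv0]
      simp only [Pi.zero_apply, Nat.cast_zero, Finset.sum_const_zero, mul_zero, add_zero, sub_zero,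
        neg_zero]
      rw [h1]
      simp
    · rw [if_neg hv0]
      have h4 := hkey v ⟨hv0, hT'⟩
      rw [h3] at h4
      have h5 : (T : ℤ) * (∑ i, ((n i : ℤ) + 1) * α i + ∑ i, (v i : ℤ) - 1) =
          ∑ i, (E i : ℤ) * (dF i * α i) + T * ∑ i, (v i : ℤ) - T := by
        rw [← h1]
        ring
      rw [h5]
      linarith
  · change om e D0 x ^ T / den * ∏ i ∈ I, x i (pick e 0 i) / L i ≠ 0
    exact mul_ne_zero (div_ne_zero (pow_ne_zero _ hD0) hden)
      (Finset.prod_ne_zero_iff.2 fun i _ => div_ne_zero (hx i _) (hLne i))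
  · have hpf : om e D0 x ^ T / den ≠ 0 := div_ne_zero (pow_ne_zero _ hD0) hden
    have e1 : (fun b : Fin h => om e D0 x ^ T / den * (∏ i ∈ I, x i (pick e (f b).succ i) / L i) /
        (om e D0 x ^ T / den * ∏ i ∈ I, x i (pick e 0 i) / L i)) = uu e x ∘ f := by
      funext b
      rw [mul_div_mul_left _ _ hpf, pick_ratioI e (fun i => hx i 0) hLne I _ (hfI b)]
      rfl
    change AlgebraicIndependent ℂ (fun b : Fin h =>
      om e D0 x ^ T / den * (∏ i ∈ I, x i (pick e (f b).succ i) / L i) /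
        (om e D0 x ^ T / den * ∏ i ∈ I, x i (pick e 0 i) / L i))
    rw [e1]
    exact hbas.1.comp f hf

end Pool.Agent.Y169.CH
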