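import Pool.Agent.Y169.CH.Mono
import Pool.Agent.Y169.CH.Exp

/-!
The places over the monomial places: the pivot variables are unramified.
-/

set_option autoImplicit false
set_option linter.overlappingInstances false
set_option linter.unusedSectionVars false

open FF MvPolynomial Pool.Agent.W603.LV Pool.Agent.W619.PQ Pool.Agent.TH122.AB

namespace Pool.Agent.Y169.CH

section

variable {k K : Type} [Field k] [Field K] [Algebra k K] {d r : ℕ}

/-- the chain rule -/
theorem chain (D : Derivation k K K) (Z : Fin d → K) (P : MvPolynomial (Fin d) k) :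
    D (aeval Z P) = ∑ b, aeval Z (pderiv b P) * D (Z b) := by
  classical
  induction P using MvPolynomial.induction_on with
  | C a => simp
  | add p q hp hq =>
    simp only [map_add, add_mul, Finset.sum_add_distrib, hp, hq]
  | mul_X p i hp =>
    have h1 : ∀ b, aeval Z (pderiv b (p * X i)) * D (Z b) =
        (if b = i then aeval Z p * D (Z b) else 0) + Z i * (aeval Z (pderiv b p) * D (Z b)) := by
      intro b
      rw [(pderiv b).leibniz, smul_eq_mul, smul_eq_mul, map_add, map_mul, map_mul, aeval_X,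
        pderiv_X, add_mul]
      congr 1
      · by_cases hb : b = i
        · subst hb
          simp
        · rw [if_neg hb, Pi.single_eq_of_ne (Ne.symm hb)]
          simp
      · ring
    rw [map_mul, aeval_X, D.leibniz, hp, Finset.sum_congr rfl fun b _ => h1 b,
      Finset.sum_add_distrib, Finset.sum_ite_eq' Finset.univ i, if_pos (Finset.mem_univ _),
      ← Finset.mul_sum, smul_eq_mul, smul_eq_mul]

theorem reg_aeval {w : Place k K} {Z : Fin d → K} (hZ : ∀ b, w.Reg (Z b))
    (P : MvPolynomial (Fin d) k) : w.Reg (aeval Z P) := by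
  induction P using MvPolynomial.induction_on with
  | C a =>
    rw [aeval_C]
    exact w.reg_const a
  | add p q hp hq => rw [map_add]; exact w.reg_add hp hq
  | mul_X p i hp => rw [map_mul, aeval_X]; exact w.reg_mul hp (hZ i)

/-- the second order Taylor expansion in one variable -/
theorem taylor {w : Place k K} {Z : Fin d → K} (hZ : ∀ b, w.Reg (Z b)) (c : Fin d) {h : K}
    (hh : w.Reg h) (P : MvPolynomial (Fin d) k) :
    ∃ G : K, w.Reg G ∧ aeval (Function.update Z c (Z c + h)) P =
      aeval Z P + h * aeval Z (pderiv c P) + h * h * G := by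
  classical
  induction P using MvPolynomial.induction_on with
  | C a => exact ⟨0, w.reg_zero, by simp⟩
  | add p q hp hq =>
    obtain ⟨G1, hG1, h1⟩ := hp
    obtain ⟨G2, hG2, h2⟩ := hq
    refine ⟨G1 + G2, w.reg_add hG1 hG2, ?_⟩
    simp only [map_add, h1, h2]
    ring
  | mul_X p i hp =>
    obtain ⟨G1, hG1, h1⟩ := hp
    by_cases hi : i = c
    · subst hi
      refine ⟨G1 * Z i + aeval Z (pderiv i p) + h * G1, ?_, ?_⟩
      · exact w.reg_add (w.reg_add (w.reg_mul hG1 (hZ i)) (reg_aeval hZ _)) (w.reg_mul hh hG1)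
      · rw [map_mul, aeval_X, Function.update_self, h1, map_mul, aeval_X, (pderiv i).leibniz,
          smul_eq_mul, smul_eq_mul, pderiv_X_self, map_add, map_mul, map_mul, aeval_X, map_one]
        ring
    · refine ⟨G1 * Z i, w.reg_mul hG1 (hZ i), ?_⟩
      rw [map_mul, aeval_X, Function.update_of_ne hi, h1, map_mul, aeval_X, (pderiv c).leibniz,
        smul_eq_mul, smul_eq_mul, pderiv_X_of_ne hi, mul_zero, zero_add, map_mul, aeval_X]
      ring

/-- a polynomial identity which makes the affine hypersurfaces smooth -/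
def Smo (Φ : Blk k d r) : Prop := ∀ t, ∃ (A : MvPolynomial (Fin d) k)
  (A' : Fin d → MvPolynomial (Fin d) k), A * Φ.F t + ∑ b, A' b * pderiv b (Φ.F t) = 1

theorem pderiv_other (Φ : Blk k d r) {t : Fin r} {b : Fin d} (hb : Φ.τ b ≠ t) :
    pderiv b (Φ.F t) = 0 := by
  classical
  ext m
  rw [coeff_pderiv, coeff_zero]
  by_contra hne
  have h1 : m + Finsupp.single b 1 ∈ (Φ.F t).support := mem_support_iff.2 (left_ne_zero_of_mul hne)
  have h2 := Φ.hF1 t _ h1 b hb
  rw [Finsupp.add_apply, Finsupp.single_eq_same] at h2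
  omega

/-- **The pivot variables are fixed by the inertia groups.** -/
theorem root_fix (Φ : Blk k d r) {w : Place k K} {Z : Fin d → K} (hZ : ∀ b, w.Reg (Z b))
    {t : Fin r} (hu0 : aeval Z (pderiv (Φ.c t) (Φ.F t)) ≠ 0)
    (hu : w.ord (aeval Z (pderiv (Φ.c t) (Φ.F t))) = 0) {σ : K ≃ₐ[k] K} (hσ : Inert w σ)
    (h1 : ∀ b, b ≠ Φ.c (Φ.τ b) → σ (Z b) = Z b)
    (h2 : σ (aeval Z (Φ.F t)) = aeval Z (Φ.F t)) : σ (Z (Φ.c t)) = Z (Φ.c t) := by
  classical
  obtain ⟨h, hh⟩ : ∃ h, h = σ (Z (Φ.c t)) - Z (Φ.c t) := ⟨_, rfl⟩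
  have hge : Ge w 1 h := by
    rw [hh]
    exact hσ _ (hZ _)
  obtain ⟨G, hG, hT⟩ := taylor hZ (Φ.c t) (h := h) (hge.mono (by omega)) (Φ.F t)
  have h3 : aeval (Function.update Z (Φ.c t) (Z (Φ.c t) + h)) (Φ.F t) = aeval Z (Φ.F t) := by
    rw [← h2]
    have h4 : σ (aeval Z (Φ.F t)) = aeval (fun b => σ (Z b)) (Φ.F t) := by
      have := MvPolynomial.comp_aeval_apply (R := k) Z (σ : K →ₐ[k] K) (Φ.F t)
      exact this
    rw [h4]
    refine MvPolynomial.eval₂Hom_congr' rfl (fun b hb _ => ?_) rfl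
    rw [mem_vars_iff_mem_support] at hb
    obtain ⟨m, hm, hmb⟩ := hb
    have hbt : Φ.τ b = t := by
      by_contra hne
      exact (Finsupp.mem_support_iff.1 hmb) (Φ.hF1 t m hm b hne)
    by_cases hbc : b = Φ.c t
    · subst hbc
      rw [Function.update_self, hh]
      ring
    · rw [Function.update_of_ne hbc, h1 b (by rw [hbt]; exact hbc)]
  rw [h3] at hT
  have h5 : h * (aeval Z (pderiv (Φ.c t) (Φ.F t)) + h * G) = 0 := by
    have h6 : h * (aeval Z (pderiv (Φ.c t) (Φ.F t)) + h * G) =
        (aeval Z (Φ.F t) + h * aeval Z (pderiv (Φ.c t) (Φ.F t)) + h * h * G) -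
          aeval Z (Φ.F t) := by ring
    rw [h6, ← hT, sub_self]
  rcases mul_eq_zero.1 h5 with h6 | h6
  · rw [hh] at h6
    exact sub_eq_zero.1 h6
  · exfalso
    have h7 : aeval Z (pderiv (Φ.c t) (Φ.F t)) = - (h * G) := eq_neg_of_add_eq_zero_left h6
    have h8 : Ge w 1 (aeval Z (pderiv (Φ.c t) (Φ.F t))) := by
      rw [h7]
      have h9 := hge.mul (show Ge w 0 G from hG)
      exact (h9.mono (by omega)).neg
    rcases h8 with h8 | h8
    · exact hu0 h8
    · omega

end

section

variable {k : Type} [Field k] [CharZero k] {K0 K : Type} [Field K0] [Field K] [Algebra k K0]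
  [Algebra k K] [Algebra K0 K] [IsScalarTower k K0 K] [FiniteDimensional K0 K] {d r : ℕ}

/-- **The derivatives with respect to the pivot variables are units.** -/
theorem unit_pivot (Φ : Blk k d r) (hΦ : Smo Φ) {Y : Fin d → K0} (hY : Gens (k := k) Y)
    {Z : Fin d → K} (hYZ : ∀ b, algebraMap K0 K (Y b) = aeval Z (Φ.yp b)) (lam : Fin d → ℕ)
    (hlam : ∀ b, b ≠ Φ.c (Φ.τ b) → lam b = 0) {v : Place k K0}
    (hv : ∀ P : MvPolynomial (Fin d) k, P ≠ 0 → v.ord (aeval Y P) = mord lam P)
    {w : Place k K} {e : ℕ} (h : Over w v e) {D : Fin d → Derivation k K K}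
    (hD : ∀ i j, D i (algebraMap K0 K (Y j)) = if i = j then 1 else 0) (hZ : ∀ b, w.Reg (Z b))
    (t : Fin r) : aeval Z (pderiv (Φ.c t) (Φ.F t)) ≠ 0 ∧
      w.ord (aeval Z (pderiv (Φ.c t) (Φ.F t))) = 0 := by
  classical
  have hZn : ∀ b, b ≠ Φ.c (Φ.τ b) → Z b = algebraMap K0 K (Y b) := by
    intro b hb
    rw [hYZ, Φ.yp_ne hb, aeval_X]
  have hFY : aeval Z (Φ.F t) = algebraMap K0 K (Y (Φ.c t)) := by rw [hYZ, Φ.yp_c]
  -- the derivatives
  have hder : ∀ i, D i (aeval Z (Φ.F t)) =
      (if i ≠ Φ.c t ∧ Φ.τ i = t then aeval Z (pderiv i (Φ.F t)) else 0) +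
        aeval Z (pderiv (Φ.c t) (Φ.F t)) * D i (Z (Φ.c t)) := by
    intro i
    rw [chain, ← Finset.sum_erase_add _ _ (Finset.mem_univ (Φ.c t))]
    congr 1
    have h1 : ∀ b ∈ Finset.univ.erase (Φ.c t), aeval Z (pderiv b (Φ.F t)) * D i (Z b) =
        if b = i then (if i ≠ Φ.c t ∧ Φ.τ i = t then aeval Z (pderiv i (Φ.F t)) else 0) else 0 := by
      intro b hb
      have hbc := Finset.ne_of_mem_erase hb
      by_cases hbt : Φ.τ b = t
      · have hbn : b ≠ Φ.c (Φ.τ b) := by rw [hbt]; exact hbc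
        rw [hZn b hbn, hD]
        by_cases hbi : b = i
        · subst hbi
          rw [if_pos rfl, if_pos rfl, if_pos ⟨hbc, hbt⟩, mul_one]
        · rw [if_neg (Ne.symm hbi), if_neg hbi, mul_zero]
      · rw [pderiv_other Φ hbt, map_zero, zero_mul]
        by_cases hbi : b = i
        · subst hbi
          rw [if_pos rfl, if_neg fun h => hbt h.2]
        · rw [if_neg hbi]
    rw [Finset.sum_congr rfl h1]
    by_cases hic : i = Φ.c t
    · rw [if_neg fun h => h.1 hic]
      refine Finset.sum_eq_zero fun b _ => ?_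
      split_ifs <;> rfl
    · rw [Finset.sum_ite_eq' (Finset.univ.erase (Φ.c t)) i,
        if_pos (Finset.mem_erase.2 ⟨hic, Finset.mem_univ _⟩)]
  have hlog : ∀ i, lam i = 0 → ∀ z : K, w.Reg z → w.Reg (D i z) := by
    intro i hi z hz
    have h1 := log_mono hY lam hv h (hD i) z
    rw [if_pos hi, one_smul] at h1
    by_cases hz0 : z = 0
    · rw [hz0, map_zero]
      exact w.reg_zero
    · have h2 : D i z = D i z / z * z := by rw [div_mul_cancel₀ _ hz0]
      rw [h2]
      exact w.reg_mul h1 hz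
  have hGreg : ∀ b, w.Reg (aeval Z (pderiv b (Φ.F t))) := fun b => reg_aeval hZ _
  by_cases hl : lam (Φ.c t) = 0
  · have h1 := hder (Φ.c t)
    rw [if_neg fun h => h.1 rfl, zero_add, hFY, hD, if_pos rfl] at h1
    have hne := left_ne_zero_of_mul (h1 ▸ one_ne_zero :
      aeval Z (pderiv (Φ.c t) (Φ.F t)) * D (Φ.c t) (Z (Φ.c t)) ≠ 0)
    have hne' := right_ne_zero_of_mul (h1 ▸ one_ne_zero :
      aeval Z (pderiv (Φ.c t) (Φ.F t)) * D (Φ.c t) (Z (Φ.c t)) ≠ 0)
    have h2 := congrArg w.ord h1
    rw [w.ord_one, w.ord_mul hne hne'] at h2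
    have h3 := (hGreg (Φ.c t)).resolve_left hne
    have h4 := (hlog _ hl _ (hZ (Φ.c t))).resolve_left hne'
    exact ⟨hne, by omega⟩
  · by_cases hge : Ge w 1 (aeval Z (pderiv (Φ.c t) (Φ.F t)))
    · exfalso
      have h1 : ∀ b, Ge w 1 (aeval Z (pderiv b (Φ.F t))) := by
        intro b
        by_cases hbc : b = Φ.c t
        · rw [hbc]
          exact hge
        by_cases hbt : Φ.τ b = t
        · have h1 := hder b
          rw [if_pos ⟨hbc, hbt⟩, hFY, hD, if_neg hbc] at h1
          have h2 : aeval Z (pderiv b (Φ.F t)) =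
              - (aeval Z (pderiv (Φ.c t) (Φ.F t)) * D b (Z (Φ.c t))) :=
            eq_neg_of_add_eq_zero_left h1.symm
          rw [h2]
          have h3 : Ge w 0 (D b (Z (Φ.c t))) :=
            hlog b (hlam b (by rw [hbt]; exact hbc)) _ (hZ _)
          exact ((hge.mul h3).mono (by omega)).neg
        · rw [pderiv_other Φ hbt, map_zero]
          exact Or.inl rfl
      obtain ⟨A, A', hA⟩ := hΦ t
      have h2 : Ge w 1 (aeval Z (Φ.F t)) := by
        rw [hFY]
        right
        have h3 := hv (MvPolynomial.X (Φ.c t)) (X_ne_zero _)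
        rw [aeval_X] at h3
        have h5 : (MvPolynomial.X (Φ.c t) : MvPolynomial (Fin d) k) =
          monomial (Finsupp.single (Φ.c t) 1) 1 := rfl
        rw [h.2, h3, h5, mord_monomial]
        have h6 : wt lam (Finsupp.single (Φ.c t) 1) = lam (Φ.c t) := by
          unfold wt
          rw [Finset.sum_eq_single (Φ.c t)]
          · simp
          · intro c _ hc
            rw [Finsupp.single_apply, if_neg (Ne.symm hc), mul_zero]
          · intro h
            exact absurd (Finset.mem_univ _) h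
        rw [h6]
        have he := h.1
        have h7 : 1 ≤ e * lam (Φ.c t) := Nat.one_le_iff_ne_zero.2
          (mul_ne_zero (by omega) hl)
        exact_mod_cast h7
      have h3 : Ge w 1 (1 : K) := by
        have h4 := congrArg (aeval Z) hA
        rw [map_one, map_add, map_mul, map_sum] at h4
        rw [← h4]
        refine Ge.add ?_ (Ge.sum _ _ fun b _ => ?_)
        · have h5 := (show Ge w 0 (aeval Z A) from reg_aeval hZ A).mul h2
          exact h5.mono (by omega)
        · rw [map_mul]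
          have h5 := (show Ge w 0 (aeval Z (A' b)) from reg_aeval hZ _).mul (h1 b)
          exact h5.mono (by omega)
      rcases h3 with h3 | h3
      · exact one_ne_zero h3
      · rw [w.ord_one] at h3
        omega
    · unfold Ge at hge
      push Not at hge
      have h3 := (hGreg (Φ.c t)).resolve_left hge.1
      exact ⟨hge.1, by omega⟩

end

end Pool.Agent.Y169.CH
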