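import Pool.Agent.TH756.PR.Chg
import Pool.Agent.Y169.CH.Tst
import Mathlib.RingTheory.MvPolynomial.EulerIdentity
import Mathlib.RingTheory.Nullstellensatz
import Mathlib.LinearAlgebra.Matrix.Permutation

/-!
The order of the canonical form of a product of projective spaces at a place, in terms of the
multiplicities of smooth hypersurfaces.
-/

set_option autoImplicit false
set_option linter.overlappingInstances false
set_option linter.unusedSectionVars false

open FF MvPolynomial Pool.Agent.W603.LV Pool.Agent.W602.GT Pool.Agent.W602.Cov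
open Pool.Agent.TH756.PR Pool.Agent.TH122.AB

namespace Pool.Agent.Y169.CH

/-- the form `F` has no singular zeros -/
def SmF {m : ℕ} (F : MvPolynomial (Fin m) ℂ) : Prop :=
  ∀ x : Fin m → ℂ, x ≠ 0 → ∃ l, eval x (pderiv l F) ≠ 0

theorem null_cert {m : ℕ} {F : MvPolynomial (Fin m) ℂ} (hs : SmF F) (j : Fin m) :
    ∃ (M : ℕ) (A : Fin m → MvPolynomial (Fin m) ℂ), X j ^ M = ∑ l, A l * pderiv l F := by
  classical
  obtain ⟨I, hI⟩ : ∃ I : Ideal (MvPolynomial (Fin m) ℂ),
    I = Ideal.span (Set.range fun l => pderiv l F) := ⟨_, rfl⟩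
  have h1 : (X j : MvPolynomial (Fin m) ℂ) ∈ vanishingIdeal ℂ (zeroLocus ℂ I) := by
    rw [mem_vanishingIdeal_iff]
    intro x hx
    have hx0 : x = 0 := by
      by_contra hne
      obtain ⟨l, hl⟩ := hs x hne
      apply hl
      rw [mem_zeroLocus_iff] at hx
      have h2 := hx (pderiv l F) (by rw [hI]; exact Ideal.subset_span ⟨l, rfl⟩)
      exact h2
    rw [hx0, aeval_X]
    rfl
  rw [vanishingIdeal_zeroLocus_eq_radical] at h1
  obtain ⟨M, hM⟩ := h1
  rw [hI, Ideal.mem_span_range_iff_exists_fun] at hM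
  obtain ⟨A, hA⟩ := hM
  exact ⟨M, A, hA.symm⟩

section

variable {K : Type} [Field K] [Algebra ℂ K]

theorem exists_unit (P : Place ℂ K) {m dF : ℕ} {F : MvPolynomial (Fin m) ℂ} (hs : SmF F)
    (hh : F.IsHomogeneous dF) {y : Fin m → K} (hy : ∀ l, P.Reg (y l)) {j : Fin m} (hj : y j = 1)
    (hF : Ge P 1 (aeval y F)) : ∃ l, l ≠ j ∧ aeval y (pderiv l F) ≠ 0 ∧
      P.ord (aeval y (pderiv l F)) = 0 := by
  classical
  by_contra hcon
  push Not at hcon
  have h1 : ∀ l, l ≠ j → Ge P 1 (aeval y (pderiv l F)) := by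
    intro l hl
    by_cases h0 : aeval y (pderiv l F) = 0
    · exact Or.inl h0
    · right
      have h2 := hcon l hl h0
      have h3 := (reg_aeval hy (pderiv l F)).resolve_left h0
      omega
  have h2 : Ge P 1 (aeval y (pderiv j F)) := by
    have h3 := congrArg (aeval y) hh.sum_X_mul_pderiv
    rw [map_sum, ← Finset.add_sum_erase _ _ (Finset.mem_univ j), map_mul, aeval_X, hj, one_mul,
      map_nsmul, nsmul_eq_mul] at h3
    have h4 : aeval y (pderiv j F) = (dF : K) * aeval y F -
        ∑ l ∈ Finset.univ.erase j, aeval y (X l * pderiv l F) := by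
      rw [← h3]
      ring
    rw [h4]
    refine Ge.sub ?_ (Ge.sum _ _ fun l hl => ?_)
    · have h5 := (Ge.const (P := P) (dF : ℂ)).mul hF
      simpa using h5
    · rw [map_mul, aeval_X]
      have h5 := (show Ge P 0 (y l) from hy l).mul (h1 l (Finset.ne_of_mem_erase hl))
      simpa using h5
  have h3 : ∀ l, Ge P 1 (aeval y (pderiv l F)) := by
    intro l
    by_cases hl : l = j
    · rw [hl]
      exact h2
    · exact h1 l hl
  obtain ⟨M, A, hA⟩ := null_cert hs j
  have h4 : Ge P 1 (1 : K) := by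
    have h5 := congrArg (aeval y) hA
    rw [map_pow, aeval_X, hj, one_pow, map_sum] at h5
    rw [h5]
    refine Ge.sum _ _ fun l _ => ?_
    rw [map_mul]
    have h6 := (show Ge P 0 (aeval y (A l)) from reg_aeval hy (A l)).mul (h3 l)
    simpa using h6
  rcases h4 with h4 | h4
  · exact one_ne_zero h4
  · rw [P.ord_one] at h4
    omega

/-- the value of a form at a multiple of a vector -/
theorem aeval_smul_form {m dF : ℕ} {F : MvPolynomial (Fin m) ℂ} (hh : F.IsHomogeneous dF) (c : K)
    (y : Fin m → K) : aeval (fun l => c * y l) F = c ^ dF * aeval y F := by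
  classical
  rw [aeval_def, eval₂_eq', aeval_def, eval₂_eq', Finset.mul_sum]
  refine Finset.sum_congr rfl fun a ha => ?_
  have h1 : ∑ i, a i = dF := by
    have h2 := hh (mem_support_iff.1 ha)
    rw [← h2, Finsupp.weight_apply, Finsupp.sum_fintype _ _ fun i => by simp]
    simp
  simp only [mul_pow, Finset.prod_mul_distrib]
  rw [Finset.prod_pow_eq_pow_sum, h1]
  ring

end

end Pool.Agent.Y169.CH
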