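import Pool.Agent.Y169.CH.Low

/-!
The order of the canonical form of a product of projective spaces at a place, in terms of the
multiplicities of smooth hypersurfaces.
-/

set_option autoImplicit false
set_option linter.overlappingInstances false
set_option linter.unusedSectionVars false

open FF MvPolynomial Pool.Agent.W603.LV Pool.Agent.W602.GT Pool.Agent.W602.Cov
open Pool.Agent.TH756.PR Pool.Agent.TH122.AB

namespace Pool.Agent.Y169.CH

variable {K : Type} [Field K] [Algebra ℂ K] {r N : ℕ} {n : Fin r → ℕ}
  (e : ((i : Fin r) × Fin (n i)) ≃ Fin N)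

/-- **The order of the canonical form.** -/
theorem om_ord (hn : ∀ i, 1 ≤ n i) (P : Place ℂ K) (D : Fin N → Derivation ℂ K K)
    (hD : ∀ a, DerReg P (D a)) {x : ∀ i, Fin (n i + 1) → K} (hx : ∀ i j, x i j ≠ 0)
    (hbas : IsTranscendenceBasis ℂ (uu e x)) {F : ∀ i, MvPolynomial (Fin (n i + 1)) ℂ}
    {dF : Fin r → ℕ} (hs : ∀ i, SmF (F i)) (hh : ∀ i, (F i).IsHomogeneous (dF i))
    (hFx : ∀ i, aeval (x i) (F i) ≠ 0) (a : Fin r → ℤ) (ha1 : ∀ i j, a i ≤ P.ord (x i j))
    (j : ∀ i, Fin (n i + 1)) (ha2 : ∀ i, P.ord (x i (j i)) = a i) (v : Fin r → ℕ)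
    (hv : ∀ i, P.ord (aeval (x i) (F i)) = dF i * a i + v i) :
    Ge P (∑ i, ((n i : ℤ) + 1) * a i + ∑ i, (v i : ℤ) - (if v = 0 then 0 else 1)) (om e D x) := by
  classical
  -- the chart
  let σ : ∀ i, Equiv.Perm (Fin (n i + 1)) := fun i => Equiv.swap 0 (j i)
  have hσ0 : ∀ i, σ i 0 = j i := fun i => Equiv.swap_apply_left _ _
  have hσσ : ∀ i l, σ i (σ i l) = l := fun i l => Equiv.swap_apply_self _ _ _
  let c : ∀ i, Matrix (Fin (n i + 1)) (Fin (n i + 1)) ℂ := fun i => (σ i).permMatrix ℂ
  have hchg : chg c x = fun i l => x i (σ i l) := by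
    funext i l
    unfold chg
    rw [Finset.sum_eq_single (σ i l)]
    · simp [c, Equiv.Perm.permMatrix, PEquiv.toMatrix_apply, Equiv.toPEquiv_apply]
    · intro m _ hm
      have h1 : c i l m = 0 := by
        simp only [c, Equiv.Perm.permMatrix, PEquiv.toMatrix_apply, Equiv.toPEquiv_apply,
          Option.mem_def, Option.some.injEq]
        rw [if_neg (Ne.symm hm)]
      rw [h1, map_zero, zero_mul]
    · intro h
      exact absurd (Finset.mem_univ _) h
  have hchange := om_change e (fun i => hx i 0) hbas c (fun i => by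
    rw [hchg]
    exact hx i _) D
  rw [hchg] at hchange
  obtain ⟨x', hx'⟩ : ∃ x' : ∀ i, Fin (n i + 1) → K, x' = fun i l => x i (σ i l) := ⟨_, rfl⟩
  rw [← hx'] at hchange
  have hdet0 : (∏ i, (c i).det) ≠ 0 := by
    refine Finset.prod_ne_zero_iff.2 fun i _ => ?_
    simp only [c]
    rw [Matrix.det_permutation]
    rcases Int.units_eq_one_or (Equiv.Perm.sign (σ i)) with h | h
    · rw [h]
      simp
    · rw [h]
      simp
  have hdetK : algebraMap ℂ K (∏ i, (c i).det) ≠ 0 := by
    rw [Ne, map_eq_zero]
    exact hdet0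
  suffices h : Ge P (∑ i, ((n i : ℤ) + 1) * a i + ∑ i, (v i : ℤ) - (if v = 0 then 0 else 1))
      (om e D x') by
    rw [hchange] at h
    rcases h with h | h
    · exact Or.inl ((mul_eq_zero.1 h).resolve_left hdetK)
    · by_cases h0 : om e D x = 0
      · exact Or.inl h0
      · right
        rwa [P.ord_mul hdetK h0, P.ord_const hdet0, zero_add] at h
  -- the coordinates
  obtain ⟨y, hy⟩ : ∃ y : ∀ i, Fin (n i + 1) → K, y = fun i l => x i l / x i (j i) := ⟨_, rfl⟩
  have hyj : ∀ i, y i (j i) = 1 := by
    intro i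
    rw [hy]
    exact div_self (hx i _)
  have hyreg : ∀ i l, P.Reg (y i l) := by
    intro i l
    right
    rw [hy]
    dsimp only
    rw [P.ord_div (hx i l) (hx i _), ha2]
    linarith [ha1 i l]
  obtain ⟨t, ht⟩ : ∃ t : Fin N → K, t = uu e x' := ⟨_, rfl⟩
  have htb : ∀ b, t b = y (e.symm b).1 (σ _ (e.symm b).2.succ) := by
    intro b
    rw [ht, hy, hx']
    unfold uu aff
    dsimp only
    rw [hσ0]
  have hte : ∀ i l, t (e ⟨i, l⟩) = y i (σ i l.succ) := by
    intro i l
    rw [ht, hy, hx']
    unfold uu
    rw [e.symm_apply_apply]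
    unfold aff
    dsimp only
    rw [hσ0]
  have htne : ∀ b, t b ≠ 0 := by
    intro b
    rw [htb, hy]
    exact div_ne_zero (hx _ _) (hx _ _)
  obtain ⟨f, hf⟩ : ∃ f : Fin r → K, f = fun i => aeval (y i) (F i) := ⟨_, rfl⟩
  have hxf : ∀ i, aeval (x i) (F i) = x i (j i) ^ dF i * f i := by
    intro i
    rw [hf]
    dsimp only
    rw [← aeval_smul_form (hh i)]
    congr 2
    funext l
    rw [hy]
    dsimp only
    rw [mul_div_cancel₀ _ (hx i _)]
  have hfne : ∀ i, f i ≠ 0 := by
    intro i h0
    have h1 := hxf i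
    rw [h0, mul_zero] at h1
    exact hFx i h1
  have hordf : ∀ i, P.ord (f i) = v i := by
    intro i
    have h1 := hv i
    rw [hxf, P.ord_mul (pow_ne_zero _ (hx i _)) (hfne i), P.ord_pow, ha2] at h1
    linarith
  have hprod : Ge P (∑ i, ((n i : ℤ) + 1) * a i) (∏ i, x' i 0 ^ (n i + 1)) := by
    right
    rw [ord_prod' P Finset.univ _ fun i _ => pow_ne_zero _ (by rw [hx']; exact hx i _)]
    refine le_of_eq (Finset.sum_congr rfl fun i _ => ?_)
    rw [P.ord_pow, hx']
    dsimp only
    rw [hσ0, ha2]
    push_cast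
    ring
  have hgoal : Ge P (∑ i, (v i : ℤ) - (if v = 0 then 0 else 1))
      (Matrix.of fun a b : Fin N => D a (t b)).det := by
    by_cases hv0 : v = 0
    · rw [if_pos hv0, hv0]
      simp only [Pi.zero_apply, Nat.cast_zero, Finset.sum_const_zero, sub_zero]
      exact Pool.Agent.W619.PQ.ge_det P _ fun a b => hD a _ (by rw [htb]; exact hyreg _ _)
    rw [if_neg hv0]
    -- the special coordinates
    have hex : ∀ i, ∃ l' : Fin (n i), v i ≠ 0 →
        aeval (y i) (pderiv (σ i l'.succ) (F i)) ≠ 0 ∧
        P.ord (aeval (y i) (pderiv (σ i l'.succ) (F i))) = 0 := by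
      intro i
      by_cases hvi : v i = 0
      · exact ⟨⟨0, hn i⟩, fun h => absurd hvi h⟩
      · obtain ⟨l, hl, hl1, hl2⟩ := exists_unit P (hs i) (hh i) (hyreg i) (hyj i) (by
          right
          have := hordf i
          rw [hf] at this
          dsimp only at this
          rw [this]
          omega)
        have h1 : σ i l ≠ 0 := by
          intro h0
          apply hl
          rw [← hσσ i l, h0, hσ0]
        obtain ⟨l', hl'⟩ := Fin.exists_succ_eq.2 h1
        refine ⟨l', fun _ => ?_⟩
        rw [hl', hσσ]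
        exact ⟨hl1, hl2⟩
    choose l' hl' using hex
    let g : Fin r → Fin N → K := fun i b => if (e.symm b).1 = i then
      aeval (y (e.symm b).1) (pderiv (σ _ (e.symm b).2.succ) (F (e.symm b).1)) else 0
    have hge : ∀ i i' l, g i (e ⟨i', l⟩) = if i' = i then
        aeval (y i') (pderiv (σ i' l.succ) (F i')) else 0 := by
      intro i i' l
      simp only [g]
      rw [e.symm_apply_apply]
    have hder : ∀ (E : Derivation ℂ K K) i, E (f i) = ∑ b, g i b * E (t b) := by
      intro E i
      rw [← Equiv.sum_comp e, Fintype.sum_sigma, Finset.sum_eq_single i]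
      · rw [hf]
        dsimp only
        rw [chain, ← Equiv.sum_comp (σ i), Fin.sum_univ_succ, hσ0, hyj, E.map_one_eq_zero,
          mul_zero, zero_add]
        refine Finset.sum_congr rfl fun l _ => ?_
        rw [hge, if_pos rfl, hte]
      · intro i' _ hi'
        refine Finset.sum_eq_zero fun l _ => ?_
        rw [hge, if_neg hi', zero_mul]
      · intro h
        exact absurd (Finset.mem_univ _) h
    let s : Finset (Fin r) → Fin N → K := fun J b =>
      if (e.symm b).1 ∈ J ∧ b = e ⟨(e.symm b).1, l' _⟩ then f (e.symm b).1 else t b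
    have hsdet : ∀ J : Finset (Fin r),
        (Matrix.of fun a b : Fin N => D a (s J b)).det =
          (∏ i ∈ J, g i (e ⟨i, l' i⟩)) * (Matrix.of fun a b : Fin N => D a (t b)).det := by
      intro J
      induction J using Finset.induction_on with
      | empty =>
        rw [Finset.prod_empty, one_mul]
        simp [s]
      | insert i J hi ih =>
        rw [Finset.prod_insert hi, mul_assoc, ← ih]
        have h1 := Matrix.det_updateCol_sum (Matrix.of fun a b : Fin N => D a (s J b))
          (e ⟨i, l' i⟩) (g i)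
        rw [smul_eq_mul] at h1
        rw [← h1]
        congr 1
        ext a b
        rw [Matrix.updateCol_apply]
        by_cases hb : b = e ⟨i, l' i⟩
        · rw [if_pos hb, hb, Matrix.of_apply]
          have h2 : s (insert i J) (e ⟨i, l' i⟩) = f i := by
            simp only [s]
            rw [e.symm_apply_apply, if_pos ⟨Finset.mem_insert_self _ _, rfl⟩]
          rw [h2, hder]
          refine Finset.sum_congr rfl fun b' _ => ?_
          rw [Matrix.of_apply, smul_eq_mul]
          by_cases hb' : (e.symm b').1 = i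
          · have h3 : s J b' = t b' := by
              simp only [s]
              rw [if_neg]
              rintro ⟨h4, -⟩
              rw [hb'] at h4
              exact hi h4
            rw [h3]
          · have h3 : g i b' = 0 := by
              simp only [g]
              rw [if_neg hb']
            rw [h3, zero_mul, zero_mul]
        · rw [if_neg hb, Matrix.of_apply, Matrix.of_apply]
          congr 1
          simp only [s]
          by_cases hc : (e.symm b).1 ∈ J ∧ b = e ⟨(e.symm b).1, l' _⟩
          · rw [if_pos hc, if_pos ⟨Finset.mem_insert_of_mem hc.1, hc.2⟩]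
          · rw [if_neg hc, if_neg]
            rintro ⟨h4, h5⟩
            rcases Finset.mem_insert.1 h4 with h6 | h6
            · apply hb
              rw [← h6]
              exact h5
            · exact hc ⟨h6, h5⟩
    obtain ⟨J, hJ⟩ : ∃ J : Finset (Fin r), J = Finset.univ.filter fun i => v i ≠ 0 := ⟨_, rfl⟩
    have hsne : ∀ b, s J b ≠ 0 := by
      intro b
      simp only [s]
      split_ifs
      · exact hfne _
      · exact htne b
    have hsreg : ∀ b, 0 ≤ P.ord (s J b) := by
      intro b
      simp only [s]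
      split_ifs
      · rw [hordf]
        positivity
      · rw [htb]
        exact (hyreg _ _).resolve_left (by rw [← htb]; exact htne b)
    have hsum : ∑ i, (v i : ℤ) ≤ ∑ b, P.ord (s J b) := by
      rw [← Equiv.sum_comp e, Fintype.sum_sigma]
      refine Finset.sum_le_sum fun i _ => ?_
      by_cases hvi : v i = 0
      · rw [hvi]
        simpa using Finset.sum_nonneg fun l _ => hsreg (e ⟨i, l⟩)
      · have h1 : P.ord (s J (e ⟨i, l' i⟩)) = v i := by
          simp only [s]
          rw [e.symm_apply_apply, if_pos ⟨by rw [hJ]; simpa using hvi, rfl⟩, hordf]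
        rw [← h1]
        exact Finset.single_le_sum (f := fun l => P.ord (s J (e ⟨i, l⟩)))
          (fun l _ => hsreg _) (Finset.mem_univ (l' i))
    have h1 : (Matrix.of fun a b : Fin N => D a (s J b)).det = (∏ b, s J b) *
        (Matrix.of fun a b : Fin N => D a (s J b) / s J b).det := by
      rw [← Matrix.det_mul_row]
      congr 1
      ext a b
      simp only [Matrix.of_apply]
      rw [mul_div_cancel₀ _ (hsne b)]
    have h2 : Ge P (∑ i, (v i : ℤ) - 1) (Matrix.of fun a b : Fin N => D a (s J b)).det := by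
      rw [h1]
      have h3 := (ge_ord P (∏ b, s J b)).mul (Pool.Agent.W602.GT.det_log (P := P) D hD (s J) hsne)
      rw [ord_prod' P Finset.univ _ fun b _ => hsne b] at h3
      exact h3.mono (by linarith)
    rw [hsdet] at h2
    have hU : ∀ i ∈ J, g i (e ⟨i, l' i⟩) ≠ 0 ∧ P.ord (g i (e ⟨i, l' i⟩)) = 0 := by
      intro i hi
      rw [hJ, Finset.mem_filter] at hi
      rw [hge, if_pos rfl]
      exact hl' i hi.2
    have hU0 : (∏ i ∈ J, g i (e ⟨i, l' i⟩)) ≠ 0 := Finset.prod_ne_zero_iff.2 fun i hi => (hU i hi).1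
    have hU1 : P.ord (∏ i ∈ J, g i (e ⟨i, l' i⟩)) = 0 := by
      rw [ord_prod' P J _ fun i hi => (hU i hi).1]
      exact Finset.sum_eq_zero fun i hi => (hU i hi).2
    rcases h2 with h2 | h2
    · exact Or.inl ((mul_eq_zero.1 h2).resolve_left hU0)
    · by_cases h0 : (Matrix.of fun a b : Fin N => D a (t b)).det = 0
      · exact Or.inl h0
      · right
        rwa [P.ord_mul hU0 h0, hU1, zero_add] at h2
  unfold om
  rw [← ht]
  refine (hprod.mul hgoal).mono (le_of_eq ?_)
  ring

end Pool.Agent.Y169.CH
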