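import Pool.Agent.TH756.PN.Cl
import Mathlib.RingTheory.MvPowerSeries.NoZeroDivisors

/-!
Monomial places of a rational function field in several variables.
-/

set_option autoImplicit false
set_option linter.overlappingInstances false
set_option linter.unusedSectionVars false

open FF MvPolynomial Pool.Agent.W603.LV Pool.Agent.W619.PQ Pool.Agent.TH122.AB

namespace Pool.Agent.Y169.CH

section

variable {k F : Type} [Field k] [Field F] [Algebra k F] {d : ℕ}

/-- the weight of an exponent -/
def wt (lam : Fin d → ℕ) (m : Fin d →₀ ℕ) : ℕ := ∑ b, lam b * m b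

theorem wt_eq (lam : Fin d → ℕ) (m : Fin d →₀ ℕ) : Finsupp.weight lam m = wt lam m := by
  rw [Finsupp.weight_apply, Finsupp.sum_fintype _ _ fun i => by simp]
  unfold wt
  exact Finset.sum_congr rfl fun b _ => by rw [smul_eq_mul, mul_comm]

/-- the order of a polynomial -/
noncomputable def mord (lam : Fin d → ℕ) (P : MvPolynomial (Fin d) k) : ℕ :=
  ((P : MvPowerSeries (Fin d) k).weightedOrder lam).toNat

theorem mord_coe (lam : Fin d → ℕ) {P : MvPolynomial (Fin d) k} (hP : P ≠ 0) :
    ((mord lam P : ℕ) : ℕ∞) = (P : MvPowerSeries (Fin d) k).weightedOrder lam := by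
  have h1 : (P : MvPowerSeries (Fin d) k) ≠ 0 := by
    intro h
    exact hP (MvPolynomial.coe_injective _ _ (by rw [h, MvPolynomial.coe_zero]))
  exact (MvPowerSeries.ne_zero_iff_weightedOrder_finite lam).1 h1

theorem mord_mul (lam : Fin d → ℕ) {P Q : MvPolynomial (Fin d) k} (hP : P ≠ 0) (hQ : Q ≠ 0) :
    mord lam (P * Q) = mord lam P + mord lam Q := by
  have h1 : ((mord lam (P * Q) : ℕ) : ℕ∞) = ((mord lam P + mord lam Q : ℕ) : ℕ∞) := by
    rw [mord_coe lam (mul_ne_zero hP hQ), MvPolynomial.coe_mul, MvPowerSeries.weightedOrder_mul,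
      ← mord_coe lam hP, ← mord_coe lam hQ]
    push_cast
    rfl
  exact_mod_cast h1

theorem mord_le (lam : Fin d → ℕ) {P : MvPolynomial (Fin d) k} {m : Fin d →₀ ℕ}
    (hm : m ∈ P.support) : mord lam P ≤ wt lam m := by
  have hP : P ≠ 0 := by
    rintro rfl
    simp at hm
  have h1 : ((mord lam P : ℕ) : ℕ∞) ≤ ((wt lam m : ℕ) : ℕ∞) := by
    rw [mord_coe lam hP, ← wt_eq]
    apply MvPowerSeries.weightedOrder_le
    rw [MvPolynomial.coeff_coe]
    exact mem_support_iff.1 hm
  exact_mod_cast h1

theorem le_mord (lam : Fin d → ℕ) {P : MvPolynomial (Fin d) k} (hP : P ≠ 0) {N : ℕ}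
    (h : ∀ m ∈ P.support, N ≤ wt lam m) : N ≤ mord lam P := by
  have h1 : ((N : ℕ) : ℕ∞) ≤ ((mord lam P : ℕ) : ℕ∞) := by
    rw [mord_coe lam hP]
    apply MvPowerSeries.le_weightedOrder
    intro m hm
    rw [MvPolynomial.coeff_coe]
    by_contra hne
    have h2 := h m (mem_support_iff.2 hne)
    rw [wt_eq] at hm
    have h3 : wt lam m < N := by exact_mod_cast hm
    omega
  exact_mod_cast h1

theorem exists_mord (lam : Fin d → ℕ) {P : MvPolynomial (Fin d) k} (hP : P ≠ 0) :
    ∃ m ∈ P.support, mord lam P = wt lam m := by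
  obtain ⟨m, hm, hmin⟩ := Finset.exists_min_image P.support (wt lam) (support_nonempty.2 hP)
  exact ⟨m, hm, le_antisymm (mord_le lam hm) (le_mord lam hP hmin)⟩

theorem mord_add (lam : Fin d → ℕ) {P Q : MvPolynomial (Fin d) k}
    (hPQ : P + Q ≠ 0) : min (mord lam P) (mord lam Q) ≤ mord lam (P + Q) := by
  classical
  refine le_mord lam hPQ fun m hm => ?_
  rcases Finset.mem_union.1 (support_add hm) with h | h
  · exact (min_le_left _ _).trans (mord_le lam h)
  · exact (min_le_right _ _).trans (mord_le lam h)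

theorem mord_C (lam : Fin d → ℕ) {c : k} (hc : c ≠ 0) : mord lam (C c : MvPolynomial (Fin d) k) = 0 := by
  have h1 : (0 : Fin d →₀ ℕ) ∈ (C c : MvPolynomial (Fin d) k).support := by
    rw [mem_support_iff, coeff_zero_C]
    exact hc
  have h2 := mord_le lam h1
  have h3 : wt lam (0 : Fin d →₀ ℕ) = 0 := by
    unfold wt
    simp
  omega

theorem mord_monomial (lam : Fin d → ℕ) (m : Fin d →₀ ℕ) :
    mord lam (monomial m (1 : k)) = wt lam m := by
  classical
  have h0 : monomial m (1 : k) ≠ 0 := by
    rw [Ne, monomial_eq_zero]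
    exact one_ne_zero
  obtain ⟨m', hm', h⟩ := exists_mord lam h0
  rw [h]
  rw [support_monomial, if_neg one_ne_zero, Finset.mem_singleton] at hm'
  rw [hm']

/-- **The monomial place.** -/
theorem exists_mono {X : Fin d → F} (h : Gens (k := k) X) (lam : Fin d → ℕ)
    (hlam : ∃ a b : Fin d →₀ ℕ, wt lam a = wt lam b + 1) :
    ∃ v : Place k F, ∀ P : MvPolynomial (Fin d) k, P ≠ 0 → v.ord (aeval X P) = mord lam P := by
  obtain ⟨a, b, hab⟩ := hlam
  refine exists_place h (ν := fun P => (mord lam P : ℤ)) ⟨?_, ?_, ?_⟩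
    ⟨monomial a 1, monomial b 1, ?_, ?_, ?_⟩
  · intro P Q hP hQ
    rw [mord_mul lam hP hQ]
    push_cast
    rfl
  · intro P Q _ _ hPQ
    have := mord_add lam hPQ
    exact_mod_cast this
  · intro c hc
    rw [mord_C lam hc]
    rfl
  · rw [Ne, monomial_eq_zero]
    exact one_ne_zero
  · rw [Ne, monomial_eq_zero]
    exact one_ne_zero
  · rw [mord_monomial, mord_monomial, hab]
    push_cast
    rfl

/-- the logarithmic derivatives of a polynomial -/
noncomputable def Elog (lam : Fin d → ℕ) (b : Fin d) (P : MvPolynomial (Fin d) k) :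
    MvPolynomial (Fin d) k :=
  if lam b = 0 then pderiv b P else MvPolynomial.X b * pderiv b P

theorem mord_Elog (lam : Fin d → ℕ) (b : Fin d) {P : MvPolynomial (Fin d) k}
    (h : Elog lam b P ≠ 0) : mord lam P ≤ mord lam (Elog lam b P) := by
  classical
  refine le_mord lam h fun m hm => ?_
  unfold Elog at hm
  by_cases hb : lam b = 0
  · rw [if_pos hb, mem_support_iff, coeff_pderiv] at hm
    have h1 : m + Finsupp.single b 1 ∈ P.support := mem_support_iff.2 (left_ne_zero_of_mul hm)
    have h2 := mord_le lam h1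
    have h3 : wt lam (m + Finsupp.single b 1) = wt lam m := by
      unfold wt
      refine Finset.sum_congr rfl fun c _ => ?_
      rw [Finsupp.add_apply]
      by_cases hc : c = b
      · rw [hc, hb]
        simp
      · rw [Finsupp.single_apply, if_neg (Ne.symm hc), add_zero]
    omega
  · rw [if_neg hb, mem_support_iff, coeff_X_mul'] at hm
    by_cases hbm : b ∈ m.support
    · rw [if_pos hbm, coeff_pderiv] at hm
      have h1 : m - Finsupp.single b 1 + Finsupp.single b 1 = m := by
        ext c
        rw [Finsupp.add_apply, Finsupp.tsub_apply, Finsupp.single_apply]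
        have hb0 : m b ≠ 0 := Finsupp.mem_support_iff.1 hbm
        by_cases hc : b = c
        · subst hc
          simp
          omega
        · simp [hc]
      have h2 : m ∈ P.support := by
        rw [h1] at hm
        exact mem_support_iff.2 (left_ne_zero_of_mul hm)
      exact mord_le lam h2
    · rw [if_neg hbm] at hm
      exact absurd rfl hm

end

section

variable {k : Type} [Field k] [CharZero k] {K0 K : Type} [Field K0] [Field K] [Algebra k K0]
  [Algebra k K] [Algebra K0 K] [IsScalarTower k K0 K] [FiniteDimensional K0 K] {n : ℕ}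

/-- the logarithmic coordinate vector fields at the monomial places -/
theorem log_mono {X : Fin n → K0} (hX : Gens (k := k) X) (lam : Fin n → ℕ) {v : Place k K0}
    (hv : ∀ P : MvPolynomial (Fin n) k, P ≠ 0 → v.ord (aeval X P) = mord lam P)
    {w : Place k K} {e : ℕ} (h : Over w v e) {D : Derivation k K K} {b : Fin n}
    (hD : ∀ j, D (algebraMap K0 K (X j)) = if b = j then 1 else 0) (z : K) :
    w.Reg (((if lam b = 0 then 1 else algebraMap K0 K (X b)) • D) z / z) := by
  classical
  refine Pool.Agent.W619.Y.pLOG k K0 K v w e h _ (fun x => ?_) z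
  have h1 : ∀ R : MvPolynomial (Fin n) k,
      (((if lam b = 0 then 1 else algebraMap K0 K (X b)) • D) (algebraMap K0 K (aeval X R))) =
      algebraMap K0 K (aeval X (Elog lam b R)) := by
    intro R
    have h2 : D (algebraMap K0 K (aeval X R)) = algebraMap K0 K (aeval X (pderiv b R)) := by
      rw [← aeval_coe, ← aeval_coe]
      exact der_aeval hD R
    rw [Derivation.smul_apply, smul_eq_mul, h2]
    unfold Elog
    by_cases hb : lam b = 0
    · rw [if_pos hb, if_pos hb, one_mul]
    · rw [if_neg hb, if_neg hb, map_mul, map_mul, aeval_X]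
  -- polynomials
  have h2 : ∀ R : MvPolynomial (Fin n) k, R ≠ 0 →
      w.Reg (algebraMap K0 K (aeval X (Elog lam b R)) / algebraMap K0 K (aeval X R)) := by
    intro R hR
    rw [← map_div₀]
    refine h.reg.2 ?_
    by_cases h0 : Elog lam b R = 0
    · rw [h0, map_zero, zero_div]
      exact v.reg_zero
    · right
      rw [v.ord_div (hX.ne h0) (hX.ne hR), hv _ h0, hv _ hR]
      have := mord_Elog lam b h0
      omega
  by_cases hx : x = 0
  · rw [hx, map_zero, map_zero, zero_div]
    exact w.reg_zero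
  obtain ⟨P, Q, hQ, rfl⟩ := hX.gen x
  have hP : P ≠ 0 := by
    rintro rfl
    rw [map_zero, zero_div] at hx
    exact hx rfl
  have hPK : algebraMap K0 K (aeval X P) ≠ 0 := by
    rw [Ne, map_eq_zero]
    exact hX.ne hP
  have hQK : algebraMap K0 K (aeval X Q) ≠ 0 := by
    rw [Ne, map_eq_zero]
    exact hX.ne hQ
  have h3 : ∀ D' : Derivation k K K, ∀ p q : K, p ≠ 0 → q ≠ 0 →
      D' (p / q) / (p / q) = D' p / p - D' q / q := by
    intro D' p q hp hq
    rw [div_eq_mul_inv p q, D'.leibniz, D'.leibniz_inv]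
    simp only [smul_eq_mul]
    field_simp
    ring
  rw [map_div₀, h3 _ _ _ hPK hQK, h1, h1]
  exact Ge.sub (h2 P hP) (h2 Q hQ)

end

end Pool.Agent.Y169.CH
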