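import Pool.Agent.Y169.CH.Cv2
import Pool.Agent.TH756.PN.NuP

/-!
The order of the sections at the three kinds of places.
-/

set_option autoImplicit false
set_option linter.overlappingInstances false
set_option linter.unusedSectionVars false

open FF MvPolynomial IntermediateField Pool.Agent.W603.LV Pool.Agent.W619.PQ
open Pool.Agent.W619.TW Pool.Agent.W602.GT Pool.Agent.TH122.AB Pool.Agent.TH756.PN

namespace Pool.Agent.Y169.CH

/-- the number of variables of a block -/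
def Blk.n {k : Type} [Field k] {d r : ℕ} (Φ : Blk k d r) (t : Fin r) : ℕ :=
  (Finset.univ.filter fun b => Φ.τ b = t).card

theorem Blk.degB_F {k : Type} [Field k] {d r : ℕ} (Φ : Blk k (d + 1) r) (t s : Fin r) :
    degB (Finset.univ.filter fun b => Φ.τ b = t) (Φ.F s) = if s = t then Φ.D t else 0 := by
  classical
  unfold degB
  by_cases h : s = t
  · subst h
    rw [if_pos rfl]
    apply le_antisymm
    · refine Finset.sup_le fun m hm => ?_
      rw [Finset.sum_filter]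
      exact Φ.hF2 s m hm
    · have h2 : (Finsupp.single (Φ.c s) (Φ.D s)) ∈ (Φ.F s).support := by
        rw [mem_support_iff, Φ.hF3]
        exact one_ne_zero
      refine le_trans ?_ (Finset.le_sup (f := fun m : Fin (d + 1) →₀ ℕ =>
        ∑ b ∈ Finset.univ.filter fun b => Φ.τ b = s, m b) h2)
      have h3 : (Finsupp.single (Φ.c s) (Φ.D s) : Fin (d + 1) →₀ ℕ) (Φ.c s) = Φ.D s :=
        Finsupp.single_eq_same
      have h4 : Φ.c s ∈ Finset.univ.filter fun b => Φ.τ b = s :=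
        Finset.mem_filter.2 ⟨Finset.mem_univ _, Φ.hc s⟩
      exact h3.symm.le.trans (Finset.single_le_sum (f := fun b =>
        (Finsupp.single (Φ.c s) (Φ.D s) : Fin (d + 1) →₀ ℕ) b) (fun _ _ => Nat.zero_le _) h4)
  · rw [if_neg h]
    apply Nat.eq_zero_of_le_zero
    refine Finset.sup_le fun m hm => le_of_eq (Finset.sum_eq_zero fun b hb => ?_)
    rw [Finset.mem_filter] at hb
    exact Φ.hF1 s m hm b (by rw [hb.2]; exact fun h' => h h'.symm)

namespace Cvr

variable {d r : ℕ} {Φ : Blk ℂ (d + 1) r} {K : Type} [Field K] [Algebra ℂ K] {R : ℕ}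
  (C : Cvr Φ K R)

/-- the common factor -/
noncomputable def Lam (m : ℕ) : K := ∏ t, aeval C.Z (Φ.F t) ^ m

theorem Lam_ne (m : ℕ) : C.Lam m ≠ 0 :=
  Finset.prod_ne_zero_iff.2 fun t _ => pow_ne_zero _ (C.F_ne t)

theorem ord_Lam (P : Place ℂ K) (m : ℕ) : P.ord (C.Lam m) = m * ∑ t, P.ord (aeval C.Z (Φ.F t)) := by
  unfold Lam
  rw [ord_prod' P Finset.univ _ fun t _ => pow_ne_zero _ (C.F_ne t), Finset.mul_sum]
  exact Finset.sum_congr rfl fun t _ => P.ord_pow _ _

theorem sec_int {n : ℕ} {S' : Finset K} {m : ℕ} {ω : (Fin n → Derivation ℂ K K) → K} {P : Place ℂ K}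
    {x : K} {c : ℤ} (h : x = 0 ∨ ∃ s ∈ S', s ≠ 0 ∧ (P.ord s : ℝ) ≤ P.ord x + (c : ℝ)) :
    x = 0 ∨ ∃ s ∈ S', s ≠ 0 ∧ P.ord s ≤ P.ord x + c := by
  rcases h with h | ⟨s, hs, hs0, hle⟩
  · exact Or.inl h
  · exact Or.inr ⟨s, hs, hs0, by exact_mod_cast hle⟩

section

variable {K0 : Type} [Field K0] [Algebra ℂ K0] [Algebra K0 K] [IsScalarTower ℂ K0 K]
  [FiniteDimensional K0 K]

theorem ae_K0 {X : Fin (d + 1) → K0} (hXZ : ∀ j, algebraMap K0 K (X j) = C.Z j)
    (P : MvPolynomial (Fin (d + 1)) ℂ) : aeval C.Z P = algebraMap K0 K (aeval X P) := by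
  have h3 : C.Z = fun j => algebraMap K0 K (X j) := funext fun j => (hXZ j).symm
  rw [h3]
  exact MvPolynomial.aeval_algebraMap_apply K X P

/-- the places of the irreducible polynomials -/
theorem adic_f {X : Fin (d + 1) → K0} (hX : Gens (k := ℂ) X)
    (hXZ : ∀ j, algebraMap K0 K (X j) = C.Z j) {D : Fin (d + 1) → Derivation ℂ K K}
    (hD : ∀ i j, D i (C.Z j) = if i = j then 1 else 0) {p : MvPolynomial (Fin (d + 1)) ℂ}
    (hp : Irreducible p) {v : Place ℂ K0} (hvp : v.ord (aeval X p) = 1)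
    (hv : ∀ P, P ≠ 0 → 0 ≤ v.ord (aeval X P) ∧ (v.ord (aeval X P) = 0 ↔ ¬ p ∣ P))
    {P : Place ℂ K} {e : ℕ} (h : Over P v e) (he : e = 1 ∨ ∃ t, p ∣ Φ.F t) {S' : Finset K} {m : ℕ}
    {ω : (Fin (d + 1) → Derivation ℂ K K) → K} (hω : Sec (d + 1) S' m ω) :
    ω D * C.Lam m = 0 ∨ ∃ s ∈ S', s ≠ 0 ∧ P.ord s ≤ P.ord (ω D * C.Lam m) := by
  classical
  have htr := trdeg_of_basis C.hZ
  have hXK : (fun j => algebraMap K0 K (X j)) = C.Z := funext hXZ
  have hD' : ∀ i j, D i (algebraMap K0 K (X j)) = if i = j then 1 else 0 := fun i j => by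
    rw [hXZ]
    exact hD i j
  obtain ⟨b, hb0, hb⟩ := exists_pderiv hp
  have hDb : D b (algebraMap K0 K (aeval X p)) = algebraMap K0 K (aeval X (pderiv b p)) := by
    rw [← Pool.Agent.TH122.AB.aeval_coe, ← Pool.Agent.TH122.AB.aeval_coe]
    exact der_aeval (hD' b) p
  have hjac := jacP htr C.fin_all' h (div_adic hX hp hv h) D C.Z C.hZ hD
    (fun i z hz => pres_adic hX hp hv h (hD' i) hz) hvp b (by
      rw [hDb, Ne, map_eq_zero]
      exact hX.ne hb0) (by
      rw [hDb, h.2, (hv _ hb0).2.2 hb, mul_zero]) S' m ω Set.univ (fun _ => 0) (Set.mem_univ _) hω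
  by_cases hz : ω D = 0
  · left
    rw [hz, zero_mul]
  obtain ⟨s, hs, hs0, hle⟩ := hjac.resolve_left hz
  right
  refine ⟨s, hs, hs0, ?_⟩
  have hle' : P.ord s ≤ P.ord (ω D) + m * ((e : ℤ) - 1) := by
    have h1 : (P.ord s : ℝ) ≤ P.ord (ω D) + m * ((e : ℝ) - 1) := by linarith
    exact_mod_cast h1
  rw [P.ord_mul hz (C.Lam_ne m), C.ord_Lam]
  have hF : ∀ t, P.ord (aeval C.Z (Φ.F t)) = e * v.ord (aeval X (Φ.F t)) := by
    intro t
    rw [C.ae_K0 hXZ, h.2]
  have hnn : ∀ t, 0 ≤ P.ord (aeval C.Z (Φ.F t)) := by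
    intro t
    rw [hF]
    exact mul_nonneg (by positivity) (hv _ (Φ.F_ne t)).1
  have he1 : (1 : ℤ) ≤ e := by exact_mod_cast h.1
  have key : (e : ℤ) - 1 ≤ ∑ t, P.ord (aeval C.Z (Φ.F t)) := by
    rcases he with he | ⟨t, ht⟩
    · rw [he]
      simpa using Finset.sum_nonneg fun t _ => hnn t
    · have h2 : P.ord (aeval C.Z (Φ.F t)) ≤ ∑ t, P.ord (aeval C.Z (Φ.F t)) :=
        Finset.single_le_sum (f := fun t => P.ord (aeval C.Z (Φ.F t))) (fun t _ => hnn t)
          (Finset.mem_univ t)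
      have h3 : 1 ≤ v.ord (aeval X (Φ.F t)) := by
        have h4 : v.ord (aeval X (Φ.F t)) ≠ 0 := fun h5 => (hv _ (Φ.F_ne t)).2.1 h5 ht
        have h5 := (hv _ (Φ.F_ne t)).1
        omega
      rw [hF] at h2
      nlinarith
  have h4 : (m : ℤ) * ((e : ℤ) - 1) ≤ m * ∑ t, P.ord (aeval C.Z (Φ.F t)) :=
    mul_le_mul_of_nonneg_left key (by positivity)
  linarith

/-- the places at infinity -/
theorem inf_f {X : Fin (d + 1) → K0} (hX : Gens (k := ℂ) X)
    (hXZ : ∀ j, algebraMap K0 K (X j) = C.Z j) {D : Fin (d + 1) → Derivation ℂ K K}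
    (hD : ∀ i j, D i (C.Z j) = if i = j then 1 else 0) (t : Fin r) :
    ∃ v0 : Place ℂ K0, (∀ P : MvPolynomial (Fin (d + 1)) ℂ, P ≠ 0 →
        v0.ord (aeval X P) = - (degB (Finset.univ.filter fun b => Φ.τ b = t) P : ℤ)) ∧
      ∀ (P : Place ℂ K), Over P v0 1 → ∀ (S' : Finset K) (m : ℕ)
        (ω : (Fin (d + 1) → Derivation ℂ K K) → K), Sec (d + 1) S' m ω →
        ω D * C.Lam m = 0 ∨ ∃ s ∈ S', s ≠ 0 ∧ P.ord s ≤
          P.ord (ω D * C.Lam m) + ((Φ.D t : ℤ) - Φ.n t - 1) * m := by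
  classical
  have hXK : (fun j => algebraMap K0 K (X j)) = C.Z := funext hXZ
  obtain ⟨v0, h1, h2⟩ := exists_infP hX (by rw [hXK]; exact C.hZ) C.fin_all' (D := D)
    (fun i j => by rw [hXZ]; exact hD i j) (B := Finset.univ.filter fun b => Φ.τ b = t)
    (c := Φ.c t) (Finset.mem_filter.2 ⟨Finset.mem_univ _, Φ.hc t⟩)
  refine ⟨v0, h1, fun P hP S' m ω hω => ?_⟩
  have h3 := h2 P 1 hP S' m ω Set.univ (fun _ => 0) (Set.mem_univ _) hω
  by_cases hz : ω D = 0
  · left
    rw [hz, zero_mul]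
  obtain ⟨s, hs, hs0, hle⟩ := h3.resolve_left hz
  right
  refine ⟨s, hs, hs0, ?_⟩
  have hle' : P.ord s ≤ P.ord (ω D) - m * ((Φ.n t : ℤ) + 1) := by
    have h4 : (P.ord s : ℝ) ≤ P.ord (ω D) - m * ((Φ.n t : ℝ) + 1) := by
      have h5 : ((Finset.univ.filter fun b => Φ.τ b = t).card : ℝ) = Φ.n t := rfl
      rw [h5] at hle
      push_cast at hle
      linarith
    exact_mod_cast h4
  rw [P.ord_mul hz (C.Lam_ne m), C.ord_Lam]
  have h4 : ∀ s, P.ord (aeval C.Z (Φ.F s)) = if s = t then - (Φ.D t : ℤ) else 0 := by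
    intro s
    rw [C.ae_K0 hXZ, hP.2, h1 _ (Φ.F_ne s), Φ.degB_F]
    split_ifs <;> simp
  rw [Finset.sum_congr rfl fun s _ => h4 s, Finset.sum_ite_eq' Finset.univ t,
    if_pos (Finset.mem_univ _)]
  linarith

/-- the test places -/
theorem test_f {Y : Fin (d + 1) → K0} (hY : Gens (k := ℂ) Y)
    (hYK : ∀ j, algebraMap K0 K (Y j) = C.Y j) {D : Fin (d + 1) → Derivation ℂ K K}
    (hD : ∀ i j, D i (C.Z j) = if i = j then 1 else 0) {DY : Fin (d + 1) → Derivation ℂ K K}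
    (hDY : ∀ i j, DY i (C.Y j) = if i = j then 1 else 0) (lam : Fin r → ℕ)
    {t0 : Fin r} (ht0 : lam t0 ≠ 0) {v : Place ℂ K0}
    (hv : ∀ P : MvPolynomial (Fin (d + 1)) ℂ, P ≠ 0 → v.ord (aeval Y P) =
      mord (fun b => if b = Φ.c (Φ.τ b) then lam (Φ.τ b) else 0) P)
    {P : Place ℂ K} {e : ℕ} (h : Over P v e) (hreg : ∀ b, P.Reg (C.Z b)) {S' : Finset K} {m : ℕ}
    {ω : (Fin (d + 1) → Derivation ℂ K K) → K} (hω : Sec (d + 1) S' m ω) :
    ω D * C.Lam m = 0 ∨ ∃ s ∈ S', s ≠ 0 ∧ P.ord s + m ≤ P.ord (ω D * C.Lam m) := by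
  classical
  obtain ⟨l, hl⟩ : ∃ l : Fin (d + 1) → ℕ, l = fun b => if b = Φ.c (Φ.τ b) then lam (Φ.τ b) else 0 :=
    ⟨_, rfl⟩
  rw [← hl] at hv
  have hlc : ∀ t, l (Φ.c t) = lam t := by
    intro t
    rw [hl]
    dsimp only
    rw [Φ.hc, if_pos rfl]
  have hln : ∀ b, b ≠ Φ.c (Φ.τ b) → l b = 0 := by
    intro b hb
    rw [hl]
    exact if_neg hb
  have htr := trdeg_of_basis C.hZ
  have hdiv : IsDivisorial P (d + 1) := div_mono hY l (b := Φ.c t0) (by rw [hlc]; exact ht0) hv h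
  -- the logarithmic frame
  let dd : Fin (d + 1) → Derivation ℂ K K := fun b =>
    (if l b = 0 then 1 else algebraMap K0 K (Y b)) • DY b
  have hlog : ∀ b z, P.Reg (dd b z / z) := fun b z =>
    log_mono hY l hv h (fun j => by rw [hYK]; exact hDY b j) z
  have hjac := jacL htr C.fin_all' hdiv dd hlog S' m ω hω
  -- the change of frames
  let J : Matrix (Fin (d + 1)) (Fin (d + 1)) K := Matrix.of fun a b => D a (C.Y b)
  have hDJ : D = fun a => ∑ b, J a b • DY b := by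
    funext a
    apply der_ext' C.bas_Y
    intro j
    rw [sum_der, Finset.sum_eq_single j]
    · rw [hDY, if_pos rfl, mul_one]
      rfl
    · intro b _ hb
      rw [hDY, if_neg hb, mul_zero]
    · intro hj
      exact absurd (Finset.mem_univ _) hj
  have h1 : ω D = J.det ^ m * ω DY := by
    conv_lhs => rw [hDJ]
    exact hω.1 J DY
  let L : Matrix (Fin (d + 1)) (Fin (d + 1)) K :=
    Matrix.diagonal fun b => if l b = 0 then 1 else algebraMap K0 K (Y b)
  have h2 : ω dd = (∏ b, if l b = 0 then 1 else algebraMap K0 K (Y b)) ^ m * ω DY := by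
    have h3 := hω.1 L DY
    rw [Matrix.det_diagonal] at h3
    rw [← h3]
    congr 1
    funext a
    rw [Finset.sum_eq_single a]
    · simp only [L, Matrix.diagonal_apply_eq]
      rfl
    · intro b _ hb
      simp only [L]
      rw [Matrix.diagonal_apply_ne _ (Ne.symm hb), zero_smul]
    · intro ha
      exact absurd (Finset.mem_univ _) ha
  have hYne : ∀ b, algebraMap K0 K (Y b) ≠ 0 := by
    intro b
    rw [Ne, map_eq_zero]
    intro h0
    have h3 := hY.ne (X_ne_zero (R := ℂ) b)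
    rw [aeval_X] at h3
    exact h3 h0
  have hordY : ∀ b, P.ord (algebraMap K0 K (Y b)) = e * l b := by
    intro b
    have h3 := hv (MvPolynomial.X b) (X_ne_zero _)
    rw [aeval_X] at h3
    have h5 : (MvPolynomial.X b : MvPolynomial (Fin (d + 1)) ℂ) =
      monomial (Finsupp.single b 1) 1 := rfl
    rw [h.2, h3, h5, mord_monomial]
    have h6 : wt l (Finsupp.single b 1) = l b := by
      unfold wt
      rw [Finset.sum_eq_single b]
      · simp
      · intro c _ hc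
        rw [Finsupp.single_apply, if_neg (Ne.symm hc), mul_zero]
      · intro h
        exact absurd (Finset.mem_univ _) h
    rw [h6]
  -- the products
  have hprod0 : (∏ b, if l b = 0 then 1 else algebraMap K0 K (Y b)) ≠ 0 := by
    refine Finset.prod_ne_zero_iff.2 fun b _ => ?_
    split_ifs
    · exact one_ne_zero
    · exact hYne b
  have hord1 : P.ord (∏ b, if l b = 0 then 1 else algebraMap K0 K (Y b)) =
      ∑ t, P.ord (aeval C.Z (Φ.F t)) := by
    rw [ord_prod' P Finset.univ _ fun b _ => by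
      split_ifs
      · exact one_ne_zero
      · exact hYne b]
    have h3 : ∀ b, P.ord (if l b = 0 then 1 else algebraMap K0 K (Y b)) = (e : ℤ) * l b := by
      intro b
      split_ifs with hb
      · rw [P.ord_one, hb]
        simp
      · exact hordY b
    have h4 : ∀ t, P.ord (aeval C.Z (Φ.F t)) = (e : ℤ) * l (Φ.c t) := by
      intro t
      rw [← C.Y_c, ← hYK]
      exact hordY _
    rw [Finset.sum_congr rfl fun b _ => h3 b, Finset.sum_congr rfl fun t _ => h4 t]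
    symm
    refine Finset.sum_of_injOn Φ.c (fun a _ b _ hab => Φ.c_inj hab) (fun a _ => by simp) ?_
      fun t _ => rfl
    intro b _ hb
    have hbn : b ≠ Φ.c (Φ.τ b) := by
      intro hb'
      apply hb
      exact ⟨Φ.τ b, by simp, hb'.symm⟩
    rw [hln b hbn]
    simp
  have hJ : P.Reg J.det := by
    refine Pool.Agent.W619.PQ.ge_det P _ fun a b => ?_
    simp only [J, Matrix.of_apply]
    unfold Cvr.Y
    rw [chain]
    refine Ge.sum _ _ fun c _ => ?_
    rw [hD]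
    refine P.reg_mul (reg_aeval hreg _) ?_
    split_ifs
    · exact P.reg_one
    · exact P.reg_zero
  by_cases hz : ω D = 0
  · left
    rw [hz, zero_mul]
  have hDY0 : ω DY ≠ 0 := by
    intro h0
    rw [h0, mul_zero] at h1
    exact hz h1
  have hJm : J.det ^ m ≠ 0 := by
    intro h0
    rw [h0, zero_mul] at h1
    exact hz h1
  have hdd0 : ω dd ≠ 0 := by
    rw [h2]
    exact mul_ne_zero (pow_ne_zero _ hprod0) hDY0
  obtain ⟨s, hs, hs0, hle⟩ := hjac.resolve_left hdd0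
  right
  refine ⟨s, hs, hs0, ?_⟩
  rw [P.ord_mul hz (C.Lam_ne m), C.ord_Lam, h1, P.ord_mul hJm hDY0]
  rw [h2, P.ord_mul (pow_ne_zero _ hprod0) hDY0, P.ord_pow, hord1] at hle
  have h3 : 0 ≤ P.ord (J.det ^ m) := (reg_pow' P hJ m).resolve_left hJm
  linarith

end

end Cvr

end Pool.Agent.Y169.CH
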