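import Pool.Agent.Y169.CH.Hom

/-!
A linear change of the coordinates which makes a form monic in the last variable.
-/

set_option autoImplicit false
set_option linter.overlappingInstances false
set_option linter.unusedSectionVars false

open FF MvPolynomial Pool.Agent.W603.LV Pool.Agent.W602.GT Pool.Agent.W602.Cov
open Pool.Agent.TH756.PR Pool.Agent.TH122.AB Pool.Agent.TH756.PN

namespace Pool.Agent.Y169.CH

theorem chain_ring {σ τ : Type} [Fintype σ] (D : Derivation ℂ (MvPolynomial τ ℂ) (MvPolynomial τ ℂ))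
    (g : σ → MvPolynomial τ ℂ) (P : MvPolynomial σ ℂ) :
    D (aeval g P) = ∑ j, aeval g (pderiv j P) * D (g j) := by
  classical
  induction P using MvPolynomial.induction_on with
  | C c =>
    rw [aeval_C, Derivation.map_algebraMap]
    symm
    exact Finset.sum_eq_zero fun j _ => by rw [pderiv_C, map_zero, zero_mul]
  | add p q hp hq =>
    rw [map_add, map_add, hp, hq, ← Finset.sum_add_distrib]
    exact Finset.sum_congr rfl fun j _ => by rw [map_add, map_add, add_mul]
  | mul_X p i hp =>
    rw [map_mul, aeval_X, Derivation.leibniz, hp, smul_eq_mul, smul_eq_mul]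
    have h1 : ∀ j, aeval g (pderiv j (p * X i)) * D (g j) =
        g i * (aeval g (pderiv j p) * D (g j)) + (if j = i then aeval g p * D (g i) else 0) := by
      intro j
      rw [pderiv_mul, map_add, map_mul, map_mul, aeval_X, pderiv_X]
      by_cases h : j = i
      · subst h
        rw [if_pos rfl, Pi.single_eq_same, map_one]
        ring
      · rw [if_neg h, Pi.single_eq_of_ne (Ne.symm h), map_zero]
        ring
    rw [Finset.sum_congr rfl fun j _ => h1 j, Finset.sum_add_distrib, Finset.sum_ite_eq' Finset.univ,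
      if_pos (Finset.mem_univ _), ← Finset.mul_sum]
    ring

variable {m : ℕ}

/-- the shear -/
noncomputable def sh (q : Fin (m + 1) → ℂ) (j : Fin (m + 1)) : MvPolynomial (Fin (m + 1)) ℂ :=
  X j + C (q j) * X (Fin.last m)

/-- the form in the new coordinates -/
noncomputable def shF (q : Fin (m + 1) → ℂ) (c : ℂ) (F : MvPolynomial (Fin (m + 1)) ℂ) :
    MvPolynomial (Fin (m + 1)) ℂ := C c * aeval (sh q) F

/-- the new coordinates -/
noncomputable def shx {K : Type} [Field K] [Algebra ℂ K] (q : Fin (m + 1) → ℂ)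
    (x : Fin (m + 1) → K) (j : Fin (m + 1)) : K :=
  x j - algebraMap ℂ K (q j) * x (Fin.last m)

variable {q : Fin (m + 1) → ℂ} (hq : q (Fin.last m) = 0)

section

include hq

theorem shx_last {K : Type} [Field K] [Algebra ℂ K] (x : Fin (m + 1) → K) :
    shx q x (Fin.last m) = x (Fin.last m) := by
  unfold shx
  rw [hq, map_zero, zero_mul, sub_zero]

theorem aeval_sh {K : Type} [Field K] [Algebra ℂ K] (x : Fin (m + 1) → K) (j : Fin (m + 1)) :
    aeval (shx q x) (sh q j) = x j := by
  unfold sh
  rw [map_add, map_mul, aeval_X, aeval_X, aeval_C, shx_last hq]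
  unfold shx
  ring

theorem aeval_shF {K : Type} [Field K] [Algebra ℂ K] (x : Fin (m + 1) → K) (c : ℂ)
    (F : MvPolynomial (Fin (m + 1)) ℂ) :
    aeval (shx q x) (shF q c F) = algebraMap ℂ K c * aeval x F := by
  unfold shF
  rw [map_mul, aeval_C]
  congr 1
  have h2 := MvPolynomial.comp_aeval_apply (sh q) (aeval (R := ℂ) (shx q x)) F
  rw [h2]
  congr 2
  funext j
  exact aeval_sh hq x j

end

theorem shF_hom (q : Fin (m + 1) → ℂ) (c : ℂ) {F : MvPolynomial (Fin (m + 1)) ℂ} {dF : ℕ}
    (hh : F.IsHomogeneous dF) : (shF q c F).IsHomogeneous dF := by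
  have h1 : ∀ j, (sh q j).IsHomogeneous 1 := fun j =>
    (isHomogeneous_X _ _).add (by simpa using (isHomogeneous_C _ (q j)).mul (isHomogeneous_X _ _))
  have h2 := hh.aeval (sh q) h1
  have h3 := (isHomogeneous_C (Fin (m + 1)) c).mul h2
  rw [zero_add, one_mul] at h3
  exact h3

theorem pderiv_sh (q : Fin (m + 1) → ℂ) (l j : Fin (m + 1)) :
    pderiv l (sh q j) = C ((if j = l then 1 else 0) + (if Fin.last m = l then q j else 0)) := by
  classical
  unfold sh
  rw [map_add, pderiv_C_mul, pderiv_X, pderiv_X, map_add]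
  by_cases h1 : j = l
  · subst h1
    rw [Pi.single_eq_same, if_pos rfl, C_1]
    by_cases h2 : Fin.last m = j
    · subst h2
      rw [Pi.single_eq_same, if_pos rfl, mul_one]
    · rw [Pi.single_eq_of_ne h2, if_neg h2, mul_zero, C_0]
  · rw [Pi.single_eq_of_ne h1, if_neg h1, C_0]
    by_cases h2 : Fin.last m = l
    · subst h2
      rw [Pi.single_eq_same, if_pos rfl, mul_one]
    · rw [Pi.single_eq_of_ne h2, if_neg h2, mul_zero, C_0]

theorem shF_smooth (hq : q (Fin.last m) = 0) {c : ℂ} (hc : c ≠ 0)
    {F : MvPolynomial (Fin (m + 1)) ℂ} (hs : SmF F) : SmF (shF q c F) := by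
  classical
  intro y hy
  by_contra hcon
  push Not at hcon
  obtain ⟨y', hy'⟩ : ∃ y' : Fin (m + 1) → ℂ, y' = fun j => y j + q j * y (Fin.last m) := ⟨_, rfl⟩
  have hy0 : y' ≠ 0 := by
    intro h0
    apply hy
    have h1 : ∀ j, y j + q j * y (Fin.last m) = 0 := by
      intro j
      have := congrFun h0 j
      rw [hy'] at this
      exact this
    have h2 := h1 (Fin.last m)
    rw [hq, zero_mul, add_zero] at h2
    funext j
    have h3 := h1 j
    rw [h2, mul_zero, add_zero] at h3
    exact h3
  have hev : ∀ G : MvPolynomial (Fin (m + 1)) ℂ, eval y (aeval (sh q) G) = eval y' G := by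
    intro G
    have h2 := MvPolynomial.comp_aeval_apply (sh q) (aeval (R := ℂ) y) G
    have h3 : (fun j => aeval y (sh q j)) = y' := by
      funext j
      rw [hy']
      unfold sh
      rw [map_add, map_mul, aeval_X, aeval_X, aeval_C]
      rfl
    rw [h3] at h2
    exact h2
  have h1 : ∀ l, eval y' (pderiv l F) + (if Fin.last m = l then
      ∑ j, eval y' (pderiv j F) * q j else 0) = 0 := by
    intro l
    have h2 := hcon l
    unfold shF at h2
    rw [pderiv_C_mul, chain_ring, map_mul, eval_C] at h2
    have h3 := (mul_eq_zero.1 h2).resolve_left hc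
    rw [map_sum] at h3
    have h4 : ∀ j, eval y (aeval (sh q) (pderiv j F) * pderiv l (sh q j)) =
        eval y' (pderiv j F) * ((if j = l then 1 else 0) + (if Fin.last m = l then q j else 0)) := by
      intro j
      rw [map_mul, hev, pderiv_sh, eval_C]
    rw [Finset.sum_congr rfl fun j _ => h4 j] at h3
    simp only [mul_add, Finset.sum_add_distrib] at h3
    refine Eq.trans ?_ h3
    congr 1
    · rw [Finset.sum_eq_single l]
      · rw [if_pos rfl, mul_one]
      · intro j _ hj
        rw [if_neg hj, mul_zero]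
      · intro h
        exact absurd (Finset.mem_univ _) h
    · by_cases hl : Fin.last m = l
      · simp only [if_pos hl]
      · simp only [if_neg hl, mul_zero, Finset.sum_const_zero]
  have h2 : ∀ l, l ≠ Fin.last m → eval y' (pderiv l F) = 0 := by
    intro l hl
    have h3 := h1 l
    rwa [if_neg hl.symm, add_zero] at h3
  have h3 : eval y' (pderiv (Fin.last m) F) = 0 := by
    have h4 := h1 (Fin.last m)
    rw [if_pos rfl, Finset.sum_eq_zero, add_zero] at h4
    · exact h4
    · intro j _
      by_cases hj : j = Fin.last m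
      · rw [hj, hq, mul_zero]
      · rw [h2 j hj, zero_mul]
  obtain ⟨l, hl⟩ := hs y' hy0
  apply hl
  by_cases h4 : l = Fin.last m
  · rw [h4]
    exact h3
  · exact h2 l h4

/-- the leading coefficient of a form -/
theorem coeff_eq_eval {G : MvPolynomial (Fin (m + 1)) ℂ} {dF : ℕ} (hh : G.IsHomogeneous dF)
    (j : Fin (m + 1)) :
    coeff (Finsupp.single j dF) G = eval (Pi.single j 1) G := by
  classical
  rw [eval_eq']
  have h1 : ∀ a ∈ G.support, coeff a G * ∏ i, (Pi.single j 1 : Fin (m + 1) → ℂ) i ^ a i =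
      if a = Finsupp.single j dF then coeff a G else 0 := by
    intro a ha
    have h2 := sum_hom hh ha
    by_cases h : a = Finsupp.single j dF
    · rw [if_pos h, Finset.prod_eq_one, mul_one]
      intro i _
      by_cases hi : i = j
      · subst hi
        rw [Pi.single_eq_same, one_pow]
      · rw [h, Finsupp.single_apply, if_neg (Ne.symm hi), pow_zero]
    · rw [if_neg h]
      obtain ⟨i, hi, hai⟩ : ∃ i, i ≠ j ∧ a i ≠ 0 := by
        by_contra hcon
        push Not at hcon
        apply h
        rw [Finset.sum_eq_single j (fun i _ hi => hcon i hi)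
          (fun h => absurd (Finset.mem_univ _) h)] at h2
        ext i
        rw [Finsupp.single_apply]
        by_cases hi : j = i
        · rw [if_pos hi, ← hi, h2]
        · rw [if_neg hi, hcon i (Ne.symm hi)]
      rw [Finset.prod_eq_zero (Finset.mem_univ i), mul_zero]
      rw [Pi.single_eq_of_ne hi, zero_pow hai]
  rw [Finset.sum_congr rfl h1, Finset.sum_ite_eq' G.support]
  split_ifs with h
  · rfl
  · rwa [notMem_support_iff] at h

/-- a suitable shear -/
theorem exists_sh {F : MvPolynomial (Fin (m + 1)) ℂ} {dF : ℕ} (hh : F.IsHomogeneous dF)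
    (hF : F ≠ 0) : ∃ (q : Fin (m + 1) → ℂ) (c : ℂ), q (Fin.last m) = 0 ∧ c ≠ 0 ∧
      coeff (Finsupp.single (Fin.last m) dF) (shF q c F) = 1 := by
  classical
  obtain ⟨p, hp⟩ : ∃ p : Fin (m + 1) → ℂ, eval p (F * X (Fin.last m)) ≠ 0 := by
    by_contra hcon
    push Not at hcon
    have h1 : F * X (Fin.last m) = 0 := by
      apply MvPolynomial.funext
      intro p
      rw [hcon p, map_zero]
    exact (mul_ne_zero hF (X_ne_zero _)) h1
  rw [map_mul, eval_X] at hp
  have hp1 := left_ne_zero_of_mul hp
  have hp2 := right_ne_zero_of_mul hp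
  obtain ⟨p', hp'⟩ : ∃ p' : Fin (m + 1) → ℂ, p' = fun j => (p (Fin.last m))⁻¹ * p j := ⟨_, rfl⟩
  have hp3 : eval p' F ≠ 0 := by
    have h1 := aeval_smul_form (K := ℂ) hh (p (Fin.last m))⁻¹ p
    have h2 : eval p' F = (p (Fin.last m))⁻¹ ^ dF * eval p F := by
      rw [hp']
      exact h1
    rw [h2]
    exact mul_ne_zero (pow_ne_zero _ (inv_ne_zero hp2)) hp1
  have hpl : p' (Fin.last m) = 1 := by
    rw [hp']
    exact inv_mul_cancel₀ hp2
  refine ⟨Function.update p' (Fin.last m) 0, (eval p' F)⁻¹, Function.update_self _ _ _,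
    inv_ne_zero hp3, ?_⟩
  rw [coeff_eq_eval (shF_hom _ _ hh)]
  unfold shF
  rw [map_mul, eval_C]
  have h2 := MvPolynomial.comp_aeval_apply (sh (Function.update p' (Fin.last m) 0))
    (aeval (R := ℂ) (Pi.single (Fin.last m) (1 : ℂ))) F
  have h3 : (fun j => aeval (Pi.single (Fin.last m) (1 : ℂ))
      (sh (Function.update p' (Fin.last m) 0) j)) = p' := by
    funext j
    unfold sh
    rw [map_add, map_mul, aeval_X, aeval_X, aeval_C, Pi.single_eq_same, mul_one]
    by_cases hj : j = Fin.last m
    · rw [hj, Pi.single_eq_same, Function.update_self, map_zero, add_zero, hpl]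
    · rw [Pi.single_eq_of_ne hj, Function.update_of_ne hj, zero_add]
      rfl
  rw [h3] at h2
  have h4 : eval (Pi.single (Fin.last m) (1 : ℂ)) (aeval (sh (Function.update p' (Fin.last m) 0)) F)
      = eval p' F := h2
  rw [h4]
  exact inv_mul_cancel₀ hp3

end Pool.Agent.Y169.CH
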