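import Pool.Agent.Y169.CH.Mak
import Pool.Agent.Y169.CH.Kod

/-!
Abundance for the covers of products of projective spaces which are branched along smooth
hypersurfaces.
-/

set_option autoImplicit false
set_option linter.overlappingInstances false
set_option linter.unusedSectionVars false

open FF MvPolynomial Pool.Agent.W603.LV Pool.Agent.W602.GT Pool.Agent.W602.Cov
open Pool.Agent.TH756.PR Pool.Agent.TH122.AB Pool.Agent.TH756.PN

namespace Pool.Agent.Y169.CH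

variable {r N R : ℕ} {n : Fin r → ℕ} {K : Type} [Field K] [Algebra ℂ K]

/-- a section of `m K + j A` -/
def ASec (N : ℕ) (S : Finset K) (m j : ℕ) (ω : (Fin N → Derivation ℂ K K) → K) : Prop :=
  IsPluri m ω ∧ ∀ P : Place ℂ K, Divisorial N P → ∀ D : Fin N → Derivation ℂ K K,
    (∀ c, DerReg P (D c)) → ω D = 0 ∨ ∃ s ∈ S, s ≠ 0 ∧ j * P.ord s ≤ P.ord (ω D)

theorem asec_sec {S : Finset K} {m j : ℕ} {ω : (Fin N → Derivation ℂ K K) → K}
    (h : ASec N S m j ω) : Sec N (pw S j) m ω := by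
  refine ⟨h.1, fun P _ hP D hD => ?_⟩
  refine (h.2 P hP D hD).imp id ?_
  rintro ⟨s, hs, hs0, hle⟩
  refine ⟨s ^ j, mem_pw.2 ⟨s, hs, rfl⟩, pow_ne_zero _ hs0, ?_⟩
  rw [P.ord_pow, mul_zero, sub_zero]
  exact_mod_cast hle

theorem asec_one {S : Finset K} {m : ℕ} {ω : (Fin N → Derivation ℂ K K) → K}
    (h : ASec N S m 1 ω) : Sec N S m ω := by
  refine ⟨h.1, fun P _ hP D hD => ?_⟩
  refine (h.2 P hP D hD).imp id ?_
  rintro ⟨s, hs, hs0, hle⟩
  refine ⟨s, hs, hs0, ?_⟩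
  rw [mul_zero, sub_zero]
  rw [Nat.cast_one, one_mul] at hle
  exact_mod_cast hle

/-- `κ ≥ h` -/
def AKod (N : ℕ) (K : Type) [Field K] [Algebra ℂ K] (h : ℕ) : Prop :=
  ∃ m : ℕ, 0 < m ∧ ∃ ω : Fin (h + 1) → (Fin N → Derivation ℂ K K) → K,
    (∀ b, ASec N {1} m 1 (ω b)) ∧
    ∃ D, ω 0 D ≠ 0 ∧ AlgebraicIndependent ℂ (fun b : Fin h => ω b.succ D / ω 0 D)

/-- `ν ≤ h` -/
def ANum (N : ℕ) (K : Type) [Field K] [Algebra ℂ K] (h : ℕ) : Prop :=
  ∀ S : Finset K, ∃ C : ℕ, ∀ m M : ℕ, 1 ≤ m →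
    (∃ ω : Fin M → (Fin N → Derivation ℂ K K) → K, LinearIndependent ℂ ω ∧
      ∀ l, ASec N S m 1 (ω l)) → M ≤ C * m ^ h

/-- pseudo-effective -/
def APsef (N : ℕ) (K : Type) [Field K] [Algebra ℂ K] : Prop :=
  ∃ S : Finset K, ∀ M : ℕ, ∃ j : ℕ, 1 ≤ j ∧ ∃ ω : (Fin N → Derivation ℂ K K) → K, ω ≠ 0 ∧
    ASec N S (j * M) j ω

theorem psef_of_kod {h : ℕ} (hk : AKod N K h) : APsef N K := by
  classical
  obtain ⟨m, hm, ω, hω, D, hD, -⟩ := hk
  refine ⟨{1}, fun M => ⟨m, hm, fun D => ω 0 D ^ M, ?_, ?_, ?_⟩⟩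
  · intro h0
    exact pow_ne_zero M hD (congrFun h0 D)
  · intro A D
    have h1 := (hω 0).1 A D
    dsimp only
    rw [h1, mul_pow, ← pow_mul]
  · intro P hP D hD
    by_cases h0 : ω 0 D = 0
    · by_cases hM : M = 0
      · right
        refine ⟨1, by simp, one_ne_zero, ?_⟩
        dsimp only
        rw [hM, pow_zero, P.ord_one, mul_zero]
      · left
        dsimp only
        rw [h0, zero_pow hM]
    · right
      obtain ⟨s, hs, -, hle⟩ := ((hω 0).2 P hP D hD).resolve_left h0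
      rw [Finset.mem_singleton] at hs
      subst hs
      refine ⟨1, by simp, one_ne_zero, ?_⟩
      dsimp only
      rw [P.ord_pow, P.ord_one, mul_zero]
      rw [P.ord_one, mul_zero] at hle
      positivity

/-- the log discrepancies, up to the pullbacks -/
theorem main (hr : 1 ≤ r) (hn : ∀ i, 1 ≤ n i) (hN : N = ∑ i, n i)
    {F : ∀ i, MvPolynomial (Fin (n i + 1)) ℂ} {d : Fin r → ℕ} (hd : ∀ i, 1 ≤ d i)
    (hh : ∀ i, (F i).IsHomogeneous (d i)) (hs : ∀ i, SmF (F i))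
    {x : ∀ i, Fin (n i + 1) → K} (hx0 : ∀ i, x i 0 ≠ 0)
    (hbas : IsTranscendenceBasis ℂ (aff x)) {m : Fin R → ℕ} (hm : ∀ j, 0 < m j)
    {a : Fin R → Fin r → ℕ} (hdiv : ∀ j i, m j ∣ a j i * d i) {z : Fin R → K}
    (hz : ∀ j, z j ^ m j = ∏ i, (aeval (x i) (F i) / x i 0 ^ d i) ^ a j i)
    (hgen : IntermediateField.adjoin ℂ (Set.range (aff x) ∪ Set.range z) = ⊤)
    (I : Finset (Fin r)) (hI : ∀ i, i ∈ I ↔ ∀ v, Adm m a v →
      ∑ s, (((d s : ℚ) - n s - 1) / d s) * v s = 1 → v i = 0) :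
    (APsef N K ↔ ∀ v, Adm m a v → 1 ≤ ∑ i, (((d i : ℚ) - n i - 1) / d i) * v i) ∧
    (AKod N K 0 ↔ ∀ v, Adm m a v → 1 ≤ ∑ i, (((d i : ℚ) - n i - 1) / d i) * v i) ∧
    ((∀ v, Adm m a v → 1 ≤ ∑ i, (((d i : ℚ) - n i - 1) / d i) * v i) →
      AKod N K (∑ i ∈ I, n i) ∧ ANum N K (∑ i ∈ I, n i)) := by
  classical
  obtain ⟨N', rfl⟩ : ∃ N', N = N' + 1 := by
    have h1 : n ⟨0, hr⟩ ≤ ∑ i, n i :=
      Finset.single_le_sum (f := n) (fun _ _ => Nat.zero_le _) (Finset.mem_univ _)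
    have h2 := hn ⟨0, hr⟩
    exact ⟨N - 1, by omega⟩
  let e : ((i : Fin r) × Fin (n i)) ≃ Fin (N' + 1) :=
    finSigmaFinEquiv.trans (finCongr hN.symm)
  have hbas' : IsTranscendenceBasis ℂ (uu e x) := basis_uu e hbas
  have hrange : Set.range (uu e x) = Set.range (aff x) := by
    ext z
    constructor
    · rintro ⟨b, rfl⟩
      exact ⟨e.symm b, rfl⟩
    · rintro ⟨a, rfl⟩
      refine ⟨e a, ?_⟩
      change aff x (e.symm (e a)) = _
      rw [e.symm_apply_apply]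
  obtain ⟨Φ, hΦ, hΦn, hΦD, C, hCM, hCa⟩ := exists_cvr e hn hx0 hbas' hd hs hh hm hz hdiv
    (by rw [hrange]; exact hgen)
  have hx : ∀ i j, x i j ≠ 0 := by
    intro i j
    refine Fin.cases (hx0 i) (fun l => ?_) j
    intro h0
    have h1 : aff x ⟨i, l⟩ = 0 := by
      change x i l.succ / x i 0 = 0
      rw [h0, zero_div]
    exact hbas.1.ne_zero _ h1
  have hFx : ∀ i, aeval (x i) (F i) ≠ 0 := by
    intro i h0
    have h1 : aeval (uu e x) (dh e i (F i)) = 0 := by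
      rw [aeval_dh e hx0 (hh i), h0, zero_div]
    have h2 := (injective_iff_map_eq_zero _).1 hbas'.1 _ h1
    obtain ⟨q, c, hq, hc, -⟩ := exists_sh (hh i) (smF_ne (hs i))
    -- the dehomogenisation is injective on forms
    apply smF_ne (hs i)
    by_contra hF
    obtain ⟨b, hb⟩ := MvPolynomial.ne_zero_iff.1 hF
    have h3 : coeff (ex e i b) (dh e i (F i)) = coeff b (F i) := by
      rw [coeff_dh, Finset.sum_eq_single b]
      · rw [if_pos rfl]
      · intro b' hb' hne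
        rw [if_neg]
        intro hex
        apply hne
        have h4 : ∀ l : Fin (n i), b' l.succ = b l.succ := by
          intro l
          rw [← ex_at e b' l, ← ex_at e b l, hex]
        have h5 := sum_hom (hh i) hb'
        have h6 := sum_hom (hh i) (mem_support_iff.2 hb)
        rw [Fin.sum_univ_succ] at h5 h6
        rw [Finset.sum_congr rfl fun l _ => h4 l] at h5
        ext j
        refine Fin.cases ?_ (fun l => h4 l) j
        omega
      · intro h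
        rw [notMem_support_iff] at h
        rw [if_pos rfl, h]
    rw [h2, coeff_zero] at h3
    exact hb h3.symm
  have hz0 : ∀ j, z j ≠ 0 := by
    intro j h0
    have h1 := hz j
    rw [h0, zero_pow (hm j).ne'] at h1
    exact (Finset.prod_ne_zero_iff.2 fun i _ => pow_ne_zero _
      (div_ne_zero (hFx i) (pow_ne_zero _ (hx0 i)))) h1.symm
  -- the lower bound
  have hlow : (∀ v, Adm m a v → 1 ≤ ∑ i, (((d i : ℚ) - n i - 1) / d i) * v i) →
      ∀ (h : ℕ) (f : Fin h → Fin (N' + 1)), Function.Injective f → (∀ b, (e.symm (f b)).1 ∈ I) →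
        AKod (N' + 1) K h := by
    intro hpos h f hf hfI
    obtain ⟨T, hT, ω, hω, D, hD, hind⟩ := kod_ge e hn hx hbas' hd hs hh hFx hm hz0 hz hdiv hpos I
      (fun i hi v hv h1 => (hI i).1 hi v hv h1) h f hf hfI
    refine ⟨T, hT, ω, fun b => ⟨(hω b).1, fun P hP D hD => ?_⟩, D, hD, hind⟩
    refine ((hω b).2 P D hD).imp id fun h => ⟨1, by simp, one_ne_zero, ?_⟩
    rw [P.ord_one, mul_zero]
    exact h
  have hnot : APsef (N' + 1) K →
      ∀ v, Adm m a v → 1 ≤ ∑ i, (((d i : ℚ) - n i - 1) / d i) * v i := by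
    rintro ⟨S, hS⟩ v hv
    by_contra hcon
    push Not at hcon
    obtain ⟨M, hM⟩ := C.not_psef hΦ hv.1 (by rw [hCM, hCa]; exact hv.2)
      (by simp only [hΦn, hΦD]; exact hcon) S
    obtain ⟨j, hj, ω, hω, hsec⟩ := hS M
    exact hω (hM j hj ω (asec_sec hsec))
  refine ⟨⟨hnot, fun hpos => ?_⟩, ⟨fun hk => hnot (psef_of_kod hk), fun hpos => ?_⟩,
    fun hpos => ⟨?_, ?_⟩⟩
  · exact psef_of_kod (hlow hpos 0 Fin.elim0 (fun b => b.elim0) fun b => b.elim0)
  · exact hlow hpos 0 Fin.elim0 (fun b => b.elim0) fun b => b.elim0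
  · have hcard := card_free e I
    obtain ⟨s, hs⟩ : ∃ s : Finset (Fin (N' + 1)), s = Finset.univ.filter
      fun b : Fin (N' + 1) => ∀ t : {i : Fin r // i ∉ I}, b ∉ bk e t.1 := ⟨_, rfl⟩
    rw [← hs] at hcard
    refine hlow hpos (∑ i ∈ I, n i) (s.orderEmbOfFin hcard) (s.orderEmbOfFin hcard).injective
      fun b => ?_
    have hb : s.orderEmbOfFin hcard b ∈ s := Finset.orderEmbOfFin_mem s hcard b
    obtain ⟨c, hc⟩ : ∃ c, c = s.orderEmbOfFin hcard b := ⟨_, rfl⟩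
    rw [← hc] at hb ⊢
    rw [hs, Finset.mem_filter] at hb
    by_contra hcon
    exact hb.2 ⟨_, hcon⟩ ((mem_bk e).2 rfl)
  · intro S
    obtain ⟨C1, hC1⟩ := C.num_le hΦ I (fun t ht => by
      rw [hI] at ht
      push Not at ht
      obtain ⟨v, hv, hv1, hvt⟩ := ht
      refine ⟨v, hvt, by rw [hCM, hCa]; exact hv.2, ?_⟩
      simp only [hΦn, hΦD]
      exact hv1) S
    simp only [hΦn] at hC1
    refine ⟨C1, fun m' M hm' hω => ?_⟩
    obtain ⟨ω, hlin, hω⟩ := hω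
    exact hC1 m' M hm' ω hlin fun l => asec_one (hω l)

end Pool.Agent.Y169.CH
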