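import Pool.Agent.TH756.PN.Fd
import Pool.Agent.Y169.CH.Mono
import Pool.Agent.Y169.CH.Exp

/-!
Traces of functions with bounded poles, for two nested groups.
-/

set_option autoImplicit false
set_option linter.overlappingInstances false
set_option linter.unusedSectionVars false

open FF MvPolynomial IntermediateField Pool.Agent.W603.LV Pool.Agent.W619.PQ
open Pool.Agent.TH122.AB Pool.Agent.TH756.PN

namespace Pool.Agent.Y169.CH

section

variable {k K : Type} [Field k] [CharZero k] [Field K] [Algebra k K]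

noncomputable local instance ftyG (G : Subgroup (K ≃ₐ[k] K)) [Finite G] : Fintype G :=
  Fintype.ofFinite G

open scoped Classical in
/-- the powers of the elements of a finite set -/
noncomputable def pw (S : Finset K) (j : ℕ) : Finset K := S.image fun s => s ^ j

theorem mem_pw {S : Finset K} {j : ℕ} {x : K} : x ∈ pw S j ↔ ∃ s ∈ S, s ^ j = x := by
  classical
  unfold pw
  rw [Finset.mem_image]

/-- the trace -/
noncomputable def tr (G : Subgroup (K ≃ₐ[k] K)) [Finite G] : K →ₗ[k] K where
  toFun := fun z => ∑ g : G, (g : K ≃ₐ[k] K) z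
  map_add' := by
    intro a b
    simp only [map_add, Finset.sum_add_distrib]
  map_smul' := by
    intro c a
    rw [RingHom.id_apply, Finset.smul_sum]
    refine Finset.sum_congr rfl fun g _ => ?_
    rw [Algebra.smul_def, Algebra.smul_def, map_mul, AlgEquiv.commutes]

theorem tr_apply (G : Subgroup (K ≃ₐ[k] K)) [Finite G] (z : K) :
    tr G z = ∑ g : G, (g : K ≃ₐ[k] K) z := rfl

theorem tr_fix (G : Subgroup (K ≃ₐ[k] K)) [Finite G] (z : K) : tr G z ∈ fixedField G := by
  intro g
  change (g : K ≃ₐ[k] K) (tr G z) = tr G z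
  rw [tr_apply, map_sum]
  exact Fintype.sum_equiv (Equiv.mulLeft g) _ _ fun h => rfl

theorem tr_lin (G : Subgroup (K ≃ₐ[k] K)) [Finite G] (c : fixedField G) (z : K) :
    tr G (c * z) = c * tr G z := by
  rw [tr_apply, tr_apply, Finset.mul_sum]
  refine Finset.sum_congr rfl fun g _ => ?_
  rw [map_mul]
  congr 1
  exact c.2 g

theorem tr_ge (G : Subgroup (K ≃ₐ[k] K)) [Finite G] {w : Place k K} {N : ℤ} {z : K}
    (h : ∀ g ∈ G, Ge w N (g z)) : Ge w N (tr G z) := by
  rw [tr_apply]
  exact Ge.sum _ _ fun g _ => h g g.2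

theorem tr_tr (G0 G : Subgroup (K ≃ₐ[k] K)) [Finite G0] [Finite G] (hGG : G ≤ G0) (z : K) :
    tr G0 (tr G z) = (Nat.card G : K) * tr G0 z := by
  rw [tr_apply, tr_apply]
  simp only [map_sum]
  rw [Finset.sum_comm]
  have h1 : ∀ h : G, ∑ g : G0, (g : K ≃ₐ[k] K) ((h : K ≃ₐ[k] K) z) = tr G0 z := by
    intro h
    rw [tr_apply]
    exact Fintype.sum_equiv (Equiv.mulRight ⟨h.1, hGG h.2⟩) _ _ fun g => rfl
  rw [Finset.sum_congr rfl fun h _ => h1 h, Finset.sum_const, Finset.card_univ, nsmul_eq_mul,
    Nat.card_eq_fintype_card]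

theorem tr_inj (G : Subgroup (K ≃ₐ[k] K)) [Finite G] {z : K} (h : ∀ y, tr G (z * y) = 0) :
    z = 0 := by
  by_contra hz
  have hcK : CharZero K := charZero_of_injective_algebraMap (algebraMap k K).injective
  have h1 := h z⁻¹
  rw [mul_inv_cancel₀ hz, tr_apply] at h1
  simp only [map_one, Finset.sum_const, Finset.card_univ, nsmul_eq_mul, mul_one] at h1
  have h4 : Fintype.card G ≠ 0 := Fintype.card_ne_zero
  exact h4 (by exact_mod_cast h1)

/-- the trace of an integral element is a polynomial -/
theorem tr_int {d : ℕ} (G : Subgroup (K ≃ₐ[k] K)) [Finite G] {Y : Fin d → fixedField G}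
    (hY : Gens (k := k) Y) {z : K}
    (hz : IsIntegral (Algebra.adjoin k (Set.range fun j => (Y j : K))) z) :
    ∃ p : MvPolynomial (Fin d) k, tr G z = (aeval Y p : fixedField G) := by
  obtain ⟨t, ht⟩ : ∃ t : fixedField G, (t : K) = tr G z := ⟨⟨_, tr_fix G z⟩, rfl⟩
  have hreg : ∃ P : MvPolynomial (Fin d) k, t = aeval Y P := by
    refine poly_of_reg hY fun p hp v hv1 hv2 => ?_
    obtain ⟨w, e, I, hwv, -, -⟩ := exists_inertia G v
    have h1 : w.Reg (t : K) := by
      rw [ht]
      refine tr_ge G (N := 0) fun g hg => ?_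
      have h2 : (w.comp g).Reg z := by
        refine reg_of_int (Z := fun j => (Y j : K)) (fun P => ?_) hz
        have h3 : aeval (fun j => (Y j : K)) P = ((aeval Y P : fixedField G) : K) :=
          MvPolynomial.aeval_algebraMap_apply K Y P
        rw [h3]
        refine (over_comp hwv hg).reg.2 ?_
        by_cases hP : P = 0
        · rw [hP, map_zero]
          exact v.reg_zero
        · exact Or.inr (hv2 P hP).1
      rcases h2 with h2 | h2
      · left
        rw [h2, map_zero]
      · right
        exact h2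
    exact hwv.reg.1 h1
  obtain ⟨P, hP⟩ := hreg
  exact ⟨P, by rw [← ht, hP]⟩

end

end Pool.Agent.Y169.CH
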